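import Mathlib

/-!
# Fourier transform on a finite field, and the quadratic character
-/

namespace Pool.Agent.H89.MOD

open Finset

variable {F : Type} [Field F] [Fintype F]

/-- Fourier transform -/
noncomputable def ft (ψ : AddChar F ℂ) (f : F → ℂ) (k : F) : ℂ := ∑ x, f x * ψ (k * x)

lemma psi_conj (ψ : AddChar F ℂ) (x : F) : (starRingEnd ℂ) (ψ x) = ψ (-x) :=
  (AddChar.map_neg_eq_conj ψ x).symm

lemma psi_norm (ψ : AddChar F ℂ) (x : F) : ‖ψ x‖ = 1 := AddChar.norm_apply ψ x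

variable [DecidableEq F]

/-- inversion -/
lemma ft_inv {ψ : AddChar F ℂ}
    (hψ : ∀ k, ∑ x, ψ (k * x) = if k = 0 then (Fintype.card F : ℂ) else 0) (f : F → ℂ) (y : F) :
    ∑ k, ft ψ f k * ψ (-(k * y)) = (Fintype.card F : ℂ) * f y := by
  have h1 : ∀ k, ft ψ f k * ψ (-(k * y)) = ∑ x, f x * ψ ((x - y) * k) := by
    intro k
    rw [ft, Finset.sum_mul]
    refine Finset.sum_congr rfl fun x _ => ?_
    rw [mul_assoc, ← AddChar.map_add_eq_mul]
    congr 2
    ring
  simp only [h1]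
  rw [Finset.sum_comm]
  simp only [← Finset.mul_sum, hψ]
  rw [Finset.sum_eq_single y]
  · rw [sub_self, if_pos rfl, mul_comm]
  · intro x _ hx
    rw [if_neg (sub_ne_zero.2 hx), mul_zero]
  · intro h
    exact absurd (Finset.mem_univ y) h

/-- Parseval -/
lemma ft_parseval {ψ : AddChar F ℂ}
    (hψ : ∀ k, ∑ x, ψ (k * x) = if k = 0 then (Fintype.card F : ℂ) else 0) (f : F → ℂ) :
    ∑ k, ‖ft ψ f k‖ ^ 2 = (Fintype.card F : ℝ) * ∑ x, ‖f x‖ ^ 2 := by
  have h1 : ∀ z : ℂ, ((‖z‖ ^ 2 : ℝ) : ℂ) = z * (starRingEnd ℂ) z := by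
    intro z
    rw [Complex.mul_conj, Complex.normSq_eq_norm_sq]
  have h2 : ((∑ k, ‖ft ψ f k‖ ^ 2 : ℝ) : ℂ) = (((Fintype.card F : ℝ) * ∑ x, ‖f x‖ ^ 2 : ℝ) : ℂ) := by
    rw [Complex.ofReal_sum, Complex.ofReal_mul, Complex.ofReal_sum]
    simp only [h1]
    have h3 : ∀ k, ft ψ f k * (starRingEnd ℂ) (ft ψ f k) =
        ∑ x, (starRingEnd ℂ) (f x) * (ft ψ f k * ψ (-(k * x))) := by
      intro k
      conv_lhs => rw [ft, map_sum, ← ft]
      rw [Finset.mul_sum]
      refine Finset.sum_congr rfl fun x _ => ?_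
      rw [map_mul, psi_conj]
      ring
    simp only [h3]
    rw [Finset.sum_comm, Finset.mul_sum]
    refine Finset.sum_congr rfl fun x _ => ?_
    rw [← Finset.mul_sum, ft_inv hψ]
    push_cast
    ring
  exact_mod_cast h2

/-- if the transform of `f` vanishes off `0`, then `f` is constant -/
lemma const_of_ft {ψ : AddChar F ℂ}
    (hψ : ∀ k, ∑ x, ψ (k * x) = if k = 0 then (Fintype.card F : ℂ) else 0) {f : F → ℂ}
    (h : ∀ k, k ≠ 0 → ft ψ f k = 0) (y : F) : f y = f 0 := by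
  have h1 : ∀ y, ∑ k, ft ψ f k * ψ (-(k * y)) = ft ψ f 0 := by
    intro y
    rw [Finset.sum_eq_single 0]
    · rw [zero_mul, neg_zero, AddChar.map_zero_eq_one, mul_one]
    · intro k _ hk
      rw [h k hk, zero_mul]
    · intro h
      exact absurd (Finset.mem_univ 0) h
  have h2 := ft_inv hψ f y
  have h3 := ft_inv hψ f 0
  rw [h1] at h2 h3
  have h4 : (Fintype.card F : ℂ) ≠ 0 := by
    exact_mod_cast Fintype.card_ne_zero
  exact mul_left_cancel₀ h4 (h2.symm.trans h3)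

omit [DecidableEq F] in
lemma ft_conj (ψ : AddChar F ℂ) (f : F → ℂ) (k : F) :
    (starRingEnd ℂ) (ft ψ f k) = ft ψ (fun x => (starRingEnd ℂ) (f x)) (-k) := by
  rw [ft, map_sum, ft]
  refine Finset.sum_congr rfl fun x _ => ?_
  rw [map_mul, psi_conj, neg_mul]

omit [DecidableEq F] in
lemma ft_neg (ψ : AddChar F ℂ) (f : F → ℂ) (k : F) :
    ft ψ f (-k) = ft ψ (fun x => f (-x)) k := by
  rw [ft, ft, ← Equiv.sum_comp (Equiv.neg F)]
  refine Finset.sum_congr rfl fun x _ => ?_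
  simp

/-- the data used: a character with orthogonality and a real function `c` which is an
eigenfunction of the Fourier transform -/
structure QS (ψ : AddChar F ℂ) (c : F → ℝ) (ε : ℝ) (g : ℂ) : Prop where
  char_sum : ∀ k, ∑ x, ψ (k * x) = if k = 0 then (Fintype.card F : ℂ) else 0
  c_zero : c 0 = 0
  c_sq : ∀ x, x ≠ 0 → c x ^ 2 = 1
  c_neg : ∀ x, c (-x) = ε * c x
  ft_c : ∀ k, ft ψ (fun x => (c x : ℂ)) k = (c k : ℂ) * g
  g_sq : g ^ 2 = (ε : ℂ) * (Fintype.card F : ℂ)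
  g_conj : (starRingEnd ℂ) g = (ε : ℂ) * g
  eps : ε = 1 ∨ ε = -1

lemma exists_QS (hF : ringChar F ≠ 2) :
    ∃ (ψ : AddChar F ℂ) (c : F → ℝ) (ε : ℝ) (g : ℂ), QS ψ c ε g := by
  obtain ⟨ψ, hψ⟩ : ∃ ψ : AddChar F ℂ, ψ.IsPrimitive :=
    ⟨_, AddChar.FiniteField.primitiveChar_to_Complex_isPrimitive F⟩
  have hinj : Function.Injective (Int.castRingHom ℂ) := Int.cast_injective
  set χ : MulChar F ℂ := (quadraticChar F).ringHomComp (Int.castRingHom ℂ) with hχ
  have hχ1 : χ ≠ 1 := by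
    intro h
    apply quadraticChar_ne_one hF
    ext a
    have := congrArg (fun f : MulChar F ℂ => f a) h
    simp only [hχ, MulChar.ringHomComp_apply, MulChar.one_apply_coe] at this
    rw [MulChar.one_apply_coe]
    exact hinj (by simpa using this)
  have hχ2 : χ.IsQuadratic := (quadraticChar_isQuadratic F).comp _
  have hap : ∀ x, χ x = ((quadraticChar F x : ℤ) : ℂ) := fun x => rfl
  have hcc : ∀ x : F, (((quadraticChar F x : ℤ) : ℝ) : ℂ) = χ x := by
    intro x
    rw [hap]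
    push_cast
    rfl
  refine ⟨ψ, fun x => ((quadraticChar F x : ℤ) : ℝ), ((quadraticChar F (-1) : ℤ) : ℝ),
    gaussSum χ ψ, ⟨?_, ?_, ?_, ?_, ?_, ?_, ?_, ?_⟩⟩
  · intro k
    have h1 := AddChar.sum_mulShift k hψ
    have h2 : ∑ x, ψ (k * x) = ∑ x, ψ (x * k) :=
      Finset.sum_congr rfl fun x _ => by rw [mul_comm]
    rw [h2, h1]
    push_cast
    rfl
  · simp
  · intro x hx
    have := quadraticChar_sq_one hx
    exact_mod_cast this
  · intro x
    have : quadraticChar F (-x) = quadraticChar F (-1) * quadraticChar F x := by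
      rw [← map_mul, neg_one_mul]
    exact_mod_cast this
  · intro k
    have e : ∀ k, ft ψ (fun x => (((quadraticChar F x : ℤ) : ℝ) : ℂ)) k =
        gaussSum χ (ψ.mulShift k) := by
      intro k
      rw [ft, gaussSum]
      refine Finset.sum_congr rfl fun x _ => ?_
      rw [AddChar.mulShift_apply, hcc]
    rw [e]
    by_cases hk : k = 0
    · subst hk
      rw [AddChar.mulShift_zero, gaussSum_one_right hχ1]
      simp
    · have h1 := gaussSum_mulShift χ ψ (Units.mk0 k hk)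
      simp only [Units.val_mk0] at h1
      rw [← h1, ← mul_assoc, hcc, ← map_mul, ← sq]
      have h2 : χ (k ^ 2) = 1 := by
        rw [hap, quadraticChar_sq_one' hk]
        simp
      rw [h2, one_mul]
  · rw [gaussSum_sq hχ1 hχ2 hψ, hcc]
  · rw [starRingEnd_apply, star_gaussSum_eq, hχ2.inv, ← gaussSum_mulShift χ ψ⁻¹ (-1), hcc]
    congr 2
    ext x
    simp
  · rcases quadraticChar_dichotomy (F := F) (a := -1) (by simp) with h | h
    · left
      rw [h]
      simp
    · right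
      rw [h]
      simp

end Pool.Agent.H89.MOD
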