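import Mathlib
import Pool.Agent.H89.MOD.Fou

/-!
# The map of phases, its smoothness and its derivative
-/

namespace Pool.Agent.H89.MOD

open Finset

variable {F : Type} [Field F] [Fintype F]

/-- function with changed phases -/
noncomputable def ph (u : F → ℂ) (θ : F → ℝ) (x : F) : ℂ := u x * Complex.exp ((θ x : ℂ) * Complex.I)

omit [Fintype F] [Field F] in
lemma ph_zero (u : F → ℂ) : ph u 0 = u := by
  funext x
  simp [ph]

omit [Fintype F] [Field F] in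
lemma ph_norm (u : F → ℂ) (θ : F → ℝ) (x : F) : ‖ph u θ x‖ = ‖u x‖ := by
  rw [ph, norm_mul, Complex.norm_exp_ofReal_mul_I, mul_one]

/-- odd functions and functions vanishing at `0` -/
def VV (F : Type) [Field F] : Submodule ℝ ((F → ℝ) × (F → ℝ)) where
  carrier := {v | (∀ x, v.1 (-x) = -v.1 x) ∧ v.2 0 = 0}
  add_mem' := by
    rintro v w ⟨h1, h2⟩ ⟨h3, h4⟩
    refine ⟨fun x => ?_, ?_⟩
    · rw [Prod.fst_add, Pi.add_apply, Pi.add_apply, h1, h3]
      ring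
    · rw [Prod.snd_add, Pi.add_apply, h2, h4, add_zero]
  zero_mem' := ⟨fun x => by simp, by simp⟩
  smul_mem' := by
    rintro c v ⟨h1, h2⟩
    refine ⟨fun x => ?_, ?_⟩
    · rw [Prod.smul_fst, Pi.smul_apply, Pi.smul_apply, h1, smul_neg]
    · rw [Prod.smul_snd, Pi.smul_apply, h2, smul_zero]

omit [Fintype F] in
lemma mem_VV {v : (F → ℝ) × (F → ℝ)} : v ∈ VV F ↔ (∀ x, v.1 (-x) = -v.1 x) ∧ v.2 0 = 0 := Iff.rfl

/-- the map -/
noncomputable def fm (ψ : AddChar F ℂ) (a0 b0 : F → ℂ) (v : VV F) (k : {k : F // k ≠ 0}) : ℝ :=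
  ‖ft ψ (ph a0 v.1.1) k‖ ^ 2 + ‖ft ψ (ph b0 v.1.2) k‖ ^ 2

lemma contDiff_ft (ψ : AddChar F ℂ) (u : F → ℂ) (k : F) {E : Type*} [NormedAddCommGroup E]
    [NormedSpace ℝ E] {L : E → F → ℝ} (hL : ContDiff ℝ 1 L) :
    ContDiff ℝ 1 (fun v => ft ψ (ph u (L v)) k) := by
  unfold ft ph
  refine ContDiff.sum fun x _ => ?_
  refine ContDiff.mul (ContDiff.mul contDiff_const ?_) contDiff_const
  refine ContDiff.cexp ?_
  refine ContDiff.mul ?_ contDiff_const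
  exact Complex.ofRealCLM.contDiff.comp ((contDiff_pi.1 hL) x)

lemma contDiff_fm [DecidableEq F] (ψ : AddChar F ℂ) (a0 b0 : F → ℂ) : ContDiff ℝ 1 (fm ψ a0 b0) := by
  refine contDiff_pi.2 fun k => ?_
  unfold fm
  have h1 : ContDiff ℝ 1 (fun v : VV F => v.1.1) :=
    contDiff_fst.comp (VV F).subtypeL.contDiff
  have h2 : ContDiff ℝ 1 (fun v : VV F => v.1.2) :=
    contDiff_snd.comp (VV F).subtypeL.contDiff
  exact ((contDiff_ft ψ a0 k h1).norm_sq ℝ).add ((contDiff_ft ψ b0 k h2).norm_sq ℝ)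

/-- derivative of the square of the modulus of a transform -/
noncomputable def dd (ψ : AddChar F ℂ) (u : F → ℂ) (θ : F → ℝ) (k : F) : ℝ :=
  2 * ((starRingEnd ℂ) (ft ψ u k) * ft ψ (fun x => u x * ((θ x : ℂ) * Complex.I)) k).re

lemma hasDerivAt_ft (ψ : AddChar F ℂ) (u : F → ℂ) (θ : F → ℝ) (k : F) :
    HasDerivAt (fun t : ℝ => ‖ft ψ (ph u (t • θ)) k‖ ^ 2) (dd ψ u θ k) 0 := by
  have h1 : HasDerivAt (fun t : ℝ => ft ψ (ph u (t • θ)) k)
      (ft ψ (fun x => u x * ((θ x : ℂ) * Complex.I)) k) 0 := by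
    unfold ft ph
    refine HasDerivAt.fun_sum fun x _ => ?_
    refine HasDerivAt.mul_const ?_ _
    refine HasDerivAt.const_mul _ ?_
    have h2 : HasDerivAt (fun t : ℝ => (((t • θ) x : ℝ) : ℂ) * Complex.I) ((θ x : ℂ) * Complex.I) 0 := by
      have h3 : HasDerivAt (fun t : ℝ => (t : ℂ)) 1 (0 : ℝ) := Complex.ofRealCLM.hasDerivAt
      have h4 := h3.mul_const ((θ x : ℂ) * Complex.I)
      rw [one_mul] at h4
      refine h4.congr_of_eventuallyEq (Filter.Eventually.of_forall fun t => ?_)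
      simp only [Pi.smul_apply, smul_eq_mul]
      push_cast
      ring
    have h5 := h2.cexp
    simpa using h5
  have h2 := h1.norm_sq
  have h3 : 2 * (inner ℝ (ft ψ (ph u ((0 : ℝ) • θ)) k)
      (ft ψ (fun x => u x * ((θ x : ℂ) * Complex.I)) k)) = dd ψ u θ k := by
    rw [zero_smul, ph_zero, Complex.inner, mul_comm (ft ψ (fun x => u x * ((θ x : ℂ) * Complex.I)) k)]
    rfl
  rw [← h3]
  exact h2

lemma fderiv_fm [DecidableEq F] (ψ : AddChar F ℂ) (a0 b0 : F → ℂ) (v : VV F) (k : {k : F // k ≠ 0}) :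
    fderiv ℝ (fm ψ a0 b0) 0 v k = dd ψ a0 v.1.1 k + dd ψ b0 v.1.2 k := by
  have h1 : HasFDerivAt (fm ψ a0 b0) (fderiv ℝ (fm ψ a0 b0) 0) ((0 : ℝ) • v) := by
    rw [zero_smul]
    exact ((contDiff_fm ψ a0 b0).differentiable (by norm_num) 0).hasFDerivAt
  have h2 : HasDerivAt (fun t : ℝ => t • v) v 0 := by
    have := (hasDerivAt_id (0 : ℝ)).smul_const v
    simpa using this
  have h3 : HasDerivAt (fun t : ℝ => fm ψ a0 b0 (t • v)) (fderiv ℝ (fm ψ a0 b0) 0 v) 0 :=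
    HasFDerivAt.comp_hasDerivAt (f := fun t : ℝ => t • v) (0 : ℝ) h1 h2
  have h4 := (hasDerivAt_pi.1 h3) k
  have h5 : HasDerivAt (fun t : ℝ => fm ψ a0 b0 (t • v) k)
      (dd ψ a0 v.1.1 k + dd ψ b0 v.1.2 k) 0 :=
    (hasDerivAt_ft ψ a0 v.1.1 k).add (hasDerivAt_ft ψ b0 v.1.2 k)
  exact h4.unique h5

end Pool.Agent.H89.MOD
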