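import Mathlib
import Pool.Agent.H89.MOD.Map

/-!
# Surjectivity of the derivative
-/

namespace Pool.Agent.H89.MOD

open Finset

variable {F : Type} [Field F] [Fintype F] [DecidableEq F]

/-- a base point for the implicit function theorem -/
structure Base (ψ : AddChar F ℂ) (a0 b0 : F → ℂ) : Prop where
  char_sum : ∀ k, ∑ x, ψ (k * x) = if k = 0 then (Fintype.card F : ℂ) else 0
  a_zero : a0 0 = 0
  a_norm : ∀ x, x ≠ 0 → ‖a0 x‖ = 1
  a_neg : ∀ x, a0 (-x) = (starRingEnd ℂ) (a0 x)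
  b_norm : ∀ x, ‖b0 x‖ = 1
  eq : ∀ k, k ≠ 0 → ‖ft ψ a0 k‖ ^ 2 + ‖ft ψ b0 k‖ ^ 2 = 2 * (Fintype.card F : ℝ) - 1
  nondeg : ∀ l : F → ℝ, l 0 = 0 →
    (∀ x, x ≠ 0 → (a0 x * ft ψ (fun k => (l k : ℂ) * (starRingEnd ℂ) (ft ψ a0 k)) x).im = 0) →
    (∀ x, x ≠ 0 → (b0 x * ft ψ (fun k => (l k : ℂ) * (starRingEnd ℂ) (ft ψ b0 k)) x).im = 0) →
    ∀ k, l k = 0

lemma ft_real {ψ : AddChar F ℂ} {a0 b0 : F → ℂ} (hB : Base ψ a0 b0) (k : F) :
    (starRingEnd ℂ) (ft ψ a0 k) = ft ψ a0 k := by
  rw [ft_conj, ft_neg]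
  unfold ft
  refine Finset.sum_congr rfl fun x _ => ?_
  simp only
  rw [← hB.a_neg, neg_neg]

lemma ft_single (ψ : AddChar F ℂ) (u : F → ℂ) (y k : F) :
    ft ψ (fun x => u x * (((Pi.single y (1 : ℝ) : F → ℝ) x : ℂ) * Complex.I)) k =
      u y * Complex.I * ψ (k * y) := by
  rw [ft, Finset.sum_eq_single y]
  · simp
  · intro x _ hx
    rw [Pi.single_eq_of_ne hx]
    simp
  · intro h
    exact absurd (Finset.mem_univ y) h

lemma surj {ψ : AddChar F ℂ} {a0 b0 : F → ℂ} (hB : Base ψ a0 b0)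
    (hneg : ∀ x : F, x ≠ 0 → -x ≠ x) :
    (fderiv ℝ (fm ψ a0 b0) 0).range = ⊤ := by
  by_contra hne
  obtain ⟨φ, hφ0, hφ⟩ := Submodule.exists_le_ker_of_lt_top _ (lt_top_iff_ne_top.2 hne)
  set l : F → ℝ := fun k => if h : k ≠ 0 then φ (Pi.single ⟨k, h⟩ 1) else 0 with hl
  have hl0 : l 0 = 0 := by
    simp [hl]
  have hφsum : ∀ w : {k : F // k ≠ 0} → ℝ, φ w = ∑ k : {k : F // k ≠ 0}, l k * w k := by
    intro w
    rw [LinearMap.pi_apply_eq_sum_univ]
    refine Finset.sum_congr rfl fun k _ => ?_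
    have h1 : l k = φ (Pi.single k 1) := by
      rw [hl]
      simp only
      rw [dif_pos k.2]
    have h2 : (fun j => if k = j then (1 : ℝ) else 0) = (Pi.single k 1 : {k : F // k ≠ 0} → ℝ) := by
      funext j
      rw [Pi.single_apply]
      simp only [eq_comm]
    rw [h1, smul_eq_mul, mul_comm, h2]
  have key : ∀ v : VV F, ∑ k : F, l k * (dd ψ a0 v.1.1 k + dd ψ b0 v.1.2 k) = 0 := by
    intro v
    have h1 : φ (fderiv ℝ (fm ψ a0 b0) 0 v) = 0 := hφ (LinearMap.mem_range_self _ v)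
    rw [hφsum] at h1
    have h2 : ∑ k : F, l k * (dd ψ a0 v.1.1 k + dd ψ b0 v.1.2 k) =
        ∑ k : {k : F // k ≠ 0}, l k * (dd ψ a0 v.1.1 k + dd ψ b0 v.1.2 k) := by
      rw [← Finset.sum_subtype (Finset.univ.filter fun k : F => k ≠ 0) (by simp)
        (fun k => l k * (dd ψ a0 v.1.1 k + dd ψ b0 v.1.2 k)), Finset.sum_filter]
      refine Finset.sum_congr rfl fun k _ => ?_
      by_cases hk : k = 0
      · subst hk
        simp [hl0]
      · rw [if_pos hk]
    rw [h2, ← h1]
    refine Finset.sum_congr rfl fun k _ => ?_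
    rw [fderiv_fm]
  have hz : l = 0 := by
    funext k
    refine hB.nondeg l hl0 ?_ ?_ k
    · intro x hx
      have hxx : -x ≠ x := hneg x hx
      have h1 := key ⟨(Pi.single x 1 - Pi.single (-x) 1, 0), by
        refine mem_VV.2 ⟨fun y => ?_, rfl⟩
        simp only [Pi.sub_apply, Pi.single_apply]
        by_cases h1 : y = x
        · subst h1
          simp [hxx, Ne.symm hxx]
        · by_cases h2 : y = -x
          · subst h2
            simp [hxx, Ne.symm hxx]
          · have h3 : ¬ (-y = x) := fun h => h2 (by rw [← h, neg_neg])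
            have h4 : ¬ (-y = -x) := fun h => h1 (neg_injective h)
            simp [h1, h2, h3, h4]⟩
      have h2 : ∀ k, dd ψ a0 (Pi.single x 1 - Pi.single (-x) 1) k =
          -4 * (a0 x * ((starRingEnd ℂ) (ft ψ a0 k) * ψ (k * x))).im := by
        intro k
        have e1 : ft ψ (fun y => a0 y * ((((Pi.single x 1 - Pi.single (-x) 1 : F → ℝ)) y : ℂ) *
            Complex.I)) k = a0 x * Complex.I * ψ (k * x) - a0 (-x) * Complex.I * ψ (k * (-x)) := by
          rw [← ft_single ψ a0 x k, ← ft_single ψ a0 (-x) k, ft, ft, ft, ← Finset.sum_sub_distrib]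
          refine Finset.sum_congr rfl fun y _ => ?_
          simp only [Pi.sub_apply]
          push_cast
          ring
        rw [dd, e1, hB.a_neg, mul_neg, ← psi_conj]
        have e2 := ft_real hB k
        have e3 : (starRingEnd ℂ) (ft ψ a0 k) * (a0 x * Complex.I * ψ (k * x) -
            (starRingEnd ℂ) (a0 x) * Complex.I * (starRingEnd ℂ) (ψ (k * x))) =
            Complex.I * (a0 x * ((starRingEnd ℂ) (ft ψ a0 k) * ψ (k * x)) -
              (starRingEnd ℂ) (a0 x * ((starRingEnd ℂ) (ft ψ a0 k) * ψ (k * x)))) := by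
          rw [map_mul (starRingEnd ℂ), map_mul (starRingEnd ℂ), Complex.conj_conj, e2]
          ring
        rw [e3, Complex.sub_conj]
        have e4 : ∀ r : ℝ, (Complex.I * (((2 * r : ℝ) : ℂ) * Complex.I)).re = -2 * r := by
          intro r
          simp
        rw [e4]
        ring
      have h3 : ∀ k, dd ψ b0 0 k = 0 := by
        intro k
        have : ft ψ (fun y => b0 y * ((((0 : F → ℝ)) y : ℂ) * Complex.I)) k = 0 := by
          rw [ft]
          exact Finset.sum_eq_zero fun y _ => by simp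
        rw [dd, this]
        simp
      simp only [h2, h3] at h1
      have h4 : ft ψ (fun k => (l k : ℂ) * (starRingEnd ℂ) (ft ψ a0 k)) x =
          ∑ k, (l k : ℂ) * ((starRingEnd ℂ) (ft ψ a0 k) * ψ (k * x)) := by
        rw [ft]
        refine Finset.sum_congr rfl fun k _ => ?_
        rw [mul_comm x k]
        ring
      rw [h4, Finset.mul_sum, Complex.im_sum]
      have h5 : ∀ k, (a0 x * ((l k : ℂ) * ((starRingEnd ℂ) (ft ψ a0 k) * ψ (k * x)))).im =
          -(1 / 4) * (l k * (-4 * (a0 x * ((starRingEnd ℂ) (ft ψ a0 k) * ψ (k * x))).im + 0)) := by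
        intro k
        have : a0 x * ((l k : ℂ) * ((starRingEnd ℂ) (ft ψ a0 k) * ψ (k * x))) =
            (l k : ℂ) * (a0 x * ((starRingEnd ℂ) (ft ψ a0 k) * ψ (k * x))) := by ring
        rw [this, Complex.im_ofReal_mul]
        ring
      rw [Finset.sum_congr rfl fun k _ => h5 k, ← Finset.mul_sum, h1, mul_zero]
    · intro x hx
      have h1 := key ⟨(0, Pi.single x 1), by
        refine mem_VV.2 ⟨fun y => by simp, ?_⟩
        simp only
        rw [Pi.single_eq_of_ne (Ne.symm hx)]⟩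
      have h2 : ∀ k, dd ψ b0 (Pi.single x 1) k =
          -2 * (b0 x * ((starRingEnd ℂ) (ft ψ b0 k) * ψ (k * x))).im := by
        intro k
        rw [dd, ft_single]
        have e3 : (starRingEnd ℂ) (ft ψ b0 k) * (b0 x * Complex.I * ψ (k * x)) =
            Complex.I * (b0 x * ((starRingEnd ℂ) (ft ψ b0 k) * ψ (k * x))) := by
          ring
        rw [e3, Complex.I_mul_re]
        ring
      have h3 : ∀ k, dd ψ a0 0 k = 0 := by
        intro k
        have : ft ψ (fun y => a0 y * ((((0 : F → ℝ)) y : ℂ) * Complex.I)) k = 0 := by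
          rw [ft]
          exact Finset.sum_eq_zero fun y _ => by simp
        rw [dd, this]
        simp
      simp only [h2, h3] at h1
      have h4 : ft ψ (fun k => (l k : ℂ) * (starRingEnd ℂ) (ft ψ b0 k)) x =
          ∑ k, (l k : ℂ) * ((starRingEnd ℂ) (ft ψ b0 k) * ψ (k * x)) := by
        rw [ft]
        refine Finset.sum_congr rfl fun k _ => ?_
        rw [mul_comm x k]
        ring
      rw [h4, Finset.mul_sum, Complex.im_sum]
      have h5 : ∀ k, (b0 x * ((l k : ℂ) * ((starRingEnd ℂ) (ft ψ b0 k) * ψ (k * x)))).im =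
          -(1 / 2) * (l k * (0 + -2 * (b0 x * ((starRingEnd ℂ) (ft ψ b0 k) * ψ (k * x))).im)) := by
        intro k
        have : b0 x * ((l k : ℂ) * ((starRingEnd ℂ) (ft ψ b0 k) * ψ (k * x))) =
            (l k : ℂ) * (b0 x * ((starRingEnd ℂ) (ft ψ b0 k) * ψ (k * x))) := by ring
        rw [this, Complex.im_ofReal_mul]
        ring
      rw [Finset.sum_congr rfl fun k _ => h5 k, ← Finset.mul_sum, h1, mul_zero]
  apply hφ0
  refine LinearMap.ext fun w => ?_
  rw [hφsum, hz]
  simp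

end Pool.Agent.H89.MOD
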