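import Mathlib
import Pool.Agent.H89.MOD.Surj

/-!
# The base points
-/

namespace Pool.Agent.H89.MOD

open Finset

variable {F : Type} [Field F] [Fintype F]

lemma ft_smul (ψ : AddChar F ℂ) (u : ℂ) (f : F → ℂ) (k : F) :
    ft ψ (fun x => u * f x) k = u * ft ψ f k := by
  rw [ft, ft, Finset.mul_sum]
  exact Finset.sum_congr rfl fun x _ => by ring

lemma ft_add (ψ : AddChar F ℂ) (f f' : F → ℂ) (k : F) :
    ft ψ (fun x => f x + f' x) k = ft ψ f k + ft ψ f' k := by
  rw [ft, ft, ft, ← Finset.sum_add_distrib]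
  exact Finset.sum_congr rfl fun x _ => by ring

lemma ft_sub (ψ : AddChar F ℂ) (f f' : F → ℂ) (k : F) :
    ft ψ (fun x => f x - f' x) k = ft ψ f k - ft ψ f' k := by
  rw [ft, ft, ft, ← Finset.sum_sub_distrib]
  exact Finset.sum_congr rfl fun x _ => by ring

variable [DecidableEq F]

lemma ft_delta (ψ : AddChar F ℂ) (k : F) :
    ft ψ (fun x => if x = 0 then (1 : ℂ) else 0) k = 1 := by
  rw [ft, Finset.sum_eq_single 0]
  · simp
  · intro x _ hx
    rw [if_neg hx, zero_mul]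
  · intro h
    exact absurd (Finset.mem_univ 0) h

variable {ψ : AddChar F ℂ} {c : F → ℝ} {ε : ℝ} {g : ℂ}

lemma QS.eps_sq (h : QS ψ c ε g) : (ε : ℂ) * ε = 1 := by
  rcases h.eps with h | h <;> rw [h] <;> simp

lemma QS.ft_ic (h : QS ψ c ε g) {ι : ℂ} {ρ : ℝ} (hιg : ι * g = ρ) (k : F) :
    ft ψ (fun x => ι * (c x : ℂ)) k = (ρ : ℂ) * c k := by
  rw [ft_smul, h.ft_c, ← hιg]
  ring

lemma QS.conj_ft (h : QS ψ c ε g) (l : F → ℝ) (x : F) :
    (starRingEnd ℂ) (ft ψ (fun k => (l k : ℂ) * c k) x) =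
      (ε : ℂ) * ft ψ (fun k => (l (-k) : ℂ) * c k) x := by
  rw [ft_conj, ft_neg, ← ft_smul]
  congr 1
  funext k
  simp only [map_mul, Complex.conj_ofReal, h.c_neg]
  push_cast
  ring

lemma QS.even_of (h : QS ψ c ε g) {ι : ℂ} {ρ : ℝ} (hι : (starRingEnd ℂ) ι = (ε : ℂ) * ι)
    (hιg : ι * g = ρ) (hι0 : ι ≠ 0) (hρ : ρ ≠ 0) {l : F → ℝ}
    (H : ∀ x, x ≠ 0 → ((ι * (c x : ℂ)) * ft ψ (fun k => (l k : ℂ) *
      (starRingEnd ℂ) (ft ψ (fun x => ι * (c x : ℂ)) k)) x).im = 0) (k : F) : l (-k) = l k := by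
  have h1 : ∀ x, x ≠ 0 → ft ψ (fun k => ((l k : ℂ) * c k) - (l (-k) : ℂ) * c k) x = 0 := by
    intro x hx
    have h2 := H x hx
    set z := ft ψ (fun k => (l k : ℂ) * c k) x with hz
    have h3 : ft ψ (fun k => (l k : ℂ) * (starRingEnd ℂ) (ft ψ (fun x => ι * (c x : ℂ)) k)) x =
        (ρ : ℂ) * z := by
      rw [hz, ← ft_smul]
      congr 1
      funext k
      rw [h.ft_ic hιg, map_mul, Complex.conj_ofReal, Complex.conj_ofReal]
      ring
    rw [h3] at h2
    have h4 : ι * (c x : ℂ) * ((ρ : ℂ) * z) = ((c x * ρ : ℝ) : ℂ) * (ι * z) := by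
      push_cast
      ring
    rw [h4, Complex.im_ofReal_mul] at h2
    have hcx : c x ≠ 0 := by
      intro h0
      have := h.c_sq x hx
      rw [h0] at this
      norm_num at this
    have h5 : (ι * z).im = 0 := by
      rcases mul_eq_zero.1 h2 with h6 | h6
      · exact absurd h6 (mul_ne_zero hcx hρ)
      · exact h6
    have h6 := Complex.conj_eq_iff_im.2 h5
    rw [map_mul, hι, hz, h.conj_ft, ← hz] at h6
    have h7 : (ε : ℂ) * ε * (ι * ft ψ (fun k => (l (-k) : ℂ) * c k) x) = ι * z := by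
      rw [← h6]
      ring
    rw [h.eps_sq, one_mul] at h7
    have h8 := mul_left_cancel₀ hι0 h7
    rw [ft_sub, h8, hz, sub_self]
  have h2 := const_of_ft h.char_sum h1 k
  by_cases hk : k = 0
  · rw [hk, neg_zero]
  · simp only [h.c_zero, neg_zero, sub_self, ← sub_mul] at h2
    have hck : (c k : ℂ) ≠ 0 := by
      intro h0
      have h0' : c k = 0 := by exact_mod_cast h0
      have := h.c_sq k hk
      rw [h0'] at this
      norm_num at this
    rcases mul_eq_zero.1 h2 with h6 | h6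
    · have : (l k : ℂ) = (l (-k) : ℂ) := sub_eq_zero.1 h6
      exact_mod_cast this.symm
    · exact absurd h6 hck

lemma c_norm (h : QS ψ c ε g) {x : F} (hx : x ≠ 0) : ‖(c x : ℂ)‖ = 1 := by
  have h1 := h.c_sq x hx
  rw [Complex.norm_real, Real.norm_eq_abs]
  have h2 : |c x| ^ 2 = 1 := by rw [sq_abs, h1]
  have h3 := abs_nonneg (c x)
  nlinarith

/-- transform of `b0` -/
lemma QS.ft_b (h : QS ψ c ε g) (X Y : ℝ) (w : ℂ) {k : F} (hk : k ≠ 0) :
    ft ψ (fun x => (X : ℂ) + Complex.I * Y * c x + w * (if x = 0 then (1 : ℂ) else 0)) k =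
      Complex.I * Y * (c k * g) + w := by
  rw [ft_add, ft_add, ft_smul, ft_smul, h.ft_c, ft_delta, mul_one]
  have : ft ψ (fun _ => (X : ℂ)) k = 0 := by
    rw [ft, ← Finset.mul_sum]
    have h1 := h.char_sum k
    rw [if_neg hk] at h1
    rw [h1, mul_zero]
  rw [this, zero_add]

lemma QS.ft_v (h : QS ψ c ε g) (X Y : ℝ) (w : ℂ) {l : F → ℝ} (hl : l 0 = 0) (x : F) :
    ft ψ (fun k => (l k : ℂ) * (starRingEnd ℂ) (ft ψ (fun x => (X : ℂ) + Complex.I * Y * c x +
      w * (if x = 0 then (1 : ℂ) else 0)) k)) x =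
      -(Complex.I * Y * ((starRingEnd ℂ) g * ft ψ (fun k => (l k : ℂ) * c k) x)) +
        (starRingEnd ℂ) w * ft ψ (fun k => (l k : ℂ)) x := by
  have e : ∀ (f f' : F → ℂ), (∀ k, f k = f' k) → ft ψ f x = ft ψ f' x := by
    intro f f' hff
    rw [show f = f' from funext hff]
  have h1 : -(Complex.I * Y * ((starRingEnd ℂ) g * ft ψ (fun k => (l k : ℂ) * c k) x)) =
      ft ψ (fun k => (-(Complex.I * Y * (starRingEnd ℂ) g)) * ((l k : ℂ) * c k)) x := by
    rw [ft_smul]
    ring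
  rw [h1, ← ft_smul, ← ft_add]
  refine e _ _ fun k => ?_
  by_cases hk : k = 0
  · subst hk
    rw [hl]
    simp
  · rw [h.ft_b X Y w hk]
    simp only [map_add, map_mul, Complex.conj_I, Complex.conj_ofReal]
    ring

omit [DecidableEq F] in
lemma ft_l_conj {l : F → ℝ} (hev : ∀ k, l (-k) = l k) (x : F) :
    (starRingEnd ℂ) (ft ψ (fun k => (l k : ℂ)) x) = ft ψ (fun k => (l k : ℂ)) x := by
  rw [ft_conj, ft_neg]
  congr 1
  funext k
  rw [Complex.conj_ofReal, hev]

omit [DecidableEq F] in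
lemma ft_l_neg {l : F → ℝ} (hev : ∀ k, l (-k) = l k) (x : F) :
    ft ψ (fun k => (l k : ℂ)) (-x) = ft ψ (fun k => (l k : ℂ)) x := by
  rw [ft_neg]
  congr 1
  funext k
  rw [hev]

/-- base point, `ε = -1` -/
lemma QS.base_neg (h : QS ψ c (-1) g) (hq : 3 ≤ Fintype.card F) : ∃ a0 b0, Base ψ a0 b0 := by
  have hq' : (3 : ℝ) ≤ Fintype.card F := by exact_mod_cast hq
  set q : ℝ := (Fintype.card F : ℝ) with hqd
  -- `g = γ i`
  set γ : ℝ := g.im with hγ
  have hg : g = (γ : ℂ) * Complex.I := by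
    have h1 := h.g_conj
    have h2 := congrArg Complex.re h1
    simp only [Complex.conj_re, Complex.ofReal_neg, Complex.ofReal_one, neg_mul, one_mul,
      Complex.neg_re] at h2
    apply Complex.ext
    · simp
      linarith
    · simp [hγ]
  have hγ2 : γ ^ 2 = q := by
    have h1 := h.g_sq
    rw [hg, mul_pow, Complex.I_sq] at h1
    push_cast at h1
    have h2 : ((γ : ℂ)) ^ 2 = (Fintype.card F : ℂ) := by linear_combination -h1
    rw [hqd]
    exact_mod_cast h2
  have hγ0 : γ ≠ 0 := by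
    intro h0
    rw [h0] at hγ2
    linarith
  set X : ℝ := √(2 / (q + 1)) with hX
  have hX2 : X ^ 2 = 2 / (q + 1) := Real.sq_sqrt (by positivity)
  have hXpos : 0 < X := Real.sqrt_pos.2 (by positivity)
  have hX3 : X ^ 2 * (q + 1) = 2 := by
    rw [hX2]
    field_simp
  have hX4 : X ^ 2 ≤ 1 / 2 := by
    rw [hX2, div_le_div_iff₀ (by linarith) (by norm_num)]
    linarith
  set Y : ℝ := √(1 - X ^ 2) with hY
  have hY2 : Y ^ 2 = 1 - X ^ 2 := Real.sq_sqrt (by linarith)
  have hYpos : 0 < Y := Real.sqrt_pos.2 (by linarith)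
  have hXY : X ^ 2 + Y ^ 2 = 1 := by linarith
  have hιg : Complex.I * g = ((-γ : ℝ) : ℂ) := by
    rw [hg]
    push_cast
    linear_combination (γ : ℂ) * Complex.I_mul_I
  have hI : (starRingEnd ℂ) Complex.I = ((-1 : ℝ) : ℂ) * Complex.I := by
    rw [Complex.conj_I]
    push_cast
    ring
  have hfa : ∀ k, k ≠ 0 → ‖ft ψ (fun x => Complex.I * (c x : ℂ)) k‖ ^ 2 = q := by
    intro k hk
    rw [h.ft_ic hιg, norm_mul, c_norm h hk, mul_one, Complex.norm_real, Real.norm_eq_abs, sq_abs,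
      neg_sq, hγ2]
  have hn : ∀ z : ℂ, ‖z‖ ^ 2 = z.re ^ 2 + z.im ^ 2 := by
    intro z
    rw [← Complex.normSq_eq_norm_sq, Complex.normSq_apply]
    ring
  have hfb : ∀ k, k ≠ 0 → ‖ft ψ (fun x => (X : ℂ) + Complex.I * Y * c x +
      Complex.I * Y * (if x = 0 then (1 : ℂ) else 0)) k‖ ^ 2 = q - 1 := by
    intro k hk
    rw [h.ft_b X Y _ hk, hg, hn]
    have e : Complex.I * (Y : ℂ) * ((c k : ℂ) * ((γ : ℂ) * Complex.I)) + Complex.I * Y =
        ((-(Y * c k * γ) : ℝ) : ℂ) + (Y : ℂ) * Complex.I := by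
      push_cast
      linear_combination ((Y : ℂ) * c k * γ) * Complex.I_mul_I
    rw [e]
    have e1 : (((-(Y * c k * γ) : ℝ) : ℂ) + (Y : ℂ) * Complex.I).re = -(Y * c k * γ) := by simp
    have e2 : (((-(Y * c k * γ) : ℝ) : ℂ) + (Y : ℂ) * Complex.I).im = Y := by simp
    rw [e1, e2]
    have h1 := h.c_sq k hk
    have e3 : (-(Y * c k * γ)) ^ 2 + Y ^ 2 = Y ^ 2 * (c k ^ 2 * γ ^ 2 + 1) := by ring
    rw [e3, h1, hγ2, hY2]
    linear_combination -hX3
  refine ⟨fun x => Complex.I * (c x : ℂ), fun x => (X : ℂ) + Complex.I * Y * c x +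
      Complex.I * Y * (if x = 0 then (1 : ℂ) else 0), ⟨h.char_sum, ?_, ?_, ?_, ?_, ?_, ?_⟩⟩
  · simp only [h.c_zero, Complex.ofReal_zero, mul_zero]
  · intro x hx
    rw [norm_mul, Complex.norm_I, one_mul, c_norm h hx]
  · intro x
    rw [h.c_neg, map_mul, hI, Complex.conj_ofReal]
    push_cast
    ring
  · intro x
    have h1 : (X : ℂ) + Complex.I * Y * c x + Complex.I * Y * (if x = 0 then (1 : ℂ) else 0) =
        (X : ℂ) + ((Y * (c x + if x = 0 then (1 : ℝ) else 0) : ℝ) : ℂ) * Complex.I := by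
      by_cases hx : x = 0
      · subst hx
        simp [h.c_zero]
        ring
      · simp [hx]
        ring
    have h2 : ‖(X : ℂ) + ((Y * (c x + if x = 0 then (1 : ℝ) else 0) : ℝ) : ℂ) * Complex.I‖ ^ 2 = 1 := by
      rw [hn]
      have e1 : ((X : ℂ) + ((Y * (c x + if x = 0 then (1 : ℝ) else 0) : ℝ) : ℂ) * Complex.I).re = X := by
        rw [Complex.add_re, Complex.ofReal_re, Complex.re_ofReal_mul]
        simp
      have e2 : ((X : ℂ) + ((Y * (c x + if x = 0 then (1 : ℝ) else 0) : ℝ) : ℂ) * Complex.I).im =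
          Y * (c x + if x = 0 then (1 : ℝ) else 0) := by
        rw [Complex.add_im, Complex.ofReal_im, Complex.im_ofReal_mul]
        simp
      rw [e1, e2]
      by_cases hx : x = 0
      · subst hx
        rw [h.c_zero, if_pos rfl]
        linarith
      · rw [if_neg hx, add_zero, mul_pow, h.c_sq x hx]
        linarith
    rw [h1]
    have h3 := norm_nonneg ((X : ℂ) + ((Y * (c x + if x = 0 then (1 : ℝ) else 0) : ℝ) : ℂ) * Complex.I)
    nlinarith
  · intro k hk
    rw [hfa k hk, hfb k hk]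
    ring
  · intro l hl H1 H2
    have hev := h.even_of hI hιg Complex.I_ne_zero (neg_ne_zero.2 hγ0) H1
    -- `P x = g Q x`
    have hPQ : ∀ x, x ≠ 0 → ft ψ (fun k => (l k : ℂ)) x =
        g * ft ψ (fun k => (l k : ℂ) * c k) x := by
      intro x hx
      have h1 := H2 x hx
      rw [h.ft_v X Y _ hl, if_neg hx, mul_zero, add_zero] at h1
      set P := ft ψ (fun k => (l k : ℂ)) x with hP
      set Q := ft ψ (fun k => (l k : ℂ) * c k) x with hQ
      have hPc : (starRingEnd ℂ) P = P := ft_l_conj hev x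
      have hQc : (starRingEnd ℂ) Q = -Q := by
        rw [hQ, h.conj_ft]
        simp only [hev]
        push_cast
        ring
      have hgc : (starRingEnd ℂ) g = -g := by
        rw [h.g_conj]
        push_cast
        ring
      have hR : (starRingEnd ℂ) (g * Q - P) = g * Q - P := by
        rw [map_sub, map_mul, hPc, hQc, hgc]
        ring
      obtain ⟨r, hr⟩ := Complex.conj_eq_iff_real.1 hR
      have e : ((X : ℂ) + Complex.I * Y * c x) * (-(Complex.I * Y * ((starRingEnd ℂ) g * Q)) +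
          (starRingEnd ℂ) (Complex.I * Y) * P) =
          ((-(Y ^ 2 * c x * r) : ℝ) : ℂ) + ((X * Y * r : ℝ) : ℂ) * Complex.I := by
        rw [map_mul, Complex.conj_I, Complex.conj_ofReal, hgc]
        have e1 : -(Complex.I * (Y : ℂ) * (-g * Q)) + -Complex.I * Y * P = Complex.I * Y * r := by
          rw [← hr]
          ring
        rw [e1]
        push_cast
        linear_combination ((Y : ℂ) ^ 2 * c x * r) * Complex.I_mul_I
      rw [e] at h1
      have e2 : (((-(Y ^ 2 * c x * r) : ℝ) : ℂ) + ((X * Y * r : ℝ) : ℂ) * Complex.I).im =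
          X * Y * r := by
        rw [Complex.add_im, Complex.ofReal_im, Complex.im_ofReal_mul]
        simp
      rw [e2] at h1
      have hr0 : r = 0 := by
        rcases mul_eq_zero.1 h1 with h2 | h2
        · exact absurd h2 (mul_pos hXpos hYpos).ne'
        · exact h2
      rw [hr0] at hr
      have := sub_eq_zero.1 (hr.trans (by simp))
      exact this.symm
    have hP0 : ∀ x, x ≠ 0 → ft ψ (fun k => (l k : ℂ)) x = 0 := by
      intro x hx
      have h1 := hPQ x hx
      have h2 := hPQ (-x) (neg_ne_zero.2 hx)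
      rw [ft_l_neg hev] at h2
      have h3 : ft ψ (fun k => (l k : ℂ) * c k) (-x) = -ft ψ (fun k => (l k : ℂ) * c k) x := by
        rw [ft_neg, neg_eq_neg_one_mul, ← ft_smul]
        congr 1
        funext k
        rw [hev, h.c_neg]
        push_cast
        ring
      rw [h3] at h2
      linear_combination (1 / 2 : ℂ) * h1 + (1 / 2 : ℂ) * h2
    intro k
    have h1 := const_of_ft h.char_sum hP0 k
    rw [hl] at h1
    exact_mod_cast h1

end Pool.Agent.H89.MOD
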