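import Mathlib
import Pool.Agent.H89.MOD.BaseP

/-!
# The base points, `ε = 1`
-/

namespace Pool.Agent.H89.MOD

open Finset

variable {F : Type} [Field F] [Fintype F] [DecidableEq F]
variable {ψ : AddChar F ℂ} {c : F → ℝ} {g : ℂ}

omit [DecidableEq F] in
lemma sum_mul_ft (ψ : AddChar F ℂ) (f f' : F → ℂ) :
    ∑ x, f x * ft ψ f' x = ∑ k, f' k * ft ψ f k := by
  unfold ft
  simp only [Finset.mul_sum]
  rw [Finset.sum_comm]
  refine Finset.sum_congr rfl fun k _ => Finset.sum_congr rfl fun x _ => ?_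
  rw [mul_comm x k]
  ring

/-- base point, `ε = 1` -/
lemma QS.base_pos (h : QS ψ c 1 g) (hq : 3 ≤ Fintype.card F) : ∃ a0 b0, Base ψ a0 b0 := by
  have hq' : (3 : ℝ) ≤ Fintype.card F := by exact_mod_cast hq
  set q : ℝ := (Fintype.card F : ℝ) with hqd
  set γ : ℝ := g.re with hγ
  have hg : g = (γ : ℂ) := by
    have h1 := h.g_conj
    rw [Complex.ofReal_one, one_mul] at h1
    exact (Complex.conj_eq_iff_re.1 h1).symm
  have hγ2 : γ ^ 2 = q := by
    have h1 := h.g_sq
    rw [hg] at h1
    rw [hqd]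
    have h2 : ((γ : ℂ)) ^ 2 = (Fintype.card F : ℂ) := by
      rw [h1]
      simp
    exact_mod_cast h2
  have hγ0 : γ ≠ 0 := by
    intro h0
    rw [h0] at hγ2
    linarith
  set s : ℝ := √(2 * q - 1) with hs
  have hs2 : s ^ 2 = 2 * q - 1 := Real.sq_sqrt (by linarith)
  have hs0 : 0 ≤ s := Real.sqrt_nonneg _
  have hs1 : 1 < s := by nlinarith
  have hsq : s < q := by nlinarith
  set X : ℝ := (s - 1) / (q - 1) with hX
  have hq1 : 0 < q - 1 := by linarith
  have hX1 : (q - 1) * X = s - 1 := by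
    rw [hX]
    field_simp
  have hXpos : 0 < X := div_pos (by linarith) hq1
  have hXlt : X < 1 := by
    rw [hX, div_lt_one hq1]
    linarith
  have hX3 : (q - 1) * X ^ 2 + 2 * X = 2 := by
    have h1 : (q - 1) * ((q - 1) * X ^ 2 + 2 * X) = (q - 1) * 2 := by
      have : (q - 1) * ((q - 1) * X ^ 2 + 2 * X) = ((q - 1) * X) ^ 2 + 2 * ((q - 1) * X) := by ring
      rw [this, hX1]
      nlinarith
    exact mul_left_cancel₀ hq1.ne' h1
  set Y : ℝ := √(1 - X ^ 2) with hY
  have hX4 : X ^ 2 < 1 := by nlinarith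
  have hY2 : Y ^ 2 = 1 - X ^ 2 := Real.sq_sqrt (by linarith)
  have hYpos : 0 < Y := Real.sqrt_pos.2 (by linarith)
  have hιg : (1 : ℂ) * g = (γ : ℂ) := by rw [hg, one_mul]
  have hI : (starRingEnd ℂ) (1 : ℂ) = ((1 : ℝ) : ℂ) * 1 := by simp
  have hfa : ∀ k, k ≠ 0 → ‖ft ψ (fun x => (1 : ℂ) * (c x : ℂ)) k‖ ^ 2 = q := by
    intro k hk
    rw [h.ft_ic hιg, norm_mul, c_norm h hk, mul_one, Complex.norm_real, Real.norm_eq_abs, sq_abs,
      hγ2]
  have hn : ∀ z : ℂ, ‖z‖ ^ 2 = z.re ^ 2 + z.im ^ 2 := by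
    intro z
    rw [← Complex.normSq_eq_norm_sq, Complex.normSq_apply]
    ring
  have hfb : ∀ k, k ≠ 0 → ‖ft ψ (fun x => (X : ℂ) + Complex.I * Y * c x +
      ((1 - X : ℝ) : ℂ) * (if x = 0 then (1 : ℂ) else 0)) k‖ ^ 2 = q - 1 := by
    intro k hk
    rw [h.ft_b X Y _ hk, hg, hn]
    have e : Complex.I * (Y : ℂ) * ((c k : ℂ) * (γ : ℂ)) + ((1 - X : ℝ) : ℂ) =
        ((1 - X : ℝ) : ℂ) + ((Y * c k * γ : ℝ) : ℂ) * Complex.I := by
      push_cast
      ring
    rw [e]
    have e1 : (((1 - X : ℝ) : ℂ) + ((Y * c k * γ : ℝ) : ℂ) * Complex.I).re = 1 - X := by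
      rw [Complex.add_re, Complex.ofReal_re, Complex.re_ofReal_mul]
      simp
    have e2 : (((1 - X : ℝ) : ℂ) + ((Y * c k * γ : ℝ) : ℂ) * Complex.I).im = Y * c k * γ := by
      rw [Complex.add_im, Complex.ofReal_im, Complex.im_ofReal_mul]
      simp
    rw [e1, e2]
    have h1 := h.c_sq k hk
    have e3 : (Y * c k * γ) ^ 2 = Y ^ 2 * (c k ^ 2 * γ ^ 2) := by ring
    rw [e3, h1, hγ2, hY2]
    linear_combination -hX3
  refine ⟨fun x => (1 : ℂ) * (c x : ℂ), fun x => (X : ℂ) + Complex.I * Y * c x +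
      ((1 - X : ℝ) : ℂ) * (if x = 0 then (1 : ℂ) else 0), ⟨h.char_sum, ?_, ?_, ?_, ?_, ?_, ?_⟩⟩
  · simp only [h.c_zero, Complex.ofReal_zero, mul_zero]
  · intro x hx
    rw [one_mul, c_norm h hx]
  · intro x
    rw [h.c_neg, map_mul, hI, Complex.conj_ofReal]
    push_cast
    ring
  · intro x
    by_cases hx : x = 0
    · subst hx
      rw [h.c_zero, if_pos rfl]
      have : (X : ℂ) + Complex.I * Y * ((0 : ℝ) : ℂ) + ((1 - X : ℝ) : ℂ) * 1 = 1 := by
        push_cast
        ring
      rw [this, norm_one]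
    · rw [if_neg hx, mul_zero, add_zero]
      have e : (X : ℂ) + Complex.I * Y * c x = (X : ℂ) + ((Y * c x : ℝ) : ℂ) * Complex.I := by
        push_cast
        ring
      have e1 : ((X : ℂ) + ((Y * c x : ℝ) : ℂ) * Complex.I).re = X := by
        rw [Complex.add_re, Complex.ofReal_re, Complex.re_ofReal_mul]
        simp
      have e2 : ((X : ℂ) + ((Y * c x : ℝ) : ℂ) * Complex.I).im = Y * c x := by
        rw [Complex.add_im, Complex.ofReal_im, Complex.im_ofReal_mul]
        simp
      have h2 : ‖(X : ℂ) + Complex.I * Y * c x‖ ^ 2 = 1 := by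
        rw [e, hn, e1, e2, mul_pow, h.c_sq x hx]
        linarith
      have h3 := norm_nonneg ((X : ℂ) + Complex.I * Y * c x)
      nlinarith
  · intro k hk
    rw [hfa k hk, hfb k hk]
    ring
  · intro l hl H1 H2
    have hev := h.even_of hI hιg one_ne_zero hγ0 H1
    have hQc : ∀ x, (starRingEnd ℂ) (ft ψ (fun k => (l k : ℂ) * c k) x) =
        ft ψ (fun k => (l k : ℂ) * c k) x := by
      intro x
      rw [h.conj_ft]
      simp only [hev, Complex.ofReal_one, one_mul]
    set p : F → ℝ := fun x => (ft ψ (fun k => (l k : ℂ)) x).re with hp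
    set r : F → ℝ := fun x => (ft ψ (fun k => (l k : ℂ) * c k) x).re with hr
    have hP : ∀ x, ft ψ (fun k => (l k : ℂ)) x = (p x : ℂ) := fun x =>
      (Complex.conj_eq_iff_re.1 (ft_l_conj hev x)).symm
    have hQ : ∀ x, ft ψ (fun k => (l k : ℂ) * c k) x = (r x : ℂ) := fun x =>
      (Complex.conj_eq_iff_re.1 (hQc x)).symm
    have hE : ∀ x, x ≠ 0 → X * γ * r x = (1 - X) * c x * p x := by
      intro x hx
      have h1 := H2 x hx
      rw [h.ft_v X Y _ hl, if_neg hx, mul_zero, add_zero, hP, hQ, h.g_conj, hg] at h1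
      have e : ((X : ℂ) + Complex.I * Y * c x) * (-(Complex.I * Y * (((1 : ℝ) : ℂ) * (γ : ℂ) * (r x : ℂ))) +
          (starRingEnd ℂ) ((1 - X : ℝ) : ℂ) * (p x : ℂ)) =
          ((X * (1 - X) * p x + Y ^ 2 * c x * γ * r x : ℝ) : ℂ) +
            ((Y * ((1 - X) * c x * p x - X * γ * r x) : ℝ) : ℂ) * Complex.I := by
        rw [Complex.conj_ofReal]
        push_cast
        linear_combination (-((Y : ℂ) ^ 2 * c x * γ * r x)) * Complex.I_mul_I
      rw [e] at h1
      have e2 : (((X * (1 - X) * p x + Y ^ 2 * c x * γ * r x : ℝ) : ℂ) +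
            ((Y * ((1 - X) * c x * p x - X * γ * r x) : ℝ) : ℂ) * Complex.I).im =
          Y * ((1 - X) * c x * p x - X * γ * r x) := by
        rw [Complex.add_im, Complex.ofReal_im, Complex.im_ofReal_mul]
        simp
      rw [e2] at h1
      rcases mul_eq_zero.1 h1 with h2 | h2
      · exact absurd h2 hYpos.ne'
      · linarith
    have hS1 : ∑ x, p x = 0 := by
      have h1 := ft_inv h.char_sum (fun k => (l k : ℂ)) 0
      simp only [mul_zero, neg_zero, AddChar.map_zero_eq_one, mul_one, hl, hP,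
        Complex.ofReal_zero] at h1
      exact_mod_cast h1
    have hS2 : ∑ x, r x = 0 := by
      have h1 := ft_inv h.char_sum (fun k => (l k : ℂ) * c k) 0
      simp only [mul_zero, neg_zero, AddChar.map_zero_eq_one, mul_one, hl, hQ,
        Complex.ofReal_zero, zero_mul] at h1
      exact_mod_cast h1
    have hp0 : p 0 = ∑ k, l k := by
      have h1 := hP 0
      rw [ft] at h1
      simp only [zero_mul, AddChar.map_zero_eq_one, mul_one] at h1
      exact_mod_cast h1.symm
    have hr0 : r 0 = ∑ k, l k * c k := by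
      have h1 := hQ 0
      rw [ft] at h1
      simp only [zero_mul, AddChar.map_zero_eq_one, mul_one] at h1
      exact_mod_cast h1.symm
    have hlc : ∀ k, l k * c k * c k = l k := by
      intro k
      by_cases hk : k = 0
      · rw [hk, hl]
        ring
      · have := h.c_sq k hk
        linear_combination l k * this
    have hS3 : ∑ x, c x * r x = γ * p 0 := by
      have h1 := sum_mul_ft ψ (fun x => (c x : ℂ)) (fun k => (l k : ℂ) * c k)
      simp only [hQ, h.ft_c, hg] at h1
      have h2 : ∑ x, c x * r x = ∑ k, l k * c k * (c k * γ) := by exact_mod_cast h1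
      rw [h2, hp0, Finset.mul_sum]
      refine Finset.sum_congr rfl fun k _ => ?_
      linear_combination γ * hlc k
    have hS4 : ∑ x, c x * p x = γ * r 0 := by
      have h1 := sum_mul_ft ψ (fun x => (c x : ℂ)) (fun k => (l k : ℂ))
      simp only [hP, h.ft_c, hg] at h1
      have h2 : ∑ x, c x * p x = ∑ k, l k * (c k * γ) := by exact_mod_cast h1
      rw [h2, hr0, Finset.mul_sum]
      refine Finset.sum_congr rfl fun k _ => ?_
      ring
    have hδ : ∀ z : ℝ, ∑ x : F, (if x = 0 then z else 0) = z := by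
      intro z
      rw [Finset.sum_ite_eq' Finset.univ (0 : F) (fun _ => z), if_pos (Finset.mem_univ _)]
    -- the value `p 0`
    have hp00 : p 0 = 0 := by
      have h1 : ∀ x, X * γ * (c x * r x) = (1 - X) * p x - (if x = 0 then (1 - X) * p 0 else 0) := by
        intro x
        by_cases hx : x = 0
        · subst hx
          rw [h.c_zero, if_pos rfl]
          ring
        · rw [if_neg hx]
          have h2 := hE x hx
          have h3 := h.c_sq x hx
          linear_combination c x * h2 + (1 - X) * p x * h3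
      have h2 : ∑ x, X * γ * (c x * r x) =
          ∑ x, ((1 - X) * p x - (if x = 0 then (1 - X) * p 0 else 0)) :=
        Finset.sum_congr rfl fun x _ => h1 x
      rw [← Finset.mul_sum, hS3, Finset.sum_sub_distrib, ← Finset.mul_sum, hS1, hδ] at h2
      have h3 : (X * q + (1 - X)) * p 0 = 0 := by
        rw [← hγ2]
        linear_combination h2
      rcases mul_eq_zero.1 h3 with h4 | h4
      · exfalso
        nlinarith
      · exact h4
    have hr00 : r 0 = 0 := by
      have h1 : ∀ x, X * γ * r x = (1 - X) * (c x * p x) + (if x = 0 then X * γ * r 0 else 0) := by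
        intro x
        by_cases hx : x = 0
        · subst hx
          rw [h.c_zero, if_pos rfl]
          ring
        · rw [if_neg hx]
          have h2 := hE x hx
          linear_combination h2
      have h2 : ∑ x, X * γ * r x =
          ∑ x, ((1 - X) * (c x * p x) + (if x = 0 then X * γ * r 0 else 0)) :=
        Finset.sum_congr rfl fun x _ => h1 x
      rw [← Finset.mul_sum, hS2, Finset.sum_add_distrib, ← Finset.mul_sum, hS4, hδ] at h2
      have h3 : γ * r 0 = 0 := by linear_combination -h2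
      rcases mul_eq_zero.1 h3 with h4 | h4
      · exact absurd h4 hγ0
      · exact h4
    have hall : ∀ x, X ^ 2 * q * r x ^ 2 = (1 - X) ^ 2 * p x ^ 2 := by
      intro x
      by_cases hx : x = 0
      · subst hx
        rw [hp00, hr00]
        ring
      · have h2 := hE x hx
        have h3 := h.c_sq x hx
        have h4 : (X * γ * r x) ^ 2 = ((1 - X) * c x * p x) ^ 2 := by rw [h2]
        rw [← hγ2]
        linear_combination h4 + (1 - X) ^ 2 * p x ^ 2 * h3
    have hT1 : ∑ x, p x ^ 2 = q * ∑ k, l k ^ 2 := by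
      have h1 := ft_parseval h.char_sum (fun k => (l k : ℂ))
      simp only [hP, Complex.norm_real, Real.norm_eq_abs, sq_abs] at h1
      exact h1
    have hT2 : ∑ x, r x ^ 2 = q * ∑ k, l k ^ 2 := by
      have h1 := ft_parseval h.char_sum (fun k => (l k : ℂ) * c k)
      simp only [hQ, Complex.norm_real, Real.norm_eq_abs, sq_abs, norm_mul, mul_pow] at h1
      rw [h1]
      congr 1
      refine Finset.sum_congr rfl fun k _ => ?_
      linear_combination l k * hlc k
    have hfin : ∑ k, l k ^ 2 = 0 := by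
      have h1 : ∑ x, X ^ 2 * q * r x ^ 2 = ∑ x, (1 - X) ^ 2 * p x ^ 2 :=
        Finset.sum_congr rfl fun x _ => hall x
      rw [← Finset.mul_sum, ← Finset.mul_sum, hT1, hT2] at h1
      have h2 : q * ∑ k, l k ^ 2 = 0 := by
        linear_combination h1 - (q * ∑ k, l k ^ 2) * hX3
      rcases mul_eq_zero.1 h2 with h4 | h4
      · linarith
      · exact h4
    intro k
    have h1 := (Finset.sum_eq_zero_iff_of_nonneg (fun k _ => sq_nonneg (l k))).1 hfin k
      (Finset.mem_univ k)
    exact pow_eq_zero_iff (two_ne_zero) |>.1 h1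

lemma exists_base (hF : ringChar F ≠ 2) (hq : 3 ≤ Fintype.card F) :
    ∃ (ψ : AddChar F ℂ) (a0 b0 : F → ℂ), Base ψ a0 b0 := by
  obtain ⟨ψ, c, ε, g, h⟩ := exists_QS hF
  rcases h.eps with he | he
  · subst he
    obtain ⟨a0, b0, hB⟩ := h.base_pos hq
    exact ⟨ψ, a0, b0, hB⟩
  · subst he
    obtain ⟨a0, b0, hB⟩ := h.base_neg hq
    exact ⟨ψ, a0, b0, hB⟩

end Pool.Agent.H89.MOD
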