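import Mathlib
import Pool.Agent.H89.MOD.Map

/-!
# Dimension of the space of phases
-/

namespace Pool.Agent.H89.MOD

open Finset Module

variable {F : Type} [Field F] [Fintype F] [DecidableEq F]

/-- a half system -/
lemma exists_half (hneg : ∀ x : F, x ≠ 0 → -x ≠ x) :
    ∃ H : Finset F, (∀ x, x ∈ H → -x ∉ H) ∧ 2 * H.card + 1 = Fintype.card F := by
  set e := Fintype.equivFin F with he
  refine ⟨Finset.univ.filter fun x => e x < e (-x), ?_, ?_⟩
  · intro x hx
    rw [Finset.mem_filter] at hx ⊢
    rw [neg_neg]
    exact fun h => absurd hx.2 (not_lt.2 h.2.le)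
  · have h1 : (Finset.univ.filter fun x : F => e (-x) < e x).card =
        (Finset.univ.filter fun x : F => e x < e (-x)).card := by
      refine Finset.card_bij (fun x _ => -x) ?_ ?_ ?_
      · intro x hx
        rw [Finset.mem_filter] at hx ⊢
        rw [neg_neg]
        exact ⟨Finset.mem_univ _, hx.2⟩
      · intro x _ y _ h
        exact neg_injective h
      · intro y hy
        refine ⟨-y, ?_, neg_neg y⟩
        rw [Finset.mem_filter] at hy ⊢
        rw [neg_neg]
        exact ⟨Finset.mem_univ _, hy.2⟩
    have h2 : (Finset.univ : Finset F) = {0} ∪ ((Finset.univ.filter fun x : F => e (-x) < e x) ∪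
        (Finset.univ.filter fun x : F => e x < e (-x))) := by
      ext x
      simp only [Finset.mem_univ, Finset.mem_union, Finset.mem_singleton, Finset.mem_filter,
        true_and, true_iff]
      by_cases hx : x = 0
      · left
        exact hx
      · right
        exact lt_or_gt_of_ne (fun h => hneg x hx (e.injective h))
    have h3 : Disjoint (Finset.univ.filter fun x : F => e (-x) < e x)
        (Finset.univ.filter fun x : F => e x < e (-x)) := by
      rw [Finset.disjoint_filter]
      intro x _ h h'
      exact absurd h (not_lt.2 h'.le)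
    have h4 : Disjoint ({0} : Finset F) ((Finset.univ.filter fun x : F => e (-x) < e x) ∪
        (Finset.univ.filter fun x : F => e x < e (-x))) := by
      rw [Finset.disjoint_singleton_left]
      simp
    have h5 := congrArg Finset.card h2
    rw [Finset.card_univ, Finset.card_union_of_disjoint h4,
      Finset.card_union_of_disjoint h3, h1, Finset.card_singleton] at h5
    omega

/-- restriction -/
def resH (H : Finset F) : VV F →ₗ[ℝ] (H → ℝ) × ({k : F // k ≠ 0} → ℝ) where
  toFun v := (fun x => v.1.1 x, fun x => v.1.2 x)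
  map_add' _ _ := rfl
  map_smul' _ _ := rfl

omit [Fintype F] in
lemma resH_surj (H : Finset F) (hH : ∀ x, x ∈ H → -x ∉ H) : Function.Surjective (resH H) := by
  rintro ⟨α, β⟩
  refine ⟨⟨(fun x => (if h : x ∈ H then α ⟨x, h⟩ else 0) - (if h : -x ∈ H then α ⟨-x, h⟩ else 0),
    fun x => if h : x ≠ 0 then β ⟨x, h⟩ else 0), mem_VV.2 ⟨fun x => ?_, ?_⟩⟩, ?_⟩
  · simp only [neg_neg, neg_sub]
  · simp
  · refine Prod.ext ?_ ?_
    · funext x
      show (if h : (x : F) ∈ H then α ⟨x, h⟩ else 0) - (if h : -(x : F) ∈ H then α ⟨-x, h⟩ else 0) = α x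
      rw [dif_pos x.2, dif_neg (hH x x.2), sub_zero]
    · funext x
      show (if h : (x : F) ≠ 0 then β ⟨x, h⟩ else 0) = β x
      rw [dif_pos x.2]

lemma finrank_VV (hneg : ∀ x : F, x ≠ 0 → -x ≠ x) :
    (Fintype.card F - 1) / 2 + finrank ℝ ({k : F // k ≠ 0} → ℝ) ≤ finrank ℝ (VV F) := by
  obtain ⟨H, hH, hc⟩ := exists_half hneg
  have h1 := LinearMap.finrank_le_finrank_of_surjective (resH_surj H hH)
  rw [finrank_prod, finrank_fintype_fun_eq_card, Fintype.card_coe] at h1
  have h2 : (Fintype.card F - 1) / 2 = H.card := by omega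
  rw [h2]
  exact h1

end Pool.Agent.H89.MOD
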