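import Mathlib

/-!
# A form of the implicit function theorem
-/

namespace Pool.Agent.H89.MOD

open Module Topology

/-- a nonempty open set contains a continuous injective image of the whole space -/
lemma exists_shrink {d : ℕ} {W : Set (Fin d → ℝ)} (hW : IsOpen W) {c : Fin d → ℝ} (hc : c ∈ W) :
    ∃ u : (Fin d → ℝ) → (Fin d → ℝ), Continuous u ∧ Function.Injective u ∧ ∀ t, u t ∈ W := by
  obtain ⟨r, hr, hrW⟩ := Metric.isOpen_iff.1 hW c hc
  refine ⟨OpenPartialHomeomorph.univBall c r, OpenPartialHomeomorph.continuous_univBall c r, ?_, ?_⟩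
  · have h1 := (OpenPartialHomeomorph.univBall c r).injOn
    rw [OpenPartialHomeomorph.univBall_source] at h1
    exact Set.injOn_univ.1 h1
  · intro t
    apply hrW
    rw [← OpenPartialHomeomorph.univBall_target c hr]
    apply (OpenPartialHomeomorph.univBall c r).map_source
    rw [OpenPartialHomeomorph.univBall_source]
    exact Set.mem_univ t

lemma exists_inj {d : ℕ} {K : Type*} [AddCommGroup K] [Module ℝ K] [Module.Finite ℝ K]
    (h : d ≤ finrank ℝ K) : ∃ L : (Fin d → ℝ) →ₗ[ℝ] K, Function.Injective L := by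
  apply finrank_le_iff_exists_linearMap.1
  rw [finrank_fin_fun]
  exact h

/-- abstract form of the implicit function theorem -/
lemma exists_local {E W : Type*} [NormedAddCommGroup E] [NormedSpace ℝ E] [FiniteDimensional ℝ E]
    [NormedAddCommGroup W] [NormedSpace ℝ W] [FiniteDimensional ℝ W] {f : E → W}
    (hf : ContDiff ℝ 1 f) (hs : (fderiv ℝ f 0).range = ⊤) {d : ℕ}
    (hd : d + finrank ℝ W ≤ finrank ℝ E) {δ : ℝ} (hδ : 0 < δ) :
    ∃ Φ : (Fin d → ℝ) → E, Continuous Φ ∧ Function.Injective Φ ∧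
      ∀ t, f (Φ t) = f 0 ∧ ‖Φ t‖ < δ := by
  have := FiniteDimensional.complete ℝ E
  have hst : HasStrictFDerivAt f (fderiv ℝ f 0) 0 :=
    hf.contDiffAt.hasStrictFDerivAt (by norm_num)
  set Ψ := hst.implicitToOpenPartialHomeomorph f _ hs with hΨ
  have hK : d ≤ finrank ℝ (fderiv ℝ f 0).ker := by
    have h1 := LinearMap.finrank_range_add_finrank_ker (fderiv ℝ f 0 : E →ₗ[ℝ] W)
    have h2 : finrank ℝ (LinearMap.range (fderiv ℝ f 0 : E →ₗ[ℝ] W)) = finrank ℝ W := by
      have : LinearMap.range (fderiv ℝ f 0 : E →ₗ[ℝ] W) = ⊤ := hs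
      rw [this, finrank_top]
    have h3 : finrank ℝ (LinearMap.ker (fderiv ℝ f 0 : E →ₗ[ℝ] W)) =
      finrank ℝ (fderiv ℝ f 0).ker := rfl
    omega
  obtain ⟨L, hL⟩ := exists_inj hK
  have hLc : Continuous L := LinearMap.continuous_of_finiteDimensional L
  have htar : (f 0, (0 : (fderiv ℝ f 0).ker)) ∈ Ψ.target :=
    hst.mem_implicitToOpenPartialHomeomorph_target hs
  have hg : Continuous (fun t : Fin d → ℝ => (f 0, L t)) := by fun_prop
  have hg0 : (fun t : Fin d → ℝ => (f 0, L t)) 0 = (f 0, (0 : (fderiv ℝ f 0).ker)) := by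
    simp
  set T : Set (Fin d → ℝ) := (fun t : Fin d → ℝ => (f 0, L t)) ⁻¹' Ψ.target with hT
  have hTo : IsOpen T := Ψ.open_target.preimage hg
  have hsymm : Ψ.symm (f 0, (0 : (fderiv ℝ f 0).ker)) = 0 := by
    have h1 : Ψ 0 = (f 0, (0 : (fderiv ℝ f 0).ker)) := hst.implicitToOpenPartialHomeomorph_self hs
    rw [← h1]
    exact Ψ.left_inv (hst.mem_implicitToOpenPartialHomeomorph_source hs)
  have hcont : ContinuousOn (fun t : Fin d → ℝ => Ψ.symm (f 0, L t)) T :=
    Ψ.continuousOn_symm.comp hg.continuousOn (fun t ht => ht)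
  set T' : Set (Fin d → ℝ) := T ∩ (fun t : Fin d → ℝ => Ψ.symm (f 0, L t)) ⁻¹' Metric.ball 0 δ
    with hT'
  have hTo' : IsOpen T' := hcont.isOpen_inter_preimage hTo Metric.isOpen_ball
  have h0 : (0 : Fin d → ℝ) ∈ T' := by
    refine ⟨?_, ?_⟩
    · show (fun t : Fin d → ℝ => (f 0, L t)) 0 ∈ Ψ.target
      rw [hg0]
      exact htar
    · show Ψ.symm (f 0, L 0) ∈ Metric.ball 0 δ
      rw [map_zero, hsymm]
      exact Metric.mem_ball_self hδ
  obtain ⟨u, hu, hui, huT⟩ := exists_shrink hTo' h0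
  refine ⟨fun t => Ψ.symm (f 0, L (u t)), ?_, ?_, ?_⟩
  · rw [← continuousOn_univ]
    exact hcont.comp hu.continuousOn (fun t _ => (huT t).1)
  · intro s t hst'
    have h1 := Ψ.symm.injOn (show (f 0, L (u s)) ∈ Ψ.symm.source from (huT s).1)
      (show (f 0, L (u t)) ∈ Ψ.symm.source from (huT t).1) hst'
    exact hui (hL (Prod.ext_iff.1 h1).2)
  · intro t
    refine ⟨?_, ?_⟩
    · have h1 : Ψ (Ψ.symm (f 0, L (u t))) = (f 0, L (u t)) := Ψ.right_inv (huT t).1
      have h2 : (Ψ (Ψ.symm (f 0, L (u t)))).1 = f (Ψ.symm (f 0, L (u t))) :=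
        hst.implicitToOpenPartialHomeomorph_fst hs _
      rw [← h2, h1]
    · exact mem_ball_zero_iff.1 (huT t).2

end Pool.Agent.H89.MOD
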