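import Mathlib
import Pool.Agent.H37.EtfSig
import Pool.Agent.H89.MOD.Surj

/-!
# The signature matrices of a solution
-/

namespace Pool.Agent.H89.MOD

open Finset Matrix Pool.Agent.H37.Etf

variable {F : Type} [Field F] [Fintype F]

/-- transform of a convolution -/
lemma ft_conv (ψ : AddChar F ℂ) (f f' : F → ℂ) (k : F) :
    ft ψ (fun y => ∑ z, f (y - z) * f' z) k = ft ψ f k * ft ψ f' k := by
  have h1 : ft ψ (fun y => ∑ z, f (y - z) * f' z) k =
      ∑ z, ∑ y, f (y - z) * f' z * ψ (k * y) := by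
    rw [ft, Finset.sum_comm]
    exact Finset.sum_congr rfl fun y _ => by rw [Finset.sum_mul]
  have h2 : ∀ z, ∑ y, f (y - z) * f' z * ψ (k * y) = ∑ y, f y * f' z * ψ (k * (y + z)) := by
    intro z
    rw [← Equiv.sum_comp (Equiv.addRight z)]
    refine Finset.sum_congr rfl fun y _ => ?_
    simp
  rw [h1, Finset.sum_congr rfl fun z _ => h2 z, Finset.sum_comm, ft, ft, Finset.sum_mul]
  refine Finset.sum_congr rfl fun y _ => ?_
  rw [Finset.mul_sum]
  refine Finset.sum_congr rfl fun z _ => ?_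
  rw [mul_add, AddChar.map_add_eq_mul]
  ring

variable [DecidableEq F]

/-- the signature matrix of a pair of functions -/
noncomputable def SM (a b : F → ℂ) : Matrix (F ⊕ F) (F ⊕ F) ℂ :=
  fromBlocks (circulant a) (circulant b) (circulant b)ᴴ (-circulant a)

omit [DecidableEq F] in
lemma conv_circ (f f' : F → ℂ) (i j : F) :
    (circulant f * circulant f') i j = ∑ z, f (i - j - z) * f' z := by
  rw [Matrix.mul_apply, ← Equiv.sum_comp (Equiv.addRight j)]
  refine Finset.sum_congr rfl fun z _ => ?_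
  simp only [circulant_apply, Equiv.coe_addRight, add_sub_cancel_right]
  congr 2
  ring

lemma sig_SM {ψ : AddChar F ℂ}
    (hψ : ∀ k, ∑ x, ψ (k * x) = if k = 0 then (Fintype.card F : ℂ) else 0) {a b : F → ℂ}
    (ha0 : a 0 = 0) (ha1 : ∀ x, x ≠ 0 → ‖a x‖ = 1) (han : ∀ x, a (-x) = (starRingEnd ℂ) (a x))
    (hb : ∀ x, ‖b x‖ = 1)
    (h : ∀ k, k ≠ 0 → ‖ft ψ a k‖ ^ 2 + ‖ft ψ b k‖ ^ 2 = 2 * (Fintype.card F : ℝ) - 1) :
    Sig (SM a b) := by
  have hBH : (circulant b)ᴴ = circulant (fun z => (starRingEnd ℂ) (b (-z))) := by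
    rw [conjTranspose_circulant]
    rfl
  -- the equation at `0`
  have hall : ∀ k, ‖ft ψ a k‖ ^ 2 + ‖ft ψ b k‖ ^ 2 = 2 * (Fintype.card F : ℝ) - 1 := by
    intro k
    by_cases hk : k = 0
    · subst hk
      have h1 := ft_parseval hψ a
      have h2 := ft_parseval hψ b
      have h3 : ∑ x, ‖a x‖ ^ 2 = (Fintype.card F : ℝ) - 1 := by
        rw [← Finset.add_sum_erase Finset.univ _ (Finset.mem_univ (0 : F)), ha0]
        have : ∑ x ∈ Finset.univ.erase (0 : F), ‖a x‖ ^ 2 = ∑ x ∈ Finset.univ.erase (0 : F), (1 : ℝ) := by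
          refine Finset.sum_congr rfl fun x hx => ?_
          rw [ha1 x (Finset.ne_of_mem_erase hx), one_pow]
        rw [this, Finset.sum_const, Finset.card_erase_of_mem (Finset.mem_univ _), Finset.card_univ,
          nsmul_eq_mul, mul_one, Nat.cast_sub Fintype.card_pos]
        simp
      have h4 : ∑ x, ‖b x‖ ^ 2 = (Fintype.card F : ℝ) := by
        rw [Finset.sum_congr rfl fun x _ => by rw [hb x, one_pow], Finset.sum_const,
          Finset.card_univ, nsmul_eq_mul, mul_one]
      rw [← Finset.add_sum_erase Finset.univ _ (Finset.mem_univ (0 : F)), h3] at h1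
      rw [← Finset.add_sum_erase Finset.univ _ (Finset.mem_univ (0 : F)), h4] at h2
      have h5 : ∑ x ∈ Finset.univ.erase (0 : F), (‖ft ψ a x‖ ^ 2 + ‖ft ψ b x‖ ^ 2) =
          ((Fintype.card F : ℝ) - 1) * (2 * (Fintype.card F : ℝ) - 1) := by
        rw [Finset.sum_congr rfl fun x hx => h x (Finset.ne_of_mem_erase hx), Finset.sum_const,
          Finset.card_erase_of_mem (Finset.mem_univ _), Finset.card_univ, nsmul_eq_mul,
          Nat.cast_sub Fintype.card_pos, Nat.cast_one]
      rw [Finset.sum_add_distrib] at h5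
      linear_combination h1 + h2 - h5
    · exact h k hk
  have hreal : ∀ k, (starRingEnd ℂ) (ft ψ a k) = ft ψ a k := by
    intro k
    rw [ft_conj, ft_neg]
    congr 1
    funext x
    rw [← han, neg_neg]
  have hns : ∀ z : ℂ, z * (starRingEnd ℂ) z = ((‖z‖ ^ 2 : ℝ) : ℂ) := by
    intro z
    rw [Complex.mul_conj, Complex.normSq_eq_norm_sq]
  set H : F → ℂ := fun y => (∑ z, a (y - z) * a z) +
    ∑ z, b (y - z) * (starRingEnd ℂ) (b (-z)) with hH
  have hHft : ∀ k, ft ψ H k = ((2 * (Fintype.card F : ℝ) - 1 : ℝ) : ℂ) := by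
    intro k
    have e1 : ft ψ H k = ft ψ (fun y => ∑ z, a (y - z) * a z) k +
        ft ψ (fun y => ∑ z, b (y - z) * (starRingEnd ℂ) (b (-z))) k := by
      rw [ft, ft, ft, ← Finset.sum_add_distrib]
      refine Finset.sum_congr rfl fun y _ => ?_
      rw [hH]
      ring
    rw [e1, ft_conv, ft_conv ψ b (fun z => (starRingEnd ℂ) (b (-z)))]
    have e2 : ft ψ (fun z => (starRingEnd ℂ) (b (-z))) k = (starRingEnd ℂ) (ft ψ b k) := by
      rw [ft_conj, ft_neg]
    have e3 : ft ψ a k * ft ψ a k = ft ψ a k * (starRingEnd ℂ) (ft ψ a k) := by rw [hreal]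
    rw [e2, e3, hns, hns, ← hall k]
    push_cast
    ring
  have hHval : ∀ y, H y = if y = 0 then ((2 * (Fintype.card F : ℂ)) - 1) else 0 := by
    intro y
    have h1 := ft_inv hψ H y
    have h2 : ∑ k, ft ψ H k * ψ (-(k * y)) =
        ((2 * (Fintype.card F : ℝ) - 1 : ℝ) : ℂ) * ∑ k, ψ ((-y) * k) := by
      rw [Finset.mul_sum]
      refine Finset.sum_congr rfl fun k _ => ?_
      rw [hHft]
      congr 2
      ring
    rw [h2, hψ] at h1
    have h4 : (Fintype.card F : ℂ) ≠ 0 := by
      exact_mod_cast Fintype.card_ne_zero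
    by_cases hy : y = 0
    · rw [if_pos (by rw [hy, neg_zero])] at h1
      rw [if_pos hy]
      have h5 : (Fintype.card F : ℂ) * H y = (Fintype.card F : ℂ) * (2 * (Fintype.card F : ℂ) - 1) := by
        rw [← h1]
        push_cast
        ring
      exact mul_left_cancel₀ h4 h5
    · rw [if_neg (neg_ne_zero.2 hy), mul_zero] at h1
      rw [if_neg hy]
      rcases mul_eq_zero.1 h1.symm with h5 | h5
      · exact absurd h5 h4
      · exact h5
  refine sig_block ?_ ?_ ?_ ?_ ?_ ?_ ?_
  · rw [IsHermitian, conjTranspose_circulant]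
    congr 1
    funext x
    show (starRingEnd ℂ) (a (-x)) = a x
    rw [← han, neg_neg]
  · intro i
    rw [circulant_apply, sub_self, ha0]
  · intro i j hij
    rw [circulant_apply]
    exact ha1 _ (sub_ne_zero.2 hij)
  · intro i j
    rw [circulant_apply]
    exact hb _
  · exact circulant_mul_comm a b
  · rw [hBH]
    exact circulant_mul_comm _ _
  · refine Matrix.ext fun i j => ?_
    rw [hBH, Matrix.add_apply, conv_circ, conv_circ]
    have h1 := hHval (i - j)
    simp only [hH] at h1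
    rw [h1, Matrix.smul_apply, smul_eq_mul]
    by_cases hij : i = j
    · subst hij
      rw [sub_self, if_pos rfl, one_apply_eq, mul_one]
    · rw [if_neg (sub_ne_zero.2 hij), one_apply_ne hij, mul_zero]

end Pool.Agent.H89.MOD
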