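import Mathlib
import Pool.Agent.H89.MOD.Mat

/-!
# Recovering the phases from the triple products
-/

namespace Pool.Agent.H89.MOD

open Finset Matrix Pool.Agent.H37.Etf

/-- triple product -/
def trip {ι : Type} (S : Matrix ι ι ℂ) (i j l : ι) : ℂ := S i j * S j l * S l i

lemma exp_cancel {z : ℂ} (hz : z ≠ 0) {s t : ℝ}
    (h : z * Complex.exp ((s : ℂ) * Complex.I) = z * Complex.exp ((t : ℂ) * Complex.I))
    (hst : |s - t| < 2 * Real.pi) : s = t := by
  have h1 := mul_left_cancel₀ hz h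
  rw [Complex.exp_eq_exp_iff_exists_int] at h1
  obtain ⟨n, hn⟩ := h1
  have h2 : (s : ℂ) = (t : ℂ) + n * (2 * Real.pi) := by
    have h3 : ((s : ℂ) - (t + n * (2 * Real.pi))) * Complex.I = 0 := by linear_combination hn
    rcases mul_eq_zero.1 h3 with h4 | h4
    · linear_combination h4
    · exact absurd h4 Complex.I_ne_zero
  have h3 : s = t + n * (2 * Real.pi) := by exact_mod_cast h2
  have hpi := Real.pi_pos
  have h4 : |(n : ℝ)| * (2 * Real.pi) < 2 * Real.pi := by
    have : s - t = n * (2 * Real.pi) := by linarith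
    rw [this, abs_mul, abs_of_pos (by positivity : (0 : ℝ) < 2 * Real.pi)] at hst
    exact hst
  have h5 : |(n : ℝ)| < 1 := by nlinarith
  have h6 : n = 0 := by
    rw [← Int.cast_abs] at h5
    have : |n| < 1 := by exact_mod_cast h5
    exact Int.abs_lt_one_iff.1 this
  rw [h3, h6]
  simp

variable {F : Type} [Field F] [Fintype F] [DecidableEq F]

lemma recover {ψ : AddChar F ℂ} {a0 b0 : F → ℂ} (hB : Base ψ a0 b0) {v w : VV F}
    (hv : ∀ x, |v.1.1 x| ≤ 1 / 2 ∧ |v.1.2 x| ≤ 1 / 2)
    (hw : ∀ x, |w.1.1 x| ≤ 1 / 2 ∧ |w.1.2 x| ≤ 1 / 2)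
    (h : ∀ i j l, trip (SM (ph a0 v.1.1) (ph b0 v.1.2)) i j l =
      trip (SM (ph a0 w.1.1) (ph b0 w.1.2)) i j l) : v = w := by
  have hpi := Real.pi_gt_three
  obtain ⟨hv1, hv2⟩ := mem_VV.1 v.2
  obtain ⟨hw1, hw2⟩ := mem_VV.1 w.2
  have ha : ∀ x, x ≠ 0 → a0 x ≠ 0 := by
    intro x hx h0
    have := hB.a_norm x hx
    rw [h0, norm_zero] at this
    exact zero_ne_one this
  have hb : ∀ x, b0 x ≠ 0 := by
    intro x h0
    have := hB.b_norm x
    rw [h0, norm_zero] at this
    exact zero_ne_one this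
  have hv0 : v.1.1 0 = 0 := by
    have := hv1 0
    rw [neg_zero] at this
    linarith
  have hw0 : w.1.1 0 = 0 := by
    have := hw1 0
    rw [neg_zero] at this
    linarith
  -- additivity of the difference
  have hadd0 : ∀ x y, x ≠ 0 → y ≠ 0 → x ≠ y →
      w.1.1 (x - y) - v.1.1 (x - y) = (w.1.1 x - v.1.1 x) - (w.1.1 y - v.1.1 y) := by
    intro x y hx hy hxy
    have h1 := h (Sum.inl 0) (Sum.inl x) (Sum.inl y)
    simp only [trip, SM, fromBlocks_apply₁₁, circulant_apply, zero_sub, sub_zero, ph] at h1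
    have e : ∀ u : F → ℝ, a0 (-x) * Complex.exp ((u (-x) : ℂ) * Complex.I) *
        (a0 (x - y) * Complex.exp ((u (x - y) : ℂ) * Complex.I)) *
        (a0 y * Complex.exp ((u y : ℂ) * Complex.I)) = (a0 (-x) * a0 (x - y) * a0 y) *
          Complex.exp (((u (-x) + u (x - y) + u y : ℝ) : ℂ) * Complex.I) := by
      intro u
      push_cast
      rw [add_mul, add_mul, Complex.exp_add, Complex.exp_add]
      ring
    rw [e, e] at h1
    have h2 := exp_cancel (mul_ne_zero (mul_ne_zero (ha _ (neg_ne_zero.2 hx))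
      (ha _ (sub_ne_zero.2 hxy))) (ha _ hy)) h1 (by
        have a1 := abs_le.1 (hv (-x)).1
        have a2 := abs_le.1 (hv (x - y)).1
        have a3 := abs_le.1 (hv y).1
        have a4 := abs_le.1 (hw (-x)).1
        have a5 := abs_le.1 (hw (x - y)).1
        have a6 := abs_le.1 (hw y).1
        rw [abs_lt]
        constructor <;> linarith [a1.1, a1.2, a2.1, a2.2, a3.1, a3.2, a4.1, a4.2, a5.1, a5.2,
          a6.1, a6.2])
    rw [hv1, hw1] at h2
    linarith
  have hadd : ∀ x y, w.1.1 (x - y) - v.1.1 (x - y) =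
      (w.1.1 x - v.1.1 x) - (w.1.1 y - v.1.1 y) := by
    intro x y
    by_cases hx : x = 0
    · subst hx
      rw [zero_sub, hw1, hv1, hv0, hw0]
      ring
    · by_cases hy : y = 0
      · subst hy
        rw [sub_zero, hv0, hw0]
        ring
      · by_cases hxy : x = y
        · subst hxy
          rw [sub_self, hv0, hw0]
          ring
        · exact hadd0 x y hx hy hxy
  have hα : ∀ x, w.1.1 x = v.1.1 x := by
    let φ : F →+ ℝ := AddMonoidHom.mk' (fun x => w.1.1 x - v.1.1 x) (by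
      intro x y
      have h1 := hadd x (-y)
      rw [sub_neg_eq_add, hw1, hv1] at h1
      linarith)
    intro x
    have h1 : φ (Fintype.card F • x) = Fintype.card F • φ x := map_nsmul φ _ x
    rw [card_nsmul_eq_zero, map_zero, nsmul_eq_mul] at h1
    have h2 : (Fintype.card F : ℝ) ≠ 0 := by exact_mod_cast Fintype.card_ne_zero
    rcases mul_eq_zero.1 h1.symm with h3 | h3
    · exact absurd h3 h2
    · have h4 : w.1.1 x - v.1.1 x = 0 := h3
      linarith
  have hβ : ∀ x, w.1.2 x = v.1.2 x := by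
    intro x
    by_cases hx : x = 0
    · rw [hx, hv2, hw2]
    · have h1 := h (Sum.inl 0) (Sum.inr (-x)) (Sum.inr 0)
      simp only [trip, SM, fromBlocks_apply₁₂, fromBlocks_apply₂₂, fromBlocks_apply₂₁,
        conjTranspose_apply, Matrix.neg_apply, circulant_apply, zero_sub, sub_zero, neg_neg, ph,
        sub_self] at h1
      rw [hα, hv2, hw2] at h1
      have h2 : (-(a0 (-x) * Complex.exp ((v.1.1 (-x) : ℂ) * Complex.I)) *
          star (b0 0 * Complex.exp (((0 : ℝ) : ℂ) * Complex.I)) * b0 x) *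
            Complex.exp ((v.1.2 x : ℂ) * Complex.I) =
          (-(a0 (-x) * Complex.exp ((v.1.1 (-x) : ℂ) * Complex.I)) *
          star (b0 0 * Complex.exp (((0 : ℝ) : ℂ) * Complex.I)) * b0 x) *
            Complex.exp ((w.1.2 x : ℂ) * Complex.I) := by
        linear_combination h1
      have h3 : (-(a0 (-x) * Complex.exp ((v.1.1 (-x) : ℂ) * Complex.I)) *
          star (b0 0 * Complex.exp (((0 : ℝ) : ℂ) * Complex.I)) * b0 x) ≠ 0 := by
        refine mul_ne_zero (mul_ne_zero (neg_ne_zero.2 (mul_ne_zero (ha _ (neg_ne_zero.2 hx))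
          (Complex.exp_ne_zero _))) ?_) (hb x)
        rw [Ne, star_eq_zero]
        exact mul_ne_zero (hb 0) (Complex.exp_ne_zero _)
      have h4 := exp_cancel h3 h2 (by
        have a1 := abs_le.1 (hv x).2
        have a2 := abs_le.1 (hw x).2
        rw [abs_lt]
        constructor <;> linarith [a1.1, a1.2, a2.1, a2.2])
      exact h4.symm
  apply Subtype.ext
  refine Prod.ext ?_ ?_
  · funext x
    exact (hα x).symm
  · funext x
    exact (hβ x).symm

end Pool.Agent.H89.MOD
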