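import Mathlib
import Pool.Agent.H89.MOD.Rec
import Pool.Agent.H89.MOD.Dim
import Pool.Agent.H89.MOD.Loc
import Pool.Agent.H89.MOD.BaseQ

/-!
# The continuous families for prime powers
-/

namespace Pool.Agent.H89.MOD

open Finset Matrix Module Pool.Agent.H37.Etf

/-- there is a continuous family with `d` real parameters of signature matrices of order `N`,
and the triple products determine the parameter -/
def FamEx (N d : ℕ) : Prop :=
  ∃ (ι : Type) (_ : Fintype ι) (_ : DecidableEq ι) (S : (Fin d → ℝ) → Matrix ι ι ℂ),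
    Fintype.card ι = N ∧ Continuous S ∧ (∀ t, Sig (S t)) ∧
      ∀ s t, (∀ i j l, trip (S s) i j l = trip (S t) i j l) → s = t

variable {F : Type} [Field F] [Fintype F] [DecidableEq F]

omit [Field F] [Fintype F] [DecidableEq F] in
lemma continuous_ph (u : F → ℂ) {X : Type*} [TopologicalSpace X] {θ : X → F → ℝ}
    (hθ : Continuous θ) : Continuous (fun t => ph u (θ t)) := by
  refine continuous_pi fun x => ?_
  unfold ph
  have h1 : Continuous (fun t => θ t x) := (continuous_apply x).comp hθ
  exact continuous_const.mul (Complex.continuous_exp.comp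
    ((Complex.continuous_ofReal.comp h1).mul continuous_const))

omit [Fintype F] [DecidableEq F] in
lemma continuous_SM {X : Type*} [TopologicalSpace X] {a b : X → F → ℂ} (ha : Continuous a)
    (hb : Continuous b) : Continuous (fun t => SM (a t) (b t)) := by
  have hA : Continuous (fun t => circulant (a t)) := by
    refine continuous_matrix fun i j => ?_
    simp only [circulant_apply]
    exact (continuous_apply _).comp ha
  have hB : Continuous (fun t => circulant (b t)) := by
    refine continuous_matrix fun i j => ?_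
    simp only [circulant_apply]
    exact (continuous_apply _).comp hb
  exact hA.matrix_fromBlocks hB hB.matrix_conjTranspose hA.neg

lemma famEx_field (hF : ringChar F ≠ 2) (hq : 3 ≤ Fintype.card F) :
    FamEx (2 * Fintype.card F) ((Fintype.card F - 1) / 2) := by
  obtain ⟨ψ, a0, b0, hB⟩ := exists_base hF hq
  have hneg : ∀ x : F, x ≠ 0 → -x ≠ x := by
    intro x hx h
    exact hx ((Ring.eq_self_iff_eq_zero_of_char_ne_two hF).1 h)
  obtain ⟨Φ, hΦ, hΦi, hΦf⟩ := exists_local (contDiff_fm ψ a0 b0) (surj hB hneg)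
    (finrank_VV hneg) (δ := 1 / 2) (by norm_num)
  have h0 : ∀ k, fm ψ a0 b0 0 k = 2 * (Fintype.card F : ℝ) - 1 := by
    intro k
    have h1 := hB.eq k k.2
    show ‖ft ψ (ph a0 0) k‖ ^ 2 + ‖ft ψ (ph b0 0) k‖ ^ 2 = _
    rw [ph_zero, ph_zero]
    exact h1
  have hsmall : ∀ t x, |(Φ t).1.1 x| ≤ 1 / 2 ∧ |(Φ t).1.2 x| ≤ 1 / 2 := by
    intro t x
    have h1 := (hΦf t).2.le
    have h2 : ‖(Φ t).1.1‖ ≤ ‖(Φ t).1‖ := norm_fst_le _
    have h3 : ‖(Φ t).1.2‖ ≤ ‖(Φ t).1‖ := norm_snd_le _
    have h4 := norm_le_pi_norm (Φ t).1.1 x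
    have h5 := norm_le_pi_norm (Φ t).1.2 x
    have h6 : ‖Φ t‖ = ‖(Φ t).1‖ := rfl
    rw [Real.norm_eq_abs] at h4 h5
    rw [h6] at h1
    exact ⟨h4.trans (h2.trans h1), h5.trans (h3.trans h1)⟩
  have hc1 : Continuous (fun t => (Φ t).1.1) := continuous_fst.comp (continuous_subtype_val.comp hΦ)
  have hc2 : Continuous (fun t => (Φ t).1.2) := continuous_snd.comp (continuous_subtype_val.comp hΦ)
  refine ⟨F ⊕ F, inferInstance, inferInstance, fun t => SM (ph a0 (Φ t).1.1) (ph b0 (Φ t).1.2),
    ?_, ?_, ?_, ?_⟩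
  · rw [Fintype.card_sum]
    ring
  · exact continuous_SM (continuous_ph a0 hc1) (continuous_ph b0 hc2)
  · intro t
    obtain ⟨h1, h2⟩ := mem_VV.1 (Φ t).2
    refine sig_SM hB.char_sum ?_ ?_ ?_ ?_ ?_
    · rw [ph, hB.a_zero, zero_mul]
    · intro x hx
      rw [ph_norm, hB.a_norm x hx]
    · intro x
      rw [ph, ph, hB.a_neg, h1, map_mul, ← Complex.exp_conj, map_mul, Complex.conj_I,
        Complex.conj_ofReal]
      congr 2
      push_cast
      ring
    · intro x
      rw [ph_norm, hB.b_norm]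
    · intro k hk
      have h3 := congrFun (hΦf t).1 ⟨k, hk⟩
      rw [h0] at h3
      exact h3
  · intro s t hst
    exact hΦi (recover hB (hsmall s) (hsmall t) hst)

lemma famEx_primePow {q : ℕ} (hq : IsPrimePow q) (hodd : Odd q) : FamEx (2 * q) ((q - 1) / 2) := by
  obtain ⟨p, n, hp, hn, rfl⟩ := (isPrimePow_nat_iff _).1 hq
  have : Fact p.Prime := ⟨hp⟩
  let _ : Fintype (GaloisField p n) := Fintype.ofFinite _
  classical
  have hc : Fintype.card (GaloisField p n) = p ^ n := by
    rw [← Nat.card_eq_fintype_card, GaloisField.card p n hn.ne']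
  have hp2 : p ≠ 2 := by
    rintro rfl
    exact (Nat.not_odd_iff_even.2 (Nat.even_pow.2 ⟨even_two, hn.ne'⟩)) hodd
  have hch : ringChar (GaloisField p n) ≠ 2 := by
    rw [ringChar.eq (GaloisField p n) p]
    exact hp2
  have h3 : 3 ≤ Fintype.card (GaloisField p n) := by
    rw [hc]
    have h1 : p ≤ p ^ n := Nat.le_self_pow hn.ne' p
    have h2 := hp.two_le
    omega
  have := famEx_field hch h3
  rwa [hc] at this

end Pool.Agent.H89.MOD
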