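import Mathlib
import Pool.Agent.H37.EtfSig

/-!
# Continuous families of frames with given continuous signature matrices
-/

namespace Pool.Agent.H89.MOD

open Finset Matrix Module Pool.Agent.H37.Etf InnerProductSpace
open scoped InnerProductSpace

section gs

variable {E : Type*} [NormedAddCommGroup E] [InnerProductSpace ℂ E]

lemma continuousOn_gs {X : Type*} [TopologicalSpace X] {M : ℕ} {w : X → Fin M → E} {U : Set X}
    (hw : ContinuousOn w U) (hl : ∀ x ∈ U, LinearIndependent ℂ (w x)) (n : ℕ) :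
    ∀ i : Fin M, i.1 = n → ContinuousOn (fun x => gramSchmidt ℂ (w x) i) U := by
  induction n using Nat.strong_induction_on with
  | _ n ih =>
    intro i hi
    have h1 : (fun x => gramSchmidt ℂ (w x) i) = fun x => w x i - ∑ j ∈ Finset.Iio i,
        (⟪gramSchmidt ℂ (w x) j, w x i⟫_ℂ / ((‖gramSchmidt ℂ (w x) j‖ : ℂ)) ^ 2) •
          gramSchmidt ℂ (w x) j := by
      funext x
      have := gramSchmidt_def'' ℂ (w x) i
      exact eq_sub_of_add_eq this.symm
    rw [h1]
    have hwi : ContinuousOn (fun x => w x i) U := (continuous_apply i).comp_continuousOn hw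
    refine hwi.sub (continuousOn_finsetSum _ fun j hj => ?_)
    have hji : j.1 < n := by
      rw [← hi]
      have hlt : j < i := Finset.mem_Iio.1 hj
      exact hlt
    have hj' := ih j.1 hji j rfl
    refine ContinuousOn.smul ?_ hj'
    refine ContinuousOn.div (hj'.inner hwi) ?_ ?_
    · exact (Complex.continuous_ofReal.comp_continuousOn hj'.norm).pow 2
    · intro x hx
      have := gramSchmidt_ne_zero (𝕜 := ℂ) j (hl x hx)
      have h2 : ‖gramSchmidt ℂ (w x) j‖ ≠ 0 := norm_ne_zero_iff.2 this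
      exact pow_ne_zero 2 (by exact_mod_cast h2)

lemma continuousOn_gsn {X : Type*} [TopologicalSpace X] {M : ℕ} {w : X → Fin M → E} {U : Set X}
    (hw : ContinuousOn w U) (hl : ∀ x ∈ U, LinearIndependent ℂ (w x)) (i : Fin M) :
    ContinuousOn (fun x => gramSchmidtNormed ℂ (w x) i) U := by
  have h1 := continuousOn_gs hw hl i.1 i rfl
  unfold gramSchmidtNormed
  refine ContinuousOn.smul (ContinuousOn.inv₀ ?_ ?_) h1
  · exact Complex.continuous_ofReal.comp_continuousOn h1.norm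
  · intro x hx
    have := gramSchmidt_ne_zero (𝕜 := ℂ) i (hl x hx)
    have h2 : ‖gramSchmidt ℂ (w x) i‖ ≠ 0 := norm_ne_zero_iff.2 this
    exact RCLike.ofReal_ne_zero.2 h2

end gs

variable {ι : Type} [Fintype ι] [DecidableEq ι]

/-- from a Gram matrix to a frame -/
lemma isETF_of_gram {S : Matrix ι ι ℂ} (hS : Sig S) {M : ℕ} (hM : 1 ≤ M)
    {f : ι → EuclideanSpace ℂ (Fin M)}
    (hf : ∀ i j, ⟪f i, f j⟫_ℂ = (1 : Matrix ι ι ℂ) i j + S i j / ((√(2 * M - 1) : ℝ) : ℂ))
    (ht : ∀ x, ∑ i, ‖⟪x, f i⟫_ℂ‖ ^ 2 = 2 * ‖x‖ ^ 2) (e : Fin (2 * M) ≃ ι) :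
    IsETF (fun i => f (e i)) ∧
      ∀ i j, i ≠ j → ⟪f (e i), f (e j)⟫_ℂ = S (e i) (e j) / ((√(2 * M - 1) : ℝ) : ℂ) := by
  have hM' : (1 : ℝ) ≤ M := by exact_mod_cast hM
  have hpos : 0 < √(2 * M - 1 : ℝ) := Real.sqrt_pos.2 (by linarith)
  have hinj : ∀ i j, i ≠ j → e i ≠ e j := fun i j h h' => h (e.injective h')
  have hoff : ∀ i j, i ≠ j → ⟪f (e i), f (e j)⟫_ℂ = S (e i) (e j) / ((√(2 * M - 1) : ℝ) : ℂ) := by
    intro i j hij
    rw [hf, Matrix.one_apply_ne (hinj i j hij), zero_add]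
  have htight : ∀ x, ∑ i, ‖⟪x, f (e i)⟫_ℂ‖ ^ 2 = 2 * ‖x‖ ^ 2 := by
    intro x
    rw [← ht x]
    exact Equiv.sum_comp e (fun i => ‖⟪x, f i⟫_ℂ‖ ^ 2)
  refine ⟨⟨?_, ?_, ?_, ?_⟩, hoff⟩
  · rw [← Submodule.orthogonal_eq_bot_iff, Submodule.eq_bot_iff]
    intro x hx
    have h0 : ∀ i, ⟪x, f (e i)⟫_ℂ = 0 := by
      intro i
      rw [Submodule.mem_orthogonal'] at hx
      exact hx _ (Submodule.subset_span ⟨i, rfl⟩)
    have h1 := htight x
    simp only [h0, norm_zero, ne_eq, OfNat.ofNat_ne_zero, not_false_eq_true, zero_pow,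
      Finset.sum_const_zero] at h1
    have h2 : ‖x‖ ^ 2 = 0 := by linarith
    exact norm_eq_zero.1 (pow_eq_zero_iff (two_ne_zero) |>.1 h2)
  · intro i
    have h1 : ⟪f (e i), f (e i)⟫_ℂ = 1 := by
      rw [hf, hS.diag, Matrix.one_apply_eq]; simp
    have h2 : ((‖f (e i)‖ : ℂ)) ^ 2 = 1 := by
      rw [← h1, inner_self_eq_norm_sq_to_K]; rfl
    have h3 : ‖f (e i)‖ ^ 2 = 1 := by exact_mod_cast h2
    have h4 := norm_nonneg (f (e i))
    nlinarith
  · exact ⟨2, by norm_num, htight⟩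
  · refine ⟨1 / √(2 * M - 1), fun i j hij => ?_⟩
    rw [hoff i j hij, norm_div, hS.off _ _ (hinj i j hij), Complex.norm_real, Real.norm_eq_abs,
      abs_of_pos hpos]

/-- the projection -/
noncomputable def prj (M : ℕ) (S : Matrix ι ι ℂ) : Matrix ι ι ℂ :=
  (1 / 2 : ℂ) • (1 + (((√(2 * M - 1) : ℝ) : ℂ))⁻¹ • S)

/-- the linear map -/
noncomputable def prl (M : ℕ) (S : Matrix ι ι ℂ) : EuclideanSpace ℂ ι →ₗ[ℂ] EuclideanSpace ℂ ι :=
  Matrix.toEuclideanLin (prj M S)

lemma prj_facts {S : Matrix ι ι ℂ} (hS : Sig S) {M : ℕ} (hM : 1 ≤ M)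
    (hcard : Fintype.card ι = 2 * M) :
    (prl M S).IsSymmetric ∧ (∀ x, prl M S (prl M S x) = prl M S x) ∧
      finrank ℂ (LinearMap.range (prl M S)) = M := by
  have hM' : (1 : ℝ) ≤ M := by exact_mod_cast hM
  set r : ℝ := √(2 * M - 1) with hrd
  have hr : r ^ 2 = 2 * M - 1 := Real.sq_sqrt (by linarith)
  have hr0 : r ≠ 0 := by
    intro h
    rw [h] at hr
    nlinarith
  have hrC : (r : ℂ) ≠ 0 := by exact_mod_cast hr0
  have hsq := hS.sq
  rw [hcard] at hsq
  set P : Matrix ι ι ℂ := (1 / 2 : ℂ) • (1 + (r : ℂ)⁻¹ • S) with hP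
  have hPP : P * P = P := by
    rw [hP]
    simp only [mul_add, add_mul, one_mul, mul_one, smul_mul_assoc,
      mul_smul_comm, hsq]
    have h2 : ((2 * M : ℕ) : ℂ) - 1 = (r : ℂ) ^ 2 := by
      have : ((2 * M - 1 : ℝ) : ℂ) = ((r ^ 2 : ℝ) : ℂ) := by rw [hr]
      push_cast at this ⊢
      exact this
    rw [h2]
    ext i j
    simp only [Matrix.smul_apply, Matrix.add_apply, smul_eq_mul]
    field_simp
    ring
  have hPH : P.conjTranspose = P := by
    rw [hP, conjTranspose_smul, conjTranspose_add, conjTranspose_one, conjTranspose_smul]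
    have : S.conjTranspose = S := hS.herm
    rw [this]
    simp
  have htr : P.trace = (M : ℂ) := by
    rw [hP, trace_smul, trace_add, trace_one, trace_smul, hcard]
    have : S.trace = 0 := by
      rw [Matrix.trace]
      exact Finset.sum_eq_zero (fun i _ => hS.diag i)
    rw [this]
    simp
  set p := Matrix.toEuclideanLin P with hp
  have hpp : ∀ x, p (p x) = p x := by
    intro x
    have h1 : (WithLp.toLp 2 (P *ᵥ (P *ᵥ x.ofLp)) : EuclideanSpace ℂ ι) =
        WithLp.toLp 2 (P *ᵥ x.ofLp) := by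
      rw [Matrix.mulVec_mulVec, hPP]
    exact h1
  have hsym : p.IsSymmetric := Matrix.isSymmetric_toEuclideanLin_iff.2 hPH
  have hproj : LinearMap.IsProj (LinearMap.range p) p := by
    constructor
    · intro x; exact LinearMap.mem_range_self p x
    · rintro x ⟨y, rfl⟩
      exact hpp y
  have hfin : Module.finrank ℂ (LinearMap.range p) = M := by
    have h1 := hproj.trace
    have h2 : LinearMap.trace ℂ (EuclideanSpace ℂ ι) p = P.trace := by
      rw [hp, Matrix.toEuclideanLin_eq_toLin_orthonormal, Matrix.trace_toLin_eq]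
    rw [h2, htr] at h1
    exact_mod_cast h1.symm
  exact ⟨hsym, hpp, hfin⟩

/-- the frame obtained from an orthonormal family -/
noncomputable def frm (M : ℕ) (S : Matrix ι ι ℂ) (e : Fin M → EuclideanSpace ℂ ι) (j : ι) :
    EuclideanSpace ℂ (Fin M) :=
  WithLp.toLp 2 fun i => ((√2 : ℝ) : ℂ) * ⟪e i, prl M S (EuclideanSpace.single j 1)⟫_ℂ

lemma frm_facts {S : Matrix ι ι ℂ} (hS : Sig S) {M : ℕ} (hM : 1 ≤ M)
    (hcard : Fintype.card ι = 2 * M) {e : Fin M → EuclideanSpace ℂ ι} (he : Orthonormal ℂ e)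
    (hp : ∀ i, prl M S (e i) = e i) :
    (∀ i j, ⟪frm M S e i, frm M S e j⟫_ℂ =
      (1 : Matrix ι ι ℂ) i j + S i j / ((√(2 * M - 1) : ℝ) : ℂ)) ∧
      ∀ x, ∑ i, ‖⟪x, frm M S e i⟫_ℂ‖ ^ 2 = 2 * ‖x‖ ^ 2 := by
  obtain ⟨hsym, hpp, hfin⟩ := prj_facts hS hM hcard
  set p := prl M S with hpd
  let e' : Fin M → LinearMap.range p := fun i => ⟨e i, ⟨e i, hp i⟩⟩
  have he' : Orthonormal ℂ e' := by
    refine ⟨fun i => ?_, fun i j hij => ?_⟩
    · exact he.1 i
    · exact he.2 hij
  have hspan : ⊤ ≤ Submodule.span ℂ (Set.range e') := by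
    rw [he'.linearIndependent.span_eq_top_of_card_eq_finrank' (by rw [Fintype.card_fin, hfin])]
  let b := OrthonormalBasis.mk he' hspan
  let φ := b.repr
  have hbi : ∀ i, b i = e' i := fun i => by
    show (OrthonormalBasis.mk he' hspan) i = e' i
    rw [OrthonormalBasis.coe_mk]
  let g : ι → LinearMap.range p := fun i => ⟨p (EuclideanSpace.single i 1), LinearMap.mem_range_self p _⟩
  have hfrm : ∀ j, frm M S e j = ((√2 : ℝ) : ℂ) • φ (g j) := by
    intro j
    ext i
    rw [PiLp.smul_apply, smul_eq_mul]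
    show ((√2 : ℝ) : ℂ) * ⟪e i, p (EuclideanSpace.single j 1)⟫_ℂ = ((√2 : ℝ) : ℂ) * (b.repr (g j)) i
    rw [b.repr_apply_apply, hbi]
    rfl
  have hproj : LinearMap.IsProj (LinearMap.range p) p := by
    constructor
    · intro x; exact LinearMap.mem_range_self p x
    · rintro x ⟨y, rfl⟩
      exact hpp y
  have hpx : ∀ x : EuclideanSpace ℂ ι, ∀ i, p x i = ∑ j, prj M S i j * x j := by
    intro x i
    rfl
  refine ⟨fun i j => ?_, fun x => ?_⟩
  · rw [hfrm, hfrm, inner_smul_left, inner_smul_right, LinearIsometryEquiv.inner_map_map]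
    have h1 : ⟪g i, g j⟫_ℂ = prj M S i j := by
      show ⟪p (EuclideanSpace.single i 1), p (EuclideanSpace.single j 1)⟫_ℂ = prj M S i j
      rw [hsym, hpp, EuclideanSpace.inner_single_left, hpx]
      simp
    rw [h1, Complex.conj_ofReal, ← mul_assoc, ← Complex.ofReal_mul, Real.mul_self_sqrt (by norm_num)]
    rw [prj]
    simp only [Matrix.smul_apply, Matrix.add_apply, smul_eq_mul]
    push_cast
    field_simp
  · obtain ⟨v, rfl⟩ := φ.surjective x
    have h1 : ∀ i, ‖⟪φ v, frm M S e i⟫_ℂ‖ ^ 2 = 2 * ‖(v : EuclideanSpace ℂ ι) i‖ ^ 2 := by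
      intro i
      rw [hfrm, inner_smul_right, LinearIsometryEquiv.inner_map_map]
      have h2 : ⟪v, g i⟫_ℂ = (starRingEnd ℂ) ((v : EuclideanSpace ℂ ι) i) := by
        show ⟪(v : EuclideanSpace ℂ ι), p (EuclideanSpace.single i 1)⟫_ℂ = _
        rw [← hsym, hproj.map_id _ v.2, EuclideanSpace.inner_single_right]
        simp
      rw [h2, norm_mul, mul_pow, Complex.norm_real, Real.norm_eq_abs, sq_abs, Real.sq_sqrt (by norm_num)]
      simp
    rw [Finset.sum_congr rfl (fun i _ => h1 i), ← Finset.mul_sum, LinearIsometryEquiv.norm_map]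
    congr 1
    rw [← Submodule.norm_coe, EuclideanSpace.norm_sq_eq]

lemma continuous_prl {X : Type*} [TopologicalSpace X] {M : ℕ} {S : X → Matrix ι ι ℂ}
    (hS : Continuous S) (v : EuclideanSpace ℂ ι) : Continuous (fun x => prl M (S x) v) := by
  have h1 : Continuous (fun x => prj M (S x)) := by
    refine continuous_matrix fun i j => ?_
    simp only [prj, Matrix.smul_apply, Matrix.add_apply, smul_eq_mul]
    exact continuous_const.mul (continuous_const.add (continuous_const.mul (hS.matrix_elem i j)))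
  have h2 : Continuous (fun x => prj M (S x) *ᵥ v.ofLp) := h1.matrix_mulVec continuous_const
  exact (PiLp.continuous_toLp 2 _).comp h2

lemma exists_frames {X : Type*} [TopologicalSpace X] {M : ℕ} (hM : 1 ≤ M)
    (hcard : Fintype.card ι = 2 * M) {S : X → Matrix ι ι ℂ} (hc : Continuous S)
    (hS : ∀ x, Sig (S x)) (x0 : X) :
    ∃ (U : Set X), IsOpen U ∧ x0 ∈ U ∧ ∃ (e : Fin (2 * M) ≃ ι)
      (f : X → Fin (2 * M) → EuclideanSpace ℂ (Fin M)), ContinuousOn f U ∧ ∀ x ∈ U,
        IsETF (f x) ∧ ∀ i j, i ≠ j → ⟪f x i, f x j⟫_ℂ =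
          S x (e i) (e j) / ((√(2 * M - 1) : ℝ) : ℂ) := by
  obtain ⟨hsym0, hpp0, hfin0⟩ := prj_facts (hS x0) hM hcard
  let b0 := (stdOrthonormalBasis ℂ (LinearMap.range (prl M (S x0)))).reindex (finCongr hfin0)
  set u : Fin M → EuclideanSpace ℂ ι := fun i => (b0 i : EuclideanSpace ℂ ι) with hu
  have hu0 : ∀ i, prl M (S x0) (u i) = u i := by
    intro i
    obtain ⟨y, hy⟩ := (b0 i).2
    rw [hu]
    simp only
    rw [← hy, hpp0]
  have huo : Orthonormal ℂ u := by
    have := b0.orthonormal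
    refine ⟨fun i => this.1 i, fun i j hij => this.2 hij⟩
  set w : X → Fin M → EuclideanSpace ℂ ι := fun x i => prl M (S x) (u i) with hw
  have hwc : Continuous w := continuous_pi fun i => continuous_prl hc (u i)
  set U : Set X := w ⁻¹' {f | LinearIndependent ℂ f} with hU
  have hUo : IsOpen U := isOpen_setOfPred_linearIndependent.preimage hwc
  have hx0 : x0 ∈ U := by
    show LinearIndependent ℂ (w x0)
    have : w x0 = u := funext hu0
    rw [this]
    exact huo.linearIndependent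
  set en : X → Fin M → EuclideanSpace ℂ ι := fun x => gramSchmidtNormed ℂ (w x) with hen
  have hli : ∀ x ∈ U, LinearIndependent ℂ (w x) := fun x hx => hx
  have heno : ∀ x ∈ U, Orthonormal ℂ (en x) := fun x hx => gramSchmidtNormed_orthonormal (hli x hx)
  have henp : ∀ x i, prl M (S x) (en x i) = en x i := by
    intro x i
    obtain ⟨_, hpp, _⟩ := prj_facts (hS x) hM hcard
    have h1 : gramSchmidt ℂ (w x) i ∈ LinearMap.range (prl M (S x)) := by
      refine (Submodule.span_le.2 ?_) (gramSchmidt_mem_span ℂ (w x) (le_refl i))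
      rintro _ ⟨j, _, rfl⟩
      exact ⟨u j, rfl⟩
    obtain ⟨y, hy⟩ := h1
    rw [hen]
    simp only [gramSchmidtNormed]
    rw [map_smul, ← hy, hpp]
  have e : Fin (2 * M) ≃ ι := (finCongr hcard.symm).trans (Fintype.equivFin ι).symm
  refine ⟨U, hUo, hx0, e, fun x i => frm M (S x) (en x) (e i), ?_, fun x hx => ?_⟩
  · refine continuousOn_pi.2 fun j => ?_
    unfold frm
    refine (PiLp.continuous_toLp 2 _).comp_continuousOn (continuousOn_pi.2 fun i => ?_)
    refine continuousOn_const.mul (ContinuousOn.inner ?_ ?_)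
    · exact continuousOn_gsn hwc.continuousOn hli i
    · exact (continuous_prl hc _).continuousOn
  · obtain ⟨h1, h2⟩ := frm_facts (hS x) hM hcard (heno x hx) (henp x)
    exact isETF_of_gram (hS x) hM h1 h2 e

end Pool.Agent.H89.MOD
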