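import Mathlib
import Pool.Agent.H89.MOD.Fam
import Pool.Agent.H89.MOD.Frames

/-!
# Pairwise inequivalence
-/

namespace Pool.Agent.H89.MOD

open Finset Matrix Module Pool.Agent.H37.Etf
open scoped InnerProductSpace

lemma continuous_trip {X : Type*} [TopologicalSpace X] {ι : Type} {S : X → Matrix ι ι ℂ}
    (hc : Continuous S) (i j l : ι) : Continuous (fun t => trip (S t) i j l) :=
  ((hc.matrix_elem i j).mul (hc.matrix_elem j l)).mul (hc.matrix_elem l i)

/-- on a small open set no permutation relates two different parameters -/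
lemma exists_perm_free {X : Type*} [TopologicalSpace X] [Nonempty X] {ι : Type}
    {S : X → Matrix ι ι ℂ} (hc : Continuous S)
    (hinj : ∀ s t, (∀ i j l, trip (S s) i j l = trip (S t) i j l) → s = t)
    (A : Finset (Equiv.Perm ι)) :
    ∃ W : Set X, IsOpen W ∧ W.Nonempty ∧ ∀ σ ∈ A, ∀ s ∈ W, ∀ t ∈ W,
      (∀ i j l, trip (S s) (σ i) (σ j) (σ l) = trip (S t) i j l) → s = t := by
  classical
  induction A using Finset.induction_on with
  | empty =>
    exact ⟨Set.univ, isOpen_univ, Set.univ_nonempty, fun σ hσ => absurd hσ (Finset.notMem_empty σ)⟩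
  | insert σ A _ ih =>
    obtain ⟨W, hW, hWn, hWA⟩ := ih
    by_cases h : ∀ t ∈ W, ∀ i j l, trip (S t) (σ i) (σ j) (σ l) = trip (S t) i j l
    · refine ⟨W, hW, hWn, fun τ hτ s hs t ht hst => ?_⟩
      rcases Finset.mem_insert.1 hτ with rfl | hτ
      · exact hinj s t fun i j l => by rw [← h s hs i j l, hst]
      · exact hWA τ hτ s hs t ht hst
    · push Not at h
      obtain ⟨t0, ht0, i, j, l, hne⟩ := h
      obtain ⟨O1, O2, hO1, hO2, h1, h2, h12⟩ := t2_separation hne
      set W' : Set X := W ∩ ((fun t => trip (S t) (σ i) (σ j) (σ l)) ⁻¹' O1 ∩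
        (fun t => trip (S t) i j l) ⁻¹' O2) with hW'
      refine ⟨W', hW.inter ((hO1.preimage (continuous_trip hc _ _ _)).inter
        (hO2.preimage (continuous_trip hc _ _ _))), ⟨t0, ht0, h1, h2⟩, fun τ hτ s hs t ht hst => ?_⟩
      rcases Finset.mem_insert.1 hτ with rfl | hτ
      · exfalso
        have a1 : trip (S s) (τ i) (τ j) (τ l) ∈ O1 := hs.2.1
        have a2 : trip (S t) i j l ∈ O2 := ht.2.2
        rw [hst i j l] at a1
        exact Set.disjoint_left.1 h12 a1 a2
      · exact hWA τ hτ s hs.1 t ht.1 hst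

lemma trip_zero {ι : Type} {S : Matrix ι ι ℂ} (hd : ∀ i, S i i = 0) {i j l : ι}
    (h : i = j ∨ j = l ∨ l = i) : trip S i j l = 0 := by
  unfold trip
  rcases h with h | h | h
  · rw [h, hd]
    ring
  · rw [h, hd]
    ring
  · rw [h, hd]
    ring

/-- equivalent frames have the same triple products up to a permutation -/
lemma trip_of_equivalent {ι : Type} {M : ℕ} (hM : 1 ≤ M) {S T : Matrix ι ι ℂ}
    (hS : ∀ i, S i i = 0) (hT : ∀ i, T i i = 0) (e : Fin (2 * M) ≃ ι)
    {f g : Fin (2 * M) → EuclideanSpace ℂ (Fin M)}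
    (hf : ∀ i j, i ≠ j → ⟪f i, f j⟫_ℂ = S (e i) (e j) / ((√(2 * M - 1) : ℝ) : ℂ))
    (hg : ∀ i j, i ≠ j → ⟪g i, g j⟫_ℂ = T (e i) (e j) / ((√(2 * M - 1) : ℝ) : ℂ))
    (h : Equivalent f g) :
    ∃ σ : Equiv.Perm ι, ∀ i j l, trip S (σ i) (σ j) (σ l) = trip T i j l := by
  obtain ⟨V, σ, c, hc, hgf⟩ := h
  have hM' : (1 : ℝ) ≤ M := by exact_mod_cast hM
  have hpos : 0 < √(2 * M - 1 : ℝ) := Real.sqrt_pos.2 (by linarith)
  set r : ℂ := ((√(2 * M - 1) : ℝ) : ℂ) with hr
  have hr0 : r ≠ 0 := by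
    rw [hr]
    exact_mod_cast hpos.ne'
  have hcc : ∀ i, (starRingEnd ℂ) (c i) * c i = 1 := by
    intro i
    rw [mul_comm, Complex.mul_conj, Complex.normSq_eq_norm_sq, hc i]
    norm_num
  have hgi : ∀ i j, ⟪g i, g j⟫_ℂ = (starRingEnd ℂ) (c i) * c j * ⟪f (σ i), f (σ j)⟫_ℂ := by
    intro i j
    rw [hgf, hgf, inner_smul_left, inner_smul_right, LinearIsometryEquiv.inner_map_map]
    ring
  -- entries
  have hent : ∀ i j, i ≠ j → T (e i) (e j) =
      (starRingEnd ℂ) (c i) * c j * S (e (σ i)) (e (σ j)) := by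
    intro i j hij
    have h1 := hg i j hij
    rw [hgi, hf _ _ (fun h => hij (σ.injective h))] at h1
    have h2 : T (e i) (e j) / r = ((starRingEnd ℂ) (c i) * c j * S (e (σ i)) (e (σ j))) / r := by
      rw [← h1]
      ring
    field_simp at h2
    exact h2
  refine ⟨(e.symm.trans σ).trans e, fun i j l => ?_⟩
  have hval : ∀ i, ((e.symm.trans σ).trans e) i = e (σ (e.symm i)) := fun i => rfl
  rw [hval, hval, hval]
  by_cases hd : i = j ∨ j = l ∨ l = i
  · rw [trip_zero hT hd, trip_zero hS]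
    rcases hd with hd | hd | hd
    · left; rw [hd]
    · right; left; rw [hd]
    · right; right; rw [hd]
  · push Not at hd
    obtain ⟨h1, h2, h3⟩ := hd
    have e1 := hent (e.symm i) (e.symm j) (fun h => h1 (e.symm.injective h))
    have e2 := hent (e.symm j) (e.symm l) (fun h => h2 (e.symm.injective h))
    have e3 := hent (e.symm l) (e.symm i) (fun h => h3 (e.symm.injective h))
    rw [Equiv.apply_symm_apply, Equiv.apply_symm_apply] at e1 e2 e3
    unfold trip
    rw [e1, e2, e3]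
    have c1 := hcc (e.symm i)
    have c2 := hcc (e.symm j)
    have c3 := hcc (e.symm l)
    set P := S (e (σ (e.symm i))) (e (σ (e.symm j))) *
      S (e (σ (e.symm j))) (e (σ (e.symm l))) * S (e (σ (e.symm l))) (e (σ (e.symm i))) with hP
    linear_combination (-P * ((starRingEnd ℂ) (c (e.symm j)) * c (e.symm j)) *
      ((starRingEnd ℂ) (c (e.symm l)) * c (e.symm l))) * c1 -
        P * ((starRingEnd ℂ) (c (e.symm l)) * c (e.symm l)) * c2 - P * c3

/-- from families of signature matrices to families of frames -/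
lemma FamEx.frames {M d : ℕ} (hM : 1 ≤ M) (h : FamEx (2 * M) d) :
    ∃ f : (Fin d → ℝ) → Fin (2 * M) → EuclideanSpace ℂ (Fin M), Continuous f ∧
      (∀ s, IsETF (f s)) ∧ ∀ s t, Equivalent (f s) (f t) → s = t := by
  obtain ⟨ι, _, _, S, hcard, hSc, hS, hinj⟩ := h
  obtain ⟨W, hW, ⟨t0, ht0⟩, hWp⟩ := exists_perm_free hSc hinj Finset.univ
  obtain ⟨U, hU, htU, e, f, hf, hfU⟩ := exists_frames hM hcard hSc hS t0
  obtain ⟨u, hu, hui, huW⟩ := exists_shrink (hW.inter hU) ⟨ht0, htU⟩
  refine ⟨fun t => f (u t), ?_, fun t => (hfU _ (huW t).2).1, fun s t hst => ?_⟩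
  · rw [← continuousOn_univ]
    exact hf.comp hu.continuousOn (fun t _ => (huW t).2)
  · obtain ⟨σ, hσ⟩ := trip_of_equivalent hM (hS _).diag (hS _).diag e (hfU _ (huW s).2).2
      (hfU _ (huW t).2).2 hst
    exact hui (hWp σ (Finset.mem_univ σ) _ (huW s).1 _ (huW t).1 hσ)

end Pool.Agent.H89.MOD
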