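import Mathlib
import Pool.Agent.H54.Etf.Main

/-!
# Lifts: the products of helper 54 as maps `S₀ ↦ S₀ ⊗ P + 1 ⊗ Q` with `P`, `Q` independent of `S₀`
-/

namespace Pool.Agent.H89.MOD

open Matrix Pool.Agent.H37.Etf Pool.Agent.H54.Etf Polynomial
open scoped Kronecker

/-- a pair of matrices giving a product for all signature matrices of order `N` -/
def IsLift (N : ℕ) {l : Type} [Fintype l] [DecidableEq l] (P Q : Matrix l l ℂ) : Prop :=
  P.IsHermitian ∧ Q.IsHermitian ∧ (∀ i j, ‖P i j‖ = 1) ∧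
    (∀ i, Q i i = 0) ∧ (∀ i j, i ≠ j → ‖Q i j‖ = 1) ∧ P * Q + Q * P = 0 ∧
    ((N : ℂ) - 1) • (P * P) + Q * Q =
      ((N : ℂ) * Fintype.card l - 1) • (1 : Matrix l l ℂ)

/-- there is such a pair -/
def LiftOn (N : ℕ) (l : Type) [Fintype l] [DecidableEq l] : Prop :=
  ∃ P Q : Matrix l l ℂ, IsLift N P Q

variable {ι : Type} [Fintype ι] [DecidableEq ι]

/-- the general frame lemma -/
lemma lift_frame {N : ℕ} {T : Matrix ι ι ℂ}
    {u v b b' u' v' c c' : ℂ[X]}
    (hu : (aeval T u : Matrix ι ι ℂ)ᴴ = aeval T u) (hv : (aeval T v : Matrix ι ι ℂ)ᴴ = aeval T v)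
    (hb : (aeval T b : Matrix ι ι ℂ)ᴴ = aeval T b')
    (hu' : (aeval T u' : Matrix ι ι ℂ)ᴴ = aeval T u')
    (hv' : (aeval T v' : Matrix ι ι ℂ)ᴴ = aeval T v')
    (hc : (aeval T c : Matrix ι ι ℂ)ᴴ = aeval T c')
    (fu : ∀ x y, ‖(aeval T u : Matrix ι ι ℂ) x y‖ = 1)
    (fv : ∀ x y, ‖(aeval T v : Matrix ι ι ℂ) x y‖ = 1)
    (fb : ∀ x y, ‖(aeval T b : Matrix ι ι ℂ) x y‖ = 1)
    (fc : ∀ x y, ‖(aeval T c : Matrix ι ι ℂ) x y‖ = 1)
    (du : ∀ x, (aeval T u' : Matrix ι ι ℂ) x x = 0)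
    (dv : ∀ x, (aeval T v' : Matrix ι ι ℂ) x x = 0)
    (fu' : ∀ x y, x ≠ y → ‖(aeval T u' : Matrix ι ι ℂ) x y‖ = 1)
    (fv' : ∀ x y, x ≠ y → ‖(aeval T v' : Matrix ι ι ℂ) x y‖ = 1)
    (h1 : (aeval T (C ((N : ℂ) - 1) * (u * u + v * v + 2 * (b * b')) +
      (u' * u' + v' * v' + 1 + 2 * (c * c'))) : Matrix ι ι ℂ) =
        ((N : ℂ) * (4 * Fintype.card ι) - 1) • (1 : Matrix ι ι ℂ))
    (h2 : (aeval T (u * u' + v * v' + b * c' + b' * c) : Matrix ι ι ℂ) = 0) :
    IsLift N (ev T (P0 u v b b')) (ev T (Q0 (C Complex.I) u' v' c c')) := by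
  have hb' : (aeval T b' : Matrix ι ι ℂ)ᴴ = aeval T b := by
    rw [← hb, conjTranspose_conjTranspose]
  have hc' : (aeval T c' : Matrix ι ι ℂ)ᴴ = aeval T c := by
    rw [← hc, conjTranspose_conjTranspose]
  have fb' : ∀ x y, ‖(aeval T b' : Matrix ι ι ℂ) x y‖ = 1 := by
    intro x y
    rw [← hb, conjTranspose_apply, norm_star]
    exact fb y x
  have fc' : ∀ x y, ‖(aeval T c' : Matrix ι ι ℂ) x y‖ = 1 := by
    intro x y
    rw [← hc, conjTranspose_apply, norm_star]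
    exact fc y x
  have hCI : (aeval T (C Complex.I : ℂ[X]) : Matrix ι ι ℂ) = Complex.I • (1 : Matrix ι ι ℂ) := by
    rw [aeval_C, Algebra.algebraMap_eq_smul_one]
  have hCI' : (Complex.I • (1 : Matrix ι ι ℂ))ᴴ = -(Complex.I • (1 : Matrix ι ι ℂ)) := by
    rw [conjTranspose_smul, conjTranspose_one, Complex.star_def, Complex.conj_I, neg_smul]
  have herm : ∀ W : Matrix (Fin 4) (Fin 4) ℂ[X],
      (∀ a b, (aeval T (W a b) : Matrix ι ι ℂ)ᴴ = aeval T (W b a)) → (ev T W).IsHermitian := by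
    intro W hW
    refine Matrix.ext fun i j => ?_
    obtain ⟨a, x⟩ := i
    obtain ⟨b, y⟩ := j
    rw [conjTranspose_apply, ev_apply, ev_apply, ← hW b a, conjTranspose_apply]
  refine ⟨herm _ ?_, herm _ ?_, ?_, ?_, ?_, ?_, ?_⟩
  · intro i j
    fin_cases i <;> fin_cases j <;> simp [P0, hu, hv, hb, hb']
  · intro i j
    fin_cases i <;> fin_cases j <;>
      simp [Q0, hu', hv', hc, hc', hCI, hCI', sub_eq_add_neg]
  · rintro ⟨i, x⟩ ⟨j, y⟩
    rw [ev_apply]
    fin_cases i <;> fin_cases j <;> simp [P0, fu, fv, fb, fb']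
  · rintro ⟨i, x⟩
    rw [ev_apply]
    fin_cases i <;> simp [Q0, du, dv]
  · rintro ⟨i, x⟩ ⟨j, y⟩ hij
    rw [ev_apply]
    by_cases hxy : x = y
    · subst hxy
      fin_cases i <;> fin_cases j <;> simp [Q0, du, dv, fc, fc', hCI] at hij ⊢
    · fin_cases i <;> fin_cases j <;>
        simp [Q0, fu', fv', fc, fc', hCI, hxy, Matrix.one_apply_ne hxy]
  · rw [← map_mul, ← map_mul, ← map_add, P0_Q0]
    have : ev T ((2 * (u * u' + v * v' + b * c' + b' * c)) • (1 : Matrix (Fin 4) (Fin 4) ℂ[X])) =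
        (0 : ℂ) • 1 := by
      apply ev_smul_one
      rw [map_mul, h2, mul_zero, zero_smul]
    rw [this, zero_smul]
  · have e1 : ((N : ℂ) - 1) • (ev T (P0 u v b b') * ev T (P0 u v b b')) =
        ev T ((C ((N : ℂ) - 1) * (u * u + v * v + 2 * (b * b'))) •
          (1 : Matrix (Fin 4) (Fin 4) ℂ[X])) := by
      rw [← map_mul, P0_sq]
      refine Matrix.ext fun i j => ?_
      obtain ⟨a, x⟩ := i
      obtain ⟨b, y⟩ := j
      rw [Matrix.smul_apply, ev_apply, ev_apply]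
      simp only [Matrix.smul_apply, smul_eq_mul]
      rw [mul_assoc, map_mul (aeval T) (C _), aeval_C, Algebra.algebraMap_eq_smul_one,
        smul_mul_assoc, one_mul, Matrix.smul_apply, smul_eq_mul]
    rw [e1, ← map_mul, Q0_sq (by rw [← C_mul, Complex.I_mul_I]; simp), ← map_add, ← add_smul,
      ev_smul_one h1, Fintype.card_prod, Fintype.card_fin]
    push_cast
    rfl

lemma lift_twist {N : ℕ} {T : Matrix ι ι ℂ} {b b' : ℂ[X]} {δ : ℂ}
    (hδ : (N : ℂ) * δ = N - 1)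
    (hT : Tᴴ = T) (dT : ∀ x, T x x = 0) (fT : ∀ x y, x ≠ y → ‖T x y‖ = 1)
    (hb : (aeval T b : Matrix ι ι ℂ)ᴴ = aeval T b')
    (fb : ∀ x y, ‖(aeval T b : Matrix ι ι ℂ) x y‖ = 1)
    (h : (aeval T (b * b' + X * X + C (2 * δ) * X) : Matrix ι ι ℂ) =
      (2 * (Fintype.card ι : ℂ) - 1) • (1 : Matrix ι ι ℂ)) :
    IsLift N (ev T (P0 (X + 1) (X + 1) b b'))
      (ev T (Q0 (C Complex.I) X (-X) (C (-Complex.I) * b) (C Complex.I * b'))) := by
  have hX1 : (aeval T (X + 1 : ℂ[X]) : Matrix ι ι ℂ) = T + 1 := by simp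
  have f1 : ∀ x y, ‖(T + 1) x y‖ = 1 := by
    intro x y
    by_cases hxy : x = y
    · subst hxy
      rw [Matrix.add_apply, dT, one_apply_eq, zero_add, norm_one]
    · rw [Matrix.add_apply, one_apply_ne hxy, add_zero]
      exact fT x y hxy
  have hh1 : (T + 1)ᴴ = T + 1 := by rw [conjTranspose_add, hT, conjTranspose_one]
  have hI : (aeval T (C (-Complex.I) * b : ℂ[X]) : Matrix ι ι ℂ) = (-Complex.I) • aeval T b := by
    rw [map_mul, aeval_C, Algebra.algebraMap_eq_smul_one, smul_mul_assoc, one_mul]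
  have hI' : (aeval T (C Complex.I * b' : ℂ[X]) : Matrix ι ι ℂ) = Complex.I • aeval T b' := by
    rw [map_mul, aeval_C, Algebra.algebraMap_eq_smul_one, smul_mul_assoc, one_mul]
  refine lift_frame (T := T) (u := X + 1) (v := X + 1) (b := b) (b' := b') (u' := X) (v' := -X)
    (c := C (-Complex.I) * b) (c' := C Complex.I * b') ?_ ?_ hb ?_ ?_ ?_ ?_ ?_ fb ?_ ?_ ?_ ?_ ?_ ?_ ?_
  · rw [hX1, hh1]
  · rw [hX1, hh1]
  · rw [aeval_X, hT]
  · rw [map_neg, aeval_X, conjTranspose_neg, hT]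
  · rw [hI, hI', conjTranspose_smul, hb]
    simp
  · rw [hX1]; exact f1
  · rw [hX1]; exact f1
  · intro x y
    rw [hI, Matrix.smul_apply, smul_eq_mul, norm_mul, fb, mul_one, norm_neg, Complex.norm_I]
  · intro x
    rw [aeval_X, dT]
  · intro x
    rw [map_neg, aeval_X, Matrix.neg_apply, dT, neg_zero]
  · intro x y hxy
    rw [aeval_X, fT x y hxy]
  · intro x y hxy
    rw [map_neg, aeval_X, Matrix.neg_apply, norm_neg, fT x y hxy]
  · have hC : (C (-Complex.I) : ℂ[X]) * C Complex.I = 1 := by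
      rw [← C_mul, neg_mul, Complex.I_mul_I, neg_neg, C_1]
    have hk : (C (N : ℂ) : ℂ[X]) * C δ = C (N : ℂ) - 1 := by
      rw [← C_mul, hδ, C_sub, C_1]
    have e : (C ((N : ℂ) - 1) * ((X + 1) * (X + 1) + (X + 1) * (X + 1) + 2 * (b * b')) +
        (X * X + -X * -X + 1 + 2 * (C (-Complex.I) * b * (C Complex.I * b'))) : ℂ[X]) =
        C (2 * (N : ℂ)) * (b * b' + X * X + C (2 * δ) * X) +
          C (2 * (N : ℂ) - 1) := by
      have e2 : (C (2 : ℂ) : ℂ[X]) = 2 := map_ofNat C 2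
      simp only [C_sub, C_mul, C_1, e2]
      linear_combination (2 * b * b') * hC - 4 * X * hk
    rw [e, map_add, map_mul, h, aeval_C, aeval_C, Algebra.algebraMap_eq_smul_one,
      Algebra.algebraMap_eq_smul_one, smul_mul_assoc, one_mul, smul_smul, ← add_smul]
    congr 1
    ring
  · have e : ((X + 1) * X + (X + 1) * -X + b * (C Complex.I * b') + b' * (C (-Complex.I) * b) : ℂ[X]) = 0 := by
      rw [C_neg]
      ring
    rw [e, map_zero]

/-- Theorem 1: product with an arbitrary two-eigenvalue signature matrix `T` -/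
lemma lift_prod {N : ℕ} (hk : 1 ≤ N) {T : Matrix ι ι ℂ} {μ : ℝ}
    (hT : Tᴴ = T) (dT : ∀ x, T x x = 0) (fT : ∀ x y, x ≠ y → ‖T x y‖ = 1)
    (hsq : T * T = ((Fintype.card ι : ℂ) - 1) • (1 : Matrix ι ι ℂ) + (μ : ℂ) • T)
    (hμ0 : μ ≤ 0) (hμ : -(2 - 1 / (N : ℝ)) ≤ μ) :
    LiftOn N (Fin 4 × ι) := by
  have hk' : (1 : ℝ) ≤ N := by exact_mod_cast hk
  set δ : ℝ := 1 - 1 / (N : ℝ) with hδ
  have hδ0 : 0 ≤ δ := by
    rw [hδ, sub_nonneg, div_le_one (by linarith)]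
    exact hk'
  have hδ1 : δ ≤ 1 := by
    rw [hδ]
    have : 0 ≤ 1 / (N : ℝ) := by positivity
    linarith
  have hkδ : (N : ℝ) * δ = N - 1 := by
    rw [hδ]
    field_simp
  have hkδ' : (N : ℂ) * (δ : ℂ) = N - 1 := by exact_mod_cast hkδ
  set r : ℝ := -μ - δ with hr
  have hr1 : r ≤ 1 := by linarith
  have hr2 : -1 ≤ r := by linarith
  have hr3 : 0 ≤ 1 - r ^ 2 := by nlinarith
  set w : ℂ := ⟨r, √(1 - r ^ 2)⟩ with hw
  have hwn : (starRingEnd ℂ) w * w = 1 := by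
    rw [mul_comm, Complex.mul_conj, Complex.normSq_apply, hw]
    simp only
    rw [Real.mul_self_sqrt hr3]
    norm_cast
    ring
  have hw1 : ‖w‖ = 1 := by
    have h1 : (‖w‖ : ℂ) ^ 2 = 1 := by
      rw [← hwn, mul_comm, Complex.mul_conj, Complex.normSq_eq_norm_sq]
      push_cast
      rfl
    have h2 : ‖w‖ ^ 2 = 1 := by exact_mod_cast h1
    have h3 := norm_nonneg w
    nlinarith
  have hwr : w + (starRingEnd ℂ) w = 2 * (r : ℂ) := by
    rw [Complex.add_conj]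
    simp [hw]
  have ev1 : ∀ z : ℂ, (aeval T (1 + C z * X : ℂ[X]) : Matrix ι ι ℂ) = 1 + z • T := by
    intro z
    rw [map_add, map_one, map_mul, aeval_C, aeval_X, Algebra.algebraMap_eq_smul_one,
      smul_mul_assoc, one_mul]
  refine ⟨_, _, lift_twist (T := T) (b := 1 + C w * X) (b' := 1 + C ((starRingEnd ℂ) w) * X) hkδ' hT dT fT
    ?_ ?_ ?_⟩
  · rw [ev1, ev1, conjTranspose_add, conjTranspose_one, conjTranspose_smul, hT]
    rfl
  · intro x y
    rw [ev1, Matrix.add_apply, Matrix.smul_apply, smul_eq_mul]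
    by_cases hxy : x = y
    · subst hxy
      rw [dT, one_apply_eq, mul_zero, add_zero, norm_one]
    · rw [one_apply_ne hxy, zero_add, norm_mul, hw1, fT x y hxy, one_mul]
  · rw [map_add, map_add, map_mul, map_mul, map_mul, ev1, ev1, aeval_C, aeval_X,
      Algebra.algebraMap_eq_smul_one, smul_mul_assoc, one_mul]
    have e1 : (1 + w • T) * (1 + (starRingEnd ℂ) w • T) =
        1 + (w + (starRingEnd ℂ) w) • T + ((starRingEnd ℂ) w * w) • (T * T) := by
      rw [add_mul, mul_add, mul_add, one_mul, mul_one, one_mul, smul_mul_smul_comm, add_smul,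
        mul_comm w]
      abel
    have h4 : (r : ℂ) = -(μ : ℂ) - (δ : ℂ) := by
      rw [hr]
      push_cast
      ring
    rw [e1, hwn, hwr, hsq, h4]
    module

/-- regime I -/
lemma lift_symm1 {N : ℕ} {δ : ℝ} {n : ℂ} (hn : n = Fintype.card ι)
    (hδ : (N : ℂ) * (δ : ℂ) = N - 1) {K : Matrix ι ι ℂ}
    (hK : Kᴴ = K) (hd : ∀ i, K i i = 0) (ho : ∀ i j, i ≠ j → K i j = 1 ∨ K i j = -1)
    (hKJ : K * Jm ι = 0) (hJK : Jm ι * K = 0)
    (hKK : K * K = n • (1 : Matrix ι ι ℂ) - Jm ι) {a t c s : ℝ}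
    (h1 : a ^ 2 + t ^ 2 = 1) (h2 : c ^ 2 + s ^ 2 = 1)
    (h3 : ((Fintype.card ι : ℝ) - 1) * c ^ 2 + 2 * a * c = 2) (h4 : s * t = -δ) :
    LiftOn N (Fin 4 × ι) := by
  have fK : ∀ x y, x ≠ y → ‖K x y‖ = 1 := by
    intro x y hxy
    rcases ho x y hxy with h | h <;> rw [h] <;> simp
  have h1C : (a : ℂ) ^ 2 + (t : ℂ) ^ 2 = 1 := by exact_mod_cast cC h1
  have h2C : (c : ℂ) ^ 2 + (s : ℂ) ^ 2 = 1 := by exact_mod_cast cC h2
  have h3C : (n - 1) * (c : ℂ) ^ 2 + 2 * (a : ℂ) * c = 2 := by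
    have := cC h3
    push_cast at this
    rw [hn]
    exact this
  have h4C : (s : ℂ) * t = -(δ : ℂ) := by exact_mod_cast cC h4
  refine ⟨_, _, lift_twist (T := K) (b := jp n ((a : ℂ) + Complex.I * t - c) c (Complex.I * s))
    (b' := jp n ((a : ℂ) - Complex.I * t - c) c (-(Complex.I * s))) hδ hK hd fK ?_ ?_ ?_⟩
  · rw [aeval_jp hKK, aeval_jp hKK, jk_conj hK]
    congr 1
    · simp
      ring
    · simp
    · simp
  · intro x y
    rw [aeval_jp hKK]
    refine jk_norm hd ho ?_ (norm_aux h2) (norm_aux' h2) x y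
    rw [sub_add_cancel]
    exact norm_aux h1
  · have e1 : (aeval K (X * X + C (2 * (δ : ℂ)) * X : ℂ[X]) : Matrix ι ι ℂ) =
        jk K n (-1) (2 * (δ : ℂ)) := by
      rw [map_add, map_mul, map_mul, aeval_C, aeval_X, hKK, Algebra.algebraMap_eq_smul_one,
        smul_mul_assoc, one_mul, jk, neg_one_smul, sub_eq_add_neg]
    rw [add_assoc, map_add, e1, map_mul, aeval_jp hKK, aeval_jp hKK, jk_mul hn hKJ hJK hKK]
    have hI := Complex.I_mul_I
    have e2 : ∀ x y z x' y' z' w : ℂ, x + x' = w → y + y' = 0 → z + z' = 0 →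
        jk K x y z + jk K x' y' z' = w • (1 : Matrix ι ι ℂ) := by
      intro x y z x' y' z' w hx hy hz
      have : jk K x y z + jk K x' y' z' = (x + x') • (1 : Matrix ι ι ℂ) + (y + y') • Jm ι +
          (z + z') • K := by
        rw [jk, jk]
        module
      rw [this, hx, hy, hz, zero_smul, zero_smul, add_zero, add_zero]
    apply e2
    · linear_combination (-(t : ℂ) ^ 2 - n * s ^ 2) * hI + h1C + n * h2C - h3C + 2 * hn
    · linear_combination (s : ℂ) ^ 2 * hI + h3C - h2C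
    · linear_combination (-2 * (s : ℂ) * t) * hI + 2 * h4C

/-- regime II -/
lemma lift_symm2 {N : ℕ} {K : Matrix ι ι ℂ} {n k : ℂ}
    (hn : n = Fintype.card ι) (hk : k = N)
    (hK : Kᴴ = K) (hd : ∀ i, K i i = 0) (ho : ∀ i j, i ≠ j → K i j = 1 ∨ K i j = -1)
    (hKJ : K * Jm ι = 0) (hJK : Jm ι * K = 0)
    (hKK : K * K = n • (1 : Matrix ι ι ℂ) - Jm ι) {c s c' s' : ℝ}
    (h1 : c ^ 2 + s ^ 2 = 1) (h2 : c' ^ 2 + s' ^ 2 = 1)
    (h3 : ((N : ℝ) - 1) * (((Fintype.card ι : ℝ) - 1) * c ^ 2 + 2 * c) +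
      (((Fintype.card ι : ℝ) - 1) * c' ^ 2 + 2 * c') = 2 * N)
    (h4 : s * (1 - c') + s' * (1 - c) = 1) :
    LiftOn N (Fin 4 × ι) := by
  have h1C : (c : ℂ) ^ 2 + (s : ℂ) ^ 2 = 1 := by exact_mod_cast cC h1
  have h2C : (c' : ℂ) ^ 2 + (s' : ℂ) ^ 2 = 1 := by exact_mod_cast cC h2
  have h3C : (k - 1) * ((n - 1) * (c : ℂ) ^ 2 + 2 * c) + ((n - 1) * (c' : ℂ) ^ 2 + 2 * c') =
      2 * k := by
    have := cC h3
    push_cast at this
    rw [hn, hk]
    exact this
  have h4C : (s : ℂ) * (1 - c') + s' * (1 - c) = 1 := by exact_mod_cast cC h4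
  have hI := Complex.I_mul_I
  have hu : (jp n 1 0 (-1) : ℂ[X]) = 1 - X := by simp [jp, sub_eq_add_neg]
  have hv : (jp n (-1) 0 (-1) : ℂ[X]) = -1 - X := by simp [jp, sub_eq_add_neg]
  have hu' : (jp n 0 0 (-1) : ℂ[X]) = -X := by simp [jp]
  have hv' : (jp n 0 0 1 : ℂ[X]) = X := by simp [jp]
  refine ⟨_, _, lift_frame (T := K) (u := jp n 1 0 (-1)) (v := jp n (-1) 0 (-1))
    (b := jp n (1 - c) c (-(Complex.I * s))) (b' := jp n (1 - c) c (Complex.I * s))
    (u' := jp n 0 0 (-1)) (v' := jp n 0 0 1)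
    (c := jp n (-(Complex.I * (1 - c'))) (-(Complex.I * c')) s')
    (c' := jp n (Complex.I * (1 - c')) (Complex.I * c') s')
    ?_ ?_ ?_ ?_ ?_ ?_ ?_ ?_ ?_ ?_ ?_ ?_ ?_ ?_ ?_ ?_⟩
  · rw [aeval_jp hKK, jk_conj hK]
    simp
  · rw [aeval_jp hKK, jk_conj hK]
    simp
  · rw [aeval_jp hKK, aeval_jp hKK, jk_conj hK]
    simp
  · rw [aeval_jp hKK, jk_conj hK]
    simp
  · rw [aeval_jp hKK, jk_conj hK]
    simp
  · rw [aeval_jp hKK, aeval_jp hKK, jk_conj hK]
    simp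
  · intro x y
    rw [aeval_jp hKK]
    exact jk_norm hd ho (by simp) (by simp) (by simp) x y
  · intro x y
    rw [aeval_jp hKK]
    exact jk_norm hd ho (by simp) (by simp) (by simp) x y
  · intro x y
    rw [aeval_jp hKK]
    refine jk_norm hd ho (by simp) ?_ ?_ x y
    · rw [← sub_eq_add_neg]
      exact norm_aux' h1
    · rw [sub_neg_eq_add]
      exact norm_aux h1
  · intro x y
    rw [aeval_jp hKK]
    refine jk_norm hd ho ?_ ?_ ?_ x y
    · have : -(Complex.I * (1 - (c' : ℂ))) + -(Complex.I * c') = -Complex.I := by ring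
      rw [this]
      simp
    · have : -(Complex.I * (c' : ℂ)) + s' = -Complex.I * ((c' : ℂ) + Complex.I * s') := by
        linear_combination (s' : ℂ) * hI
      rw [this, norm_mul, norm_aux h2]
      simp
    · have : -(Complex.I * (c' : ℂ)) - s' = -Complex.I * ((c' : ℂ) - Complex.I * s') := by
        linear_combination (-(s' : ℂ)) * hI
      rw [this, norm_mul, norm_aux' h2]
      simp
  · intro x
    rw [hu', map_neg, aeval_X, Matrix.neg_apply, hd, neg_zero]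
  · intro x
    rw [hv', aeval_X, hd]
  · intro x y hxy
    rw [hu', map_neg, aeval_X, Matrix.neg_apply]
    rcases ho x y hxy with h | h <;> rw [h] <;> simp
  · intro x y hxy
    rw [hv', aeval_X]
    rcases ho x y hxy with h | h <;> rw [h] <;> simp
  · rw [← hn, ← hk]
    simp only [map_add, map_mul, map_one, aeval_C, aeval_jp hKK, jk_mul hn hKJ hJK hKK,
      Algebra.algebraMap_eq_smul_one, smul_mul_assoc, one_mul]
    have e2 : (2 : ℂ[X]) = C 2 := (map_ofNat C 2).symm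
    rw [e2, aeval_C, Algebra.algebraMap_eq_smul_one]
    simp only [smul_mul_assoc, one_mul]
    have e3 : ∀ x y z w : ℂ, x = w → y = 0 → z = 0 → jk K x y z = w • (1 : Matrix ι ι ℂ) := by
      intro x y z w hx hy hz
      rw [hx, hy, hz, jk, zero_smul, zero_smul, add_zero, add_zero]
    have e4 : (1 : Matrix ι ι ℂ) = jk K 1 0 0 := by simp [jk]
    have e5 : ∀ x y z x' y' z' : ℂ, jk K x y z + jk K x' y' z' =
        jk K (x + x') (y + y') (z + z') := by
      intros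
      simp only [jk]
      module
    have e6 : ∀ r x y z : ℂ, r • jk K x y z = jk K (r * x) (r * y) (r * z) := by
      intros
      simp only [jk]
      module
    conv_lhs => rw [e4]
    simp only [e5, e6]
    apply e3
    · linear_combination (2 * (k - 1) * (-n * (s : ℂ) ^ 2) + 2 * (-(1 - (c' : ℂ)) ^ 2)) * hI +
        2 * (k - 1) * n * h1C + 2 * n * h2C - 2 * h3C
    · linear_combination (2 * (k - 1) * (s : ℂ) ^ 2 + 2 * (-(2 * (1 - (c' : ℂ)) * c' + n * c' ^ 2))) * hI -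
        2 * (k - 1) * h1C - 2 * h2C + 2 * h3C
    · ring
  · simp only [map_add, map_mul, aeval_jp hKK, jk_mul hn hKJ hJK hKK]
    have e5 : ∀ x y z x' y' z' : ℂ, jk K x y z + jk K x' y' z' =
        jk K (x + x') (y + y') (z + z') := by
      intros
      simp only [jk]
      module
    have e3 : ∀ x y z : ℂ, x = 0 → y = 0 → z = 0 → jk K x y z = 0 := by
      intro x y z hx hy hz
      rw [hx, hy, hz, jk, zero_smul, zero_smul, zero_smul, add_zero, add_zero]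
    simp only [e5]
    apply e3
    · ring
    · ring
    · linear_combination (-2 * (s : ℂ) * (1 - c')) * hI + 2 * h4C


end Pool.Agent.H89.MOD
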