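import Mathlib
import Pool.Agent.H89.MOD.Lift
import Pool.Agent.H89.MOD.Ineq

/-!
# Lifts of families
-/

namespace Pool.Agent.H89.MOD

open Matrix Pool.Agent.H37.Etf Pool.Agent.H54.Etf Polynomial
open scoped Kronecker

/-- there is a product of order `L` for all signature matrices of order `N` -/
def Lift (N L : ℕ) : Prop :=
  ∃ (l : Type) (_ : Fintype l) (_ : DecidableEq l), Fintype.card l = L ∧ 1 ≤ L ∧ LiftOn N l

lemma FamEx.lift {N L d : ℕ} (h : FamEx N d) (h' : Lift N L) : FamEx (N * L) d := by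
  obtain ⟨κ, _, _, S, hcard, hSc, hS, hinj⟩ := h
  obtain ⟨l, _, _, hl, hL, P, Q, hP, hQ, hPo, hQd, hQo, hPQ, hsq⟩ := h'
  have : 0 < Fintype.card l := by omega
  obtain ⟨a⟩ := Fintype.card_pos_iff.1 this
  have hPa : P a a ≠ 0 := by
    intro h0
    have := hPo a a
    rw [h0, norm_zero] at this
    exact zero_ne_one this
  have hval : ∀ t i j, (S t ⊗ₖ P + (1 : Matrix κ κ ℂ) ⊗ₖ Q) (i, a) (j, a) = S t i j * P a a := by
    intro t i j
    rw [Matrix.add_apply, kroneckerMap_apply, kroneckerMap_apply, hQd, mul_zero, add_zero]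
  refine ⟨κ × l, inferInstance, inferInstance, fun t => S t ⊗ₖ P + (1 : Matrix κ κ ℂ) ⊗ₖ Q, ?_, ?_,
    fun t => ?_, fun s t hst => ?_⟩
  · rw [Fintype.card_prod, hcard, hl]
  · refine continuous_matrix fun i j => ?_
    obtain ⟨i, x⟩ := i
    obtain ⟨j, y⟩ := j
    simp only [Matrix.add_apply, kroneckerMap_apply]
    exact ((hSc.matrix_elem i j).mul continuous_const).add continuous_const
  · refine sig_kron (hS t) hP hQ hPo hQd hQo hPQ ?_
    rw [hcard]
    exact hsq
  · refine hinj s t fun i j m => ?_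
    have h1 := hst (i, a) (j, a) (m, a)
    unfold trip at h1 ⊢
    simp only [hval] at h1
    have h2 : (S s i j * S s j m * S s m i) * P a a ^ 3 = (S t i j * S t j m * S t m i) * P a a ^ 3 := by
      linear_combination h1
    exact mul_right_cancel₀ (pow_ne_zero 3 hPa) h2

/-- doubling as a lift -/
lemma lift_two (N : ℕ) : Lift N 2 := by
  refine ⟨Fin 2, inferInstance, inferInstance, by simp, by norm_num, !![1, 1; 1, -1],
    !![0, -Complex.I; Complex.I, 0], ?_, ?_, ?_, ?_, ?_, ?_, ?_⟩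
  · refine Matrix.ext fun i j => ?_
    fin_cases i <;> fin_cases j <;> simp
  · refine Matrix.ext fun i j => ?_
    fin_cases i <;> fin_cases j <;> simp
  · intro i j
    fin_cases i <;> fin_cases j <;> simp
  · intro i
    fin_cases i <;> simp
  · intro i j hij
    fin_cases i <;> fin_cases j <;> simp at hij ⊢
  · refine Matrix.ext fun i j => ?_
    fin_cases i <;> fin_cases j <;> simp
  · refine Matrix.ext fun i j => ?_
    fin_cases i <;> fin_cases j <;> simp <;> ring

lemma FamEx.double {N d : ℕ} (h : FamEx N d) (k : ℕ) : FamEx (2 ^ k * N) d := by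
  induction k with
  | zero => simpa using h
  | succ k ih =>
    have := ih.lift (lift_two _)
    rw [show 2 ^ (k + 1) * N = 2 ^ k * N * 2 by ring]
    exact this

lemma Lift.prod {N : ℕ} (hN : 2 ≤ N) {ι : Type} [Fintype ι] [DecidableEq ι]
    {T : Matrix ι ι ℂ} {μ : ℝ} (hT : Tᴴ = T) (dT : ∀ x, T x x = 0)
    (fT : ∀ x y, x ≠ y → ‖T x y‖ = 1)
    (hsq : T * T = ((Fintype.card ι : ℂ) - 1) • (1 : Matrix ι ι ℂ) + (μ : ℂ) • T)
    (hμ : μ ^ 2 ≤ 9 / 4) (h1 : 1 ≤ Fintype.card ι) : Lift N (4 * Fintype.card ι) := by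
  have hN' : (2 : ℝ) ≤ N := by exact_mod_cast hN
  have hb : (3 : ℝ) / 2 ≤ 2 - 1 / (N : ℝ) := by
    have : 1 / (N : ℝ) ≤ 1 / 2 :=
      one_div_le_one_div_of_le (by norm_num) hN'
    linarith
  have hμ1 : -(3 / 2) ≤ μ := by nlinarith
  have hμ2 : μ ≤ 3 / 2 := by nlinarith
  have key : LiftOn N (Fin 4 × ι) := by
    rcases le_total μ 0 with h0 | h0
    · exact lift_prod (by omega) hT dT fT hsq h0 (by linarith)
    · refine lift_prod (by omega) (T := -T) (μ := -μ) ?_ ?_ ?_ ?_ (by linarith) (by linarith)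
      · rw [conjTranspose_neg, hT]
      · intro x
        rw [Matrix.neg_apply, dT, neg_zero]
      · intro x y hxy
        rw [Matrix.neg_apply, norm_neg, fT x y hxy]
      · rw [neg_mul_neg, hsq]
        push_cast
        rw [neg_smul, smul_neg, neg_neg]
  exact ⟨_, inferInstance, inferInstance, by rw [Fintype.card_prod, Fintype.card_fin], by omega, key⟩

/-- product with the core of a skew conference matrix -/
lemma Lift.skew {N : ℕ} (hN : 2 ≤ N) {ι : Type} [Fintype ι] [DecidableEq ι]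
    {K : Matrix ι ι ℤ} (hK : Core (-1) K) (h3 : 3 ≤ Fintype.card ι) :
    Lift N (4 * Fintype.card ι) := by
  have hn : (3 : ℝ) ≤ Fintype.card ι := by exact_mod_cast h3
  set n : ℝ := (Fintype.card ι : ℝ) with hn'
  set x : ℝ := 1 / √(n + 1) with hx
  have hsq : √(n + 1) ^ 2 = n + 1 := Real.sq_sqrt (by linarith)
  have hs0 : 0 < √(n + 1) := Real.sqrt_pos.2 (by linarith)
  have hx2 : x ^ 2 * (n + 1) = 1 := by
    rw [hx, div_pow, hsq, one_pow]
    field_simp
  have hx3 : x ^ 2 ≤ 1 / 4 := by nlinarith [sq_nonneg x]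
  set y : ℝ := √(1 - x ^ 2) with hy
  have hy2 : y ^ 2 = 1 - x ^ 2 := Real.sq_sqrt (by nlinarith)
  have hxy : x ^ 2 + y ^ 2 = 1 := by linarith
  set C := cx K with hC
  have hCJ : C * Jm ι = 0 := hK.mul_Jm
  have hJC : Jm ι * C = 0 := hK.Jm_mul (by norm_num)
  have hCC : C * C = -((Fintype.card ι : ℂ) • (1 : Matrix ι ι ℂ) - Jm ι) := by
    have := hK.mul_self
    simpa using this
  have hCH : Cᴴ = -C := by
    have := hK.conj
    simpa using this
  have hd : ∀ i, C i i = 0 := by
    intro i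
    simp only [hC, cx, Matrix.map_apply, hK.diag i]
    simp
  have ho : ∀ i j, i ≠ j → C i j = 1 ∨ C i j = -1 := by
    intro i j hij
    simp only [hC, cx, Matrix.map_apply]
    rcases hK.off i j hij with h | h
    · left; rw [h]; simp
    · right; rw [h]; simp
  have hIC : (Complex.I • C)ᴴ = Complex.I • C := by
    rw [conjTranspose_smul, hCH]
    simp
  have hI := Complex.I_mul_I
  have hKK : (Complex.I • C) * (Complex.I • C) =
      (Fintype.card ι : ℂ) • (1 : Matrix ι ι ℂ) - Jm ι := by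
    rw [smul_mul_smul_comm, hI, hCC]
    module
  have hKJ : (Complex.I • C) * Jm ι = 0 := by rw [smul_mul_assoc, hCJ, smul_zero]
  have hJK : Jm ι * (Complex.I • C) = 0 := by rw [mul_smul_comm, hJC, smul_zero]
  have hxC : (x : ℂ) ^ 2 * ((Fintype.card ι : ℂ) + 1) = 1 := by
    have := cC hx2
    rw [hn'] at this
    push_cast at this
    exact this
  have hyC : (y : ℂ) ^ 2 = 1 - (x : ℂ) ^ 2 := by exact_mod_cast cC hy2
  refine Lift.prod hN (T := jk (Complex.I • C) (-x) x y) (μ := -2 * x) ?_ ?_ ?_ ?_ ?_ (by omega)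
  · rw [jk_conj hIC]
    simp
  · intro i
    simp [jk, Jm, hd]
  · intro i j hij
    have e : (jk (Complex.I • C) (-x) x y : Matrix ι ι ℂ) i j = (x : ℂ) + Complex.I * (y * C i j) := by
      simp [jk, Jm, one_apply_ne hij]
      ring
    rw [e]
    rcases ho i j hij with h | h <;> rw [h]
    · rw [mul_one]
      exact norm_aux hxy
    · rw [mul_neg_one, mul_neg, ← sub_eq_add_neg]
      exact norm_aux' hxy
  · rw [jk_mul rfl hKJ hJK hKK]
    have : ∀ a b c a' b' c' : ℂ, ∀ r s : ℂ, a = r + s * a' → b = s * b' → c = s * c' →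
        jk (Complex.I • C) a b c = r • (1 : Matrix ι ι ℂ) + s • jk (Complex.I • C) a' b' c' := by
      intro a b c a' b' c' r s ha hb hc
      rw [ha, hb, hc, jk, jk]
      module
    apply this
    · push_cast
      linear_combination (-1 : ℂ) * hxC + (Fintype.card ι : ℂ) * hyC
    · push_cast
      linear_combination hxC - hyC
    · push_cast
      ring
  · nlinarith

/-- product with the core of a symmetric conference matrix -/
lemma Lift.symm {N : ℕ} (hN : 2 ≤ N) {ι : Type} [Fintype ι] [DecidableEq ι]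
    {C : Matrix ι ι ℤ} (hC : Core 1 C) (h5 : 5 ≤ Fintype.card ι) :
    Lift N (4 * Fintype.card ι) := by
  have hN' : (2 : ℝ) ≤ N := by exact_mod_cast hN
  have hn : (5 : ℝ) ≤ Fintype.card ι := by exact_mod_cast h5
  set K := cx C with hK
  have hKJ : K * Jm ι = 0 := hC.mul_Jm
  have hJK : Jm ι * K = 0 := hC.Jm_mul (by norm_num)
  have hKK : K * K = (Fintype.card ι : ℂ) • (1 : Matrix ι ι ℂ) - Jm ι := by
    have := hC.mul_self
    simpa using this
  have hKH : Kᴴ = K := by
    have := hC.conj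
    simpa using this
  have hd : ∀ i, K i i = 0 := by
    intro i
    simp only [hK, cx, Matrix.map_apply, hC.diag i]
    simp
  have ho : ∀ i j, i ≠ j → K i j = 1 ∨ K i j = -1 := by
    intro i j hij
    simp only [hK, cx, Matrix.map_apply]
    rcases hC.off i j hij with h | h
    · left; rw [h]; simp
    · right; rw [h]; simp
  have key : LiftOn N (Fin 4 × ι) := by
    rcases regimes hn hN' with h | h
    · have hδ0 : 0 ≤ 1 - 1 / (N : ℝ) := by
        rw [sub_nonneg, div_le_one (by linarith)]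
        linarith
      obtain ⟨a, t, c, s, h1, h2, h3, h4⟩ := regime1 (by linarith) hδ0 h
      refine lift_symm1 rfl ?_ hKH hd ho hKJ hJK hKK h1 h2 h3 h4
      push_cast
      have : (N : ℂ) ≠ 0 := by
        have : (N : ℝ) ≠ 0 := by linarith
        exact_mod_cast this
      field_simp
    · obtain ⟨c, s, c', s', h1, h2, h3, h4⟩ := regime2 hn hN' h
      exact lift_symm2 rfl rfl hKH hd ho hKJ hJK hKK h1 h2 h3 h4
  exact ⟨_, inferInstance, inferInstance, by rw [Fintype.card_prod, Fintype.card_fin], by omega, key⟩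

lemma Lift.primePow {N : ℕ} (hN : 2 ≤ N) {q : ℕ} (hq : IsPrimePow q) (hq2 : Odd q) :
    Lift N (4 * q) := by
  have h2 := hq.two_le
  rcases Nat.odd_iff.1 hq2 with h3
  have h4 : q % 4 = 1 ∨ q % 4 = 3 := by omega
  rcases h4 with h4 | h4
  · obtain ⟨F, _, _, C, hc, hC⟩ := (exists_core_of_primePow hq).1 h4
    have := Lift.symm hN hC (by rw [hc]; omega)
    rwa [hc] at this
  · obtain ⟨F, _, _, C, hc, hC⟩ := (exists_core_of_primePow hq).2 h4
    have := Lift.skew hN hC (by rw [hc]; omega)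
    rwa [hc] at this


lemma FamEx.odd {d : ℕ} (m : ℕ) : Odd m → ∀ N, 2 ≤ N → FamEx N d →
    FamEx (4 ^ m.primeFactors.card * m * N) d := by
  induction m using Nat.recOnPosPrimePosCoprime with
  | prime_pow p n hp hn =>
    intro h N hN hE
    rw [Nat.primeFactors_prime_pow hn.ne' hp, Finset.card_singleton, pow_one, mul_comm]
    exact hE.lift (Lift.primePow hN (hp.isPrimePow.pow hn.ne') h)
  | zero => intro h; exact absurd h (by decide)
  | one =>
    intro _ N _ hE
    simpa using hE
  | coprime a b ha hb hab iha ihb =>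
    intro h N hN hE
    rw [Nat.odd_mul] at h
    have h1 := ihb h.2 N hN hE
    have h2 := iha h.1 _ (le_trans hN (Nat.le_mul_of_pos_left N (by positivity))) h1
    rw [card_primeFactors_mul hab, pow_add]
    have e : 4 ^ a.primeFactors.card * 4 ^ b.primeFactors.card * (a * b) * N =
        4 ^ a.primeFactors.card * a * (4 ^ b.primeFactors.card * b * N) := by ring
    rw [e]
    exact h2

lemma FamEx.all {d N : ℕ} (hN : 2 ≤ N) (h : FamEx N d) (n k : ℕ) (hn : 1 ≤ n)
    (hk : 2 * (n.primeFactors.erase 2).card ≤ k) : FamEx (2 ^ k * n * N) d := by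
  obtain ⟨a, m, hm, rfl⟩ := Nat.exists_eq_two_pow_mul_odd (n := n) (by omega)
  rw [erase_two hm] at hk
  have h2 := (FamEx.odd m hm N hN h).double (k + a - 2 * m.primeFactors.card)
  have e : 2 ^ k * (2 ^ a * m) * N = 2 ^ (k + a - 2 * m.primeFactors.card) *
      (4 ^ m.primeFactors.card * m * N) := by
    rw [show (4 : ℕ) = 2 ^ 2 by norm_num, ← pow_mul]
    have : 2 ^ (k + a - 2 * m.primeFactors.card) * 2 ^ (2 * m.primeFactors.card) =
        2 ^ k * 2 ^ a := by
      rw [← pow_add, ← pow_add]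
      congr 1
      omega
    calc 2 ^ k * (2 ^ a * m) * N = m * N * (2 ^ k * 2 ^ a) := by ring
      _ = _ := by rw [← this]; ring
  rw [e]
  exact h2

end Pool.Agent.H89.MOD
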