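import Mathlib
import Pool.Agent.H89.MOD.LiftM

/-!
# Products of two families
-/

namespace Pool.Agent.H89.MOD

open Matrix Pool.Agent.H37.Etf Pool.Agent.H54.Etf Polynomial
open scoped Kronecker

variable {ι : Type} [Fintype ι] [DecidableEq ι]

/-- the unimodular number of the product -/
noncomputable def wN (N : ℕ) : ℂ :=
  ⟨-(1 - 1 / (N : ℝ)), √(1 - (-(1 - 1 / (N : ℝ))) ^ 2)⟩

/-- the matrix `P` of the product with `T` -/
noncomputable def PT (N : ℕ) (T : Matrix ι ι ℂ) : Matrix (Fin 4 × ι) (Fin 4 × ι) ℂ :=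
  ev T (P0 (X + 1) (X + 1) (1 + C (wN N) * X) (1 + C ((starRingEnd ℂ) (wN N)) * X))

/-- the matrix `Q` of the product with `T` -/
noncomputable def QT (N : ℕ) (T : Matrix ι ι ℂ) : Matrix (Fin 4 × ι) (Fin 4 × ι) ℂ :=
  ev T (Q0 (C Complex.I) X (-X) (C (-Complex.I) * (1 + C (wN N) * X))
    (C Complex.I * (1 + C ((starRingEnd ℂ) (wN N)) * X)))

lemma isLift_T {N : ℕ} (hk : 1 ≤ N) {T : Matrix ι ι ℂ} (hT : Sig T) :
    IsLift N (PT N T) (QT N T) := by
  have hk' : (1 : ℝ) ≤ N := by exact_mod_cast hk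
  set δ : ℝ := 1 - 1 / (N : ℝ) with hδ
  have hδ0 : 0 ≤ δ := by
    rw [hδ, sub_nonneg, div_le_one (by linarith)]
    exact hk'
  have hδ1 : δ ≤ 1 := by
    rw [hδ]
    have : 0 ≤ 1 / (N : ℝ) := by positivity
    linarith
  have hkδ : (N : ℝ) * δ = N - 1 := by
    rw [hδ]
    field_simp
  have hkδ' : (N : ℂ) * (δ : ℂ) = N - 1 := by exact_mod_cast hkδ
  set r : ℝ := -δ with hr
  have hr1 : r ≤ 1 := by linarith
  have hr2 : -1 ≤ r := by linarith
  have hr3 : 0 ≤ 1 - r ^ 2 := by nlinarith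
  have hw : wN N = ⟨r, √(1 - r ^ 2)⟩ := rfl
  have hwn : (starRingEnd ℂ) (wN N) * wN N = 1 := by
    rw [mul_comm, Complex.mul_conj, Complex.normSq_apply, hw]
    simp only
    rw [Real.mul_self_sqrt hr3]
    norm_cast
    ring
  have hw1 : ‖wN N‖ = 1 := by
    have h1 : (‖wN N‖ : ℂ) ^ 2 = 1 := by
      rw [← hwn, mul_comm, Complex.mul_conj, Complex.normSq_eq_norm_sq]
      push_cast
      rfl
    have h2 : ‖wN N‖ ^ 2 = 1 := by exact_mod_cast h1
    have h3 := norm_nonneg (wN N)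
    nlinarith
  have hwr : wN N + (starRingEnd ℂ) (wN N) = 2 * (r : ℂ) := by
    rw [Complex.add_conj]
    simp [hw]
  have ev1 : ∀ z : ℂ, (aeval T (1 + C z * X : ℂ[X]) : Matrix ι ι ℂ) = 1 + z • T := by
    intro z
    rw [map_add, map_one, map_mul, aeval_C, aeval_X, Algebra.algebraMap_eq_smul_one,
      smul_mul_assoc, one_mul]
  have hTH : Tᴴ = T := hT.herm
  refine lift_twist (T := T) (b := 1 + C (wN N) * X) (b' := 1 + C ((starRingEnd ℂ) (wN N)) * X)
    hkδ' hTH hT.diag hT.off ?_ ?_ ?_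
  · rw [ev1, ev1, conjTranspose_add, conjTranspose_one, conjTranspose_smul, hTH]
    rfl
  · intro x y
    rw [ev1, Matrix.add_apply, Matrix.smul_apply, smul_eq_mul]
    by_cases hxy : x = y
    · subst hxy
      rw [hT.diag, one_apply_eq, mul_zero, add_zero, norm_one]
    · rw [one_apply_ne hxy, zero_add, norm_mul, hw1, hT.off x y hxy, one_mul]
  · rw [map_add, map_add, map_mul, map_mul, map_mul, ev1, ev1, aeval_C, aeval_X,
      Algebra.algebraMap_eq_smul_one, smul_mul_assoc, one_mul]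
    have e1 : (1 + wN N • T) * (1 + (starRingEnd ℂ) (wN N) • T) =
        1 + (wN N + (starRingEnd ℂ) (wN N)) • T + ((starRingEnd ℂ) (wN N) * wN N) • (T * T) := by
      rw [add_mul, mul_add, mul_add, one_mul, mul_one, one_mul, smul_mul_smul_comm, add_smul,
        mul_comm (wN N)]
      abel
    have h4 : (r : ℂ) = -(δ : ℂ) := by
      rw [hr]
      push_cast
      ring
    rw [e1, hwn, hwr, hT.sq, h4]
    module

lemma continuous_ev {Y : Type*} [TopologicalSpace Y] {T : Y → Matrix ι ι ℂ} (hT : Continuous T)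
    (W : Matrix (Fin 4) (Fin 4) ℂ[X]) : Continuous (fun t => ev (T t) W) := by
  refine continuous_matrix fun i j => ?_
  obtain ⟨a, x⟩ := i
  obtain ⟨b, y⟩ := j
  simp only [ev_apply]
  exact (((W a b).continuous_aeval (A := Matrix ι ι ℂ)).comp hT).matrix_elem x y

lemma QT_apply (N : ℕ) (T : Matrix ι ι ℂ) (x y : ι) : QT N T (0, x) (0, y) = T x y := by
  rw [QT, ev_apply]
  simp [Q0]

lemma PT_apply (N : ℕ) {T : Matrix ι ι ℂ} (hT : Sig T) (x : ι) : PT N T (0, x) (0, x) = 1 := by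
  rw [PT, ev_apply]
  simp [P0, hT.diag]

/-- families add under products -/
lemma FamEx.mul {N N' d d' : ℕ} (hN : 1 ≤ N) (hN' : 1 ≤ N') (h : FamEx N d) (h' : FamEx N' d') :
    FamEx (4 * N' * N) (d + d') := by
  obtain ⟨κ, _, _, S, hcard, hSc, hS, hinj⟩ := h
  obtain ⟨ι, _, _, T, hcard', hTc, hT, hinj'⟩ := h'
  obtain ⟨i0⟩ : Nonempty κ := Fintype.card_pos_iff.1 (by omega)
  obtain ⟨x0⟩ : Nonempty ι := Fintype.card_pos_iff.1 (by omega)
  let p1 : (Fin (d + d') → ℝ) → Fin d → ℝ := fun t i => t (Fin.castAdd d' i)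
  let p2 : (Fin (d + d') → ℝ) → Fin d' → ℝ := fun t i => t (Fin.natAdd d i)
  have hp1 : Continuous p1 := continuous_pi fun i => continuous_apply _
  have hp2 : Continuous p2 := continuous_pi fun i => continuous_apply _
  have hP : Continuous (fun t => PT N (T (p2 t))) := continuous_ev (hTc.comp hp2) _
  have hQ : Continuous (fun t => QT N (T (p2 t))) := continuous_ev (hTc.comp hp2) _
  refine ⟨κ × (Fin 4 × ι), inferInstance, inferInstance,
    fun t => S (p1 t) ⊗ₖ PT N (T (p2 t)) + (1 : Matrix κ κ ℂ) ⊗ₖ QT N (T (p2 t)), ?_, ?_,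
    fun t => ?_, fun s t hst => ?_⟩
  · rw [Fintype.card_prod, Fintype.card_prod, Fintype.card_fin, hcard, hcard']
    ring
  · refine continuous_matrix fun i j => ?_
    obtain ⟨i, x⟩ := i
    obtain ⟨j, y⟩ := j
    simp only [Matrix.add_apply, kroneckerMap_apply]
    exact (((hSc.comp hp1).matrix_elem i j).mul (hP.matrix_elem x y)).add
      (continuous_const.mul (hQ.matrix_elem x y))
  · obtain ⟨h1, h2, h3, h4, h5, h6, h7⟩ := isLift_T hN (hT (p2 t))
    refine sig_kron (hS (p1 t)) h1 h2 h3 h4 h5 h6 ?_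
    rw [hcard]
    exact h7
  · have h2 : p2 s = p2 t := by
      refine hinj' _ _ fun x y z => ?_
      have h1 := hst (i0, (0, x)) (i0, (0, y)) (i0, (0, z))
      unfold trip at h1 ⊢
      simp only [Matrix.add_apply, kroneckerMap_apply, QT_apply, (hS _).diag, one_apply_eq,
        zero_mul, zero_add, one_mul] at h1
      exact h1
    have h3 : p1 s = p1 t := by
      refine hinj _ _ fun i j l => ?_
      have h1 := hst (i, (0, x0)) (j, (0, x0)) (l, (0, x0))
      unfold trip at h1 ⊢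
      simp only [Matrix.add_apply, kroneckerMap_apply, QT_apply, PT_apply N (hT _), (hT _).diag,
        mul_zero, add_zero, mul_one] at h1
      exact h1
    funext i
    refine Fin.addCases (fun j => ?_) (fun j => ?_) i
    · exact congrFun h3 j
    · exact congrFun h2 j

end Pool.Agent.H89.MOD
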