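import Mathlib
import Pool.Agent.H37.EtfSkew
import Pool.Agent.H89.MOD.Fam

/-!
# A one-parameter family for skew-symmetric conference matrices
-/

namespace Pool.Agent.H89.MOD

open Matrix Module Pool.Agent.H37.Etf

variable {ι : Type} [Fintype ι] [DecidableEq ι]

/-- the block `A` -/
noncomputable def skA (C : Matrix ι ι ℤ) (a sa : ℝ) : Matrix ι ι ℂ :=
  (-(a : ℂ)) • (1 : Matrix ι ι ℂ) + (a : ℂ) • Jm ι + (Complex.I * (sa : ℂ)) • cx C

/-- the block `B` -/
noncomputable def skB (C : Matrix ι ι ℤ) (z sz h sh : ℝ) : Matrix ι ι ℂ :=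
  (1 - (z : ℂ) * ((h : ℂ) + Complex.I * (sh : ℂ))) • (1 : Matrix ι ι ℂ) +
    ((z : ℂ) * ((h : ℂ) + Complex.I * (sh : ℂ))) • Jm ι +
      (Complex.I * (sz : ℂ) * ((h : ℂ) + Complex.I * (sh : ℂ))) • cx C

lemma sig_sk {C : Matrix ι ι ℤ} (hC : Core (-1) C) {a sa z sz h sh : ℝ}
    (hsa2 : sa * sa = 1 - a ^ 2) (hsz2 : sz * sz = 1 - z ^ 2) (hsh2 : sh * sh = 1 - h ^ 2)
    (he1 : ((Fintype.card ι : ℝ) - 1) * (a ^ 2 + z ^ 2) + 2 * h * z = 2)
    (he2 : sa * a = sz * (h - z)) :
    Sig (fromBlocks (skA C a sa) (skB C z sz h sh) (skB C z sz h sh)ᴴ (-skA C a sa)) := by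
  set n : ℝ := (Fintype.card ι : ℝ) with hn'
  set K := cx C with hK
  set J := Jm ι with hJ
  have hKJ : K * J = 0 := hC.mul_Jm
  have hJK : J * K = 0 := hC.Jm_mul (by norm_num)
  have hKK : K * K = J - (Fintype.card ι : ℂ) • (1 : Matrix ι ι ℂ) := by
    have := hC.mul_self
    simpa using this
  have hJJ : J * J = (Fintype.card ι : ℂ) • J := Jm_mul_Jm
  have hKH : Kᴴ = -K := by
    have := hC.conj
    simpa using this
  have hJH : Jᴴ = J := Jm_conj
  have hKdiag : ∀ i, K i i = 0 := by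
    intro i
    simp only [hK, cx, Matrix.map_apply, hC.diag i]
    simp
  have hKoff : ∀ i j, i ≠ j → K i j = 1 ∨ K i j = -1 := by
    intro i j hij
    simp only [hK, cx, Matrix.map_apply]
    rcases hC.off i j hij with h | h
    · left; rw [h]; simp
    · right; rw [h]; simp
  -- scalars
  set w : ℂ := Complex.I * (sa : ℂ) with hw
  set u : ℂ := (h : ℂ) + Complex.I * (sh : ℂ) with hu
  set u' : ℂ := (h : ℂ) - Complex.I * (sh : ℂ) with hu'
  set β : ℂ := (z : ℂ) * u with hβ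
  set β' : ℂ := (z : ℂ) * u' with hβ'
  set γ : ℂ := Complex.I * (sz : ℂ) * u with hγ
  set γ' : ℂ := -Complex.I * (sz : ℂ) * u' with hγ'
  have hI : Complex.I * Complex.I = -1 := Complex.I_mul_I
  have hsa2C : (sa : ℂ) * sa = 1 - (a : ℂ) ^ 2 := by
    exact_mod_cast congrArg (fun r : ℝ => (r : ℂ)) hsa2
  have hsz2C : (sz : ℂ) * sz = 1 - (z : ℂ) ^ 2 := by
    exact_mod_cast congrArg (fun r : ℝ => (r : ℂ)) hsz2
  have hsh2C : (sh : ℂ) * sh = 1 - (h : ℂ) ^ 2 := by
    exact_mod_cast congrArg (fun r : ℝ => (r : ℂ)) hsh2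
  have he1C : ((n : ℂ) - 1) * ((a : ℂ) ^ 2 + (z : ℂ) ^ 2) + 2 * (h : ℂ) * (z : ℂ) = 2 := by
    exact_mod_cast congrArg (fun r : ℝ => (r : ℂ)) he1
  have he2C : (sa : ℂ) * (a : ℂ) = (sz : ℂ) * ((h : ℂ) - (z : ℂ)) := by
    exact_mod_cast congrArg (fun r : ℝ => (r : ℂ)) he2
  have huu : u * u' = 1 := by
    rw [hu, hu']
    linear_combination (-Complex.I * Complex.I) * hsh2C - (1 - (h : ℂ) ^ 2) * hI
  have hww : w * w = (a : ℂ) ^ 2 - 1 := by
    rw [hw]
    linear_combination (Complex.I * Complex.I) * hsa2C + (1 - (a : ℂ) ^ 2) * hI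
  have hββ : β * β' = (z : ℂ) ^ 2 := by
    rw [hβ, hβ']
    linear_combination (z : ℂ) ^ 2 * huu
  have hγγ : γ * γ' = 1 - (z : ℂ) ^ 2 := by
    rw [hγ, hγ']
    linear_combination (-Complex.I * Complex.I * sz * sz) * huu - Complex.I * Complex.I * hsz2C
      - (1 - (z : ℂ) ^ 2) * hI
  have hβs : β + β' = 2 * (z : ℂ) * h := by rw [hβ, hβ', hu, hu']; ring
  have hcross : γ - γ' + β * γ' - β' * γ = 2 * Complex.I * (sz * (h - z)) := by
    rw [hβ, hβ', hγ, hγ']
    have e1 : Complex.I * (sz : ℂ) * u - -Complex.I * (sz : ℂ) * u' = 2 * Complex.I * sz * h := by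
      rw [hu, hu']; ring
    linear_combination e1 - (2 * Complex.I * z * sz) * huu
  have hA : skA C a sa = (-(a : ℂ)) • (1 : Matrix ι ι ℂ) + (a : ℂ) • J + w • K := rfl
  set A := skA C a sa with hAdef
  have hB : skB C z sz h sh = (1 - β) • (1 : Matrix ι ι ℂ) + β • J + γ • K := rfl
  set B := skB C z sz h sh with hBdef
  have su : star u = u' := by
    rw [hu, hu', star_add, star_mul', Complex.star_def, Complex.conj_I, Complex.conj_ofReal,
      Complex.conj_ofReal]
    ring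
  have hBH : Bᴴ = (1 - β') • (1 : Matrix ι ι ℂ) + β' • J - γ' • K := by
    rw [hB]
    simp only [conjTranspose_add, conjTranspose_smul, conjTranspose_one, hJH, hKH]
    have e1 : star (1 - β) = 1 - β' := by
      rw [hβ, star_sub, star_one, star_mul', su, Complex.star_def, Complex.conj_ofReal]
    have e2 : star β = β' := by
      rw [hβ, star_mul', su, Complex.star_def, Complex.conj_ofReal]
    have e3 : star γ = γ' := by
      rw [hγ, star_mul', star_mul', su, Complex.star_def, Complex.conj_I, Complex.conj_ofReal]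
    rw [e1, e2, e3]
    module
  have hAH : Aᴴ = A := by
    rw [hA]
    simp only [conjTranspose_add, conjTranspose_smul, conjTranspose_one, hJH, hKH]
    have e1 : star (a : ℂ) = (a : ℂ) := Complex.conj_ofReal _
    have e2 : star w = -w := by
      rw [hw, star_mul', Complex.star_def, Complex.conj_I, Complex.conj_ofReal]
      ring
    rw [star_neg, e1, e2, smul_neg, neg_smul w, neg_neg]
  have hAe : ∀ i j, A i j = -(a : ℂ) * (1 : Matrix ι ι ℂ) i j + a + w * K i j := by
    intro i j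
    rw [hA, Matrix.add_apply, Matrix.add_apply, Matrix.smul_apply, Matrix.smul_apply,
      Matrix.smul_apply, smul_eq_mul, smul_eq_mul, smul_eq_mul]
    simp [hJ, Jm]
  have hBe : ∀ i j, B i j = (1 - β) * (1 : Matrix ι ι ℂ) i j + β + γ * K i j := by
    intro i j
    rw [hB, Matrix.add_apply, Matrix.add_apply, Matrix.smul_apply, Matrix.smul_apply,
      Matrix.smul_apply, smul_eq_mul, smul_eq_mul, smul_eq_mul]
    simp [hJ, Jm]
  have nu : ‖u‖ = 1 := by
    have h1 : Complex.normSq u = 1 := by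
      rw [hu, Complex.normSq_apply]; simp; nlinarith
    rw [Complex.norm_def, h1, Real.sqrt_one]
  refine sig_block (A := A) (B := B) hAH ?_ ?_ ?_ ?_ ?_ ?_
  · intro i
    rw [hAe, Matrix.one_apply_eq, hKdiag]
    ring
  · intro i j hij
    rw [hAe, Matrix.one_apply_ne hij]
    have h1 : Complex.normSq (-(a : ℂ) * 0 + a + w * K i j) = 1 := by
      rcases hKoff i j hij with h | h <;> rw [h, hw, Complex.normSq_apply] <;> simp <;>
        nlinarith
    rw [← Real.sqrt_one, ← h1, Complex.norm_def]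
  · intro i j
    rw [hBe]
    by_cases hij : i = j
    · subst hij
      rw [Matrix.one_apply_eq, hKdiag]
      simp
    · rw [Matrix.one_apply_ne hij, mul_zero, zero_add]
      have h0 : β + γ * K i j = u * ((z : ℂ) + Complex.I * sz * K i j) := by
        rw [hβ, hγ]; ring
      have h1 : Complex.normSq ((z : ℂ) + Complex.I * sz * K i j) = 1 := by
        rcases hKoff i j hij with h | h <;> rw [h, Complex.normSq_apply] <;> simp <;>
          nlinarith
      rw [h0, norm_mul, nu, one_mul, ← Real.sqrt_one, ← h1, Complex.norm_def]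
  · rw [hA, hB]
    simp only [mul_add, add_mul, mul_smul_comm, smul_mul_assoc, hKJ, hJK, mul_one, one_mul,
      smul_zero, hKK, hJJ]
    module
  · rw [hBH, hB]
    simp only [mul_add, add_mul, mul_sub, sub_mul, mul_smul_comm, smul_mul_assoc, hKJ, hJK, mul_one,
      one_mul, smul_zero, hKK, hJJ]
    module
  · have e1 : B * Bᴴ = ((1 - β) * (1 - β')) • (1 : Matrix ι ι ℂ) +
        ((1 - β) * β' + β * (1 - β') + (Fintype.card ι : ℂ) * (β * β')) • J - (γ * γ') • (K * K)
        + ((1 - β') * γ - (1 - β) * γ') • K := by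
      rw [hBH, hB]
      simp only [mul_add, add_mul, mul_sub, mul_smul_comm, smul_mul_assoc, hKJ, hJK,
        mul_one, one_mul, smul_zero, hJJ]
      module
    have e2 : A * A = ((a : ℂ) ^ 2) • (1 : Matrix ι ι ℂ) +
        (-2 * (a : ℂ) ^ 2 + (Fintype.card ι : ℂ) * (a : ℂ) ^ 2) • J + (w * w) • (K * K)
        - (2 * a * w) • K := by
      rw [hA]
      simp only [mul_add, add_mul, mul_smul_comm, smul_mul_assoc, hKJ, hJK,
        mul_one, one_mul, smul_zero, hJJ]
      module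
    have hnC : (Fintype.card ι : ℂ) = (n : ℂ) := by rw [hn']; push_cast; rfl
    have c1 : (1 - β) * (1 - β') + n * (γ * γ') + (a : ℂ) ^ 2 - n * (w * w) = 2 * n - 1 := by
      rw [hγγ, hww]
      linear_combination hββ - hβs - he1C
    have cJ : (1 - β) * β' + β * (1 - β') + n * (β * β') - γ * γ' - 2 * (a : ℂ) ^ 2
        + n * (a : ℂ) ^ 2 + w * w = 0 := by
      rw [hγγ, hww]
      linear_combination hβs + (n - 2) * hββ + he1C
    have cK : (1 - β') * γ - (1 - β) * γ' - 2 * a * w = 0 := by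
      rw [hw]
      linear_combination hcross - 2 * Complex.I * he2C
    rw [e1, e2, hKK]
    ext i j
    simp only [Matrix.add_apply, Matrix.sub_apply, Matrix.smul_apply, smul_eq_mul]
    have hJij : J i j = 1 := rfl
    rw [hJij, hnC]
    have fin : ∀ d k : ℂ, (a : ℂ) ^ 2 * d + (-2 * (a : ℂ) ^ 2 + (n : ℂ) * (a : ℂ) ^ 2) * 1 +
        (w * w) * (1 - (n : ℂ) * d) - 2 * a * w * k + ((1 - β) * (1 - β') * d +
        ((1 - β) * β' + β * (1 - β') + (n : ℂ) * (β * β')) * 1 - (γ * γ') * (1 - (n : ℂ) * d)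
        + ((1 - β') * γ - (1 - β) * γ') * k) = (2 * (n : ℂ) - 1) * d := by
      intro d k
      clear_value β β' γ γ' w u u'
      linear_combination d * c1 + cJ + k * cK
    exact fin _ _

/-- the map of the three phases -/
noncomputable def skf (n ζ : ℝ) (v : ℝ × ℝ × ℝ) : ℝ × ℝ :=
  ((n - 1) * (Real.sin v.1 ^ 2 + Real.cos (ζ + v.2.1) ^ 2) +
      2 * Real.cos (ζ + v.2.2) * Real.cos (ζ + v.2.1),
    Real.cos v.1 * Real.sin v.1 -
      Real.sin (ζ + v.2.1) * (Real.cos (ζ + v.2.2) - Real.cos (ζ + v.2.1)))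

lemma contDiff_skf (n ζ : ℝ) : ContDiff ℝ 1 (skf n ζ) := by
  unfold skf
  fun_prop

lemma skf_deriv (n ζ x y : ℝ) : fderiv ℝ (skf n ζ) 0 (x, y, 0) =
    (-(2 * n * Real.cos ζ * Real.sin ζ * y), x - Real.sin ζ ^ 2 * y) := by
  have h1 : HasFDerivAt (skf n ζ) (fderiv ℝ (skf n ζ) 0) ((0 : ℝ) • (x, y, (0 : ℝ))) := by
    rw [zero_smul]
    exact ((contDiff_skf n ζ).differentiable (by norm_num) 0).hasFDerivAt
  have h2 : HasDerivAt (fun t : ℝ => t • (x, y, (0 : ℝ))) (x, y, (0 : ℝ)) 0 := by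
    have := (hasDerivAt_id (0 : ℝ)).smul_const (x, y, (0 : ℝ))
    simpa using this
  have h3 : HasDerivAt (fun t : ℝ => skf n ζ (t • (x, y, (0 : ℝ))))
      (fderiv ℝ (skf n ζ) 0 (x, y, 0)) 0 :=
    HasFDerivAt.comp_hasDerivAt (f := fun t : ℝ => t • (x, y, (0 : ℝ))) (0 : ℝ) h1 h2
  have hx : HasDerivAt (fun t : ℝ => t * x) x 0 := by
    have := (hasDerivAt_id (0 : ℝ)).mul_const x
    simpa using this
  have hy : HasDerivAt (fun t : ℝ => ζ + t * y) y 0 := by
    have := ((hasDerivAt_id (0 : ℝ)).mul_const y).const_add ζ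
    simpa using this
  have hsx := hx.sin
  have hcx := hx.cos
  have hsy := hy.sin
  have hcy := hy.cos
  have h4 : HasDerivAt (fun t : ℝ => skf n ζ (t • (x, y, (0 : ℝ))))
      (-(2 * n * Real.cos ζ * Real.sin ζ * y), x - Real.sin ζ ^ 2 * y) 0 := by
    have e : (fun t : ℝ => skf n ζ (t • (x, y, (0 : ℝ)))) = fun t : ℝ =>
        ((n - 1) * (Real.sin (t * x) ^ 2 + Real.cos (ζ + t * y) ^ 2) +
          2 * Real.cos ζ * Real.cos (ζ + t * y),
        Real.cos (t * x) * Real.sin (t * x) -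
          Real.sin (ζ + t * y) * (Real.cos ζ - Real.cos (ζ + t * y))) := by
      funext t
      simp [skf]
    rw [e]
    refine HasDerivAt.prodMk ?_ ?_
    · have h5 := (((hsx.pow 2).add (hcy.pow 2)).const_mul (n - 1)).add
        (hcy.const_mul (2 * Real.cos ζ))
      refine h5.congr_deriv ?_
      simp
      ring
    · have h5 := (hcx.mul hsx).sub (hsy.mul (hcy.const_sub (Real.cos ζ)))
      refine h5.congr_deriv ?_
      simp
      ring
  exact h3.unique h4

lemma skf_surj {n ζ : ℝ} (hn : n ≠ 0) (hs : Real.sin ζ ≠ 0) (hc : Real.cos ζ ≠ 0) :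
    (fderiv ℝ (skf n ζ) 0).range = ⊤ := by
  rw [LinearMap.range_eq_top]
  rintro ⟨p, r⟩
  refine ⟨(r + Real.sin ζ ^ 2 * (-(p / (2 * n * Real.cos ζ * Real.sin ζ))),
    -(p / (2 * n * Real.cos ζ * Real.sin ζ)), 0), ?_⟩
  show fderiv ℝ (skf n ζ) 0 _ = _
  rw [skf_deriv]
  refine Prod.ext ?_ ?_
  · field_simp
  · simp

lemma skA_apply {C : Matrix ι ι ℤ} (hC : Core (-1) C) (x : ℝ) {i j : ι} (hij : i ≠ j) :
    skA C (Real.sin x) (Real.cos x) i j =
      ((C i j : ℂ) * Complex.I) * Complex.exp (((-(x * C i j) : ℝ) : ℂ) * Complex.I) := by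
  have e : skA C (Real.sin x) (Real.cos x) i j =
      (Real.sin x : ℂ) + Complex.I * (Real.cos x : ℂ) * (C i j : ℂ) := by
    simp [skA, Jm, cx, one_apply_ne hij]
  have hI := Complex.I_mul_I
  rcases hC.off i j hij with h | h
  · have e1 : (-(x * (C i j : ℝ)) : ℝ) = -x := by
      rw [h]
      push_cast
      ring
    rw [e, e1, h, Complex.exp_mul_I, Complex.ofReal_neg, Complex.cos_neg, Complex.sin_neg,
      Complex.ofReal_sin, Complex.ofReal_cos, Int.cast_one]
    linear_combination (Complex.sin (x : ℂ)) * hI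
  · have e1 : (-(x * (C i j : ℝ)) : ℝ) = x := by
      rw [h]
      push_cast
      ring
    rw [e, e1, h, Complex.exp_mul_I, Complex.ofReal_sin, Complex.ofReal_cos, Int.cast_neg,
      Int.cast_one]
    linear_combination (Complex.sin (x : ℂ)) * hI

lemma skA_diag {C : Matrix ι ι ℤ} (hC : Core (-1) C) (a sa : ℝ) (i : ι) : skA C a sa i i = 0 := by
  simp [skA, Jm, cx, hC.diag]

lemma skB_apply {C : Matrix ι ι ℤ} (hC : Core (-1) C) (y v : ℝ) {i j : ι} (hij : i ≠ j) :
    skB C (Real.cos y) (Real.sin y) (Real.cos v) (Real.sin v) i j =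
      Complex.exp (((v + y * C i j : ℝ) : ℂ) * Complex.I) := by
  have e : skB C (Real.cos y) (Real.sin y) (Real.cos v) (Real.sin v) i j =
      ((Real.cos v : ℂ) + Complex.I * (Real.sin v : ℂ)) *
        ((Real.cos y : ℂ) + Complex.I * (Real.sin y : ℂ) * (C i j : ℂ)) := by
    simp [skB, Jm, cx, one_apply_ne hij]
    ring
  have hI := Complex.I_mul_I
  rcases hC.off i j hij with h | h
  · have e1 : (v + y * (C i j : ℝ) : ℝ) = v + y := by
      rw [h]
      push_cast
      ring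
    rw [e, e1, h, Complex.exp_mul_I, Complex.ofReal_add, Complex.cos_add, Complex.sin_add,
      Complex.ofReal_sin, Complex.ofReal_cos, Complex.ofReal_sin, Complex.ofReal_cos, Int.cast_one]
    linear_combination (Complex.sin (v : ℂ) * Complex.sin (y : ℂ)) * hI
  · have e1 : (v + y * (C i j : ℝ) : ℝ) = v + -y := by
      rw [h]
      push_cast
      ring
    rw [e, e1, h, Complex.exp_mul_I, Complex.ofReal_add, Complex.cos_add, Complex.sin_add,
      Complex.ofReal_neg, Complex.cos_neg, Complex.sin_neg,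
      Complex.ofReal_sin, Complex.ofReal_cos, Complex.ofReal_sin, Complex.ofReal_cos,
      Int.cast_neg, Int.cast_one]
    linear_combination (-(Complex.sin (v : ℂ) * Complex.sin (y : ℂ))) * hI

lemma skB_diag {C : Matrix ι ι ℤ} (hC : Core (-1) C) (z sz h sh : ℝ) (i : ι) :
    skB C z sz h sh i i = 1 := by
  simp [skB, Jm, cx, hC.diag]

/-- the signature matrix with the three phases -/
noncomputable def skS (C : Matrix ι ι ℤ) (ζ : ℝ) (v : ℝ × ℝ × ℝ) : Matrix (ι ⊕ ι) (ι ⊕ ι) ℂ :=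
  fromBlocks (skA C (Real.sin v.1) (Real.cos v.1))
    (skB C (Real.cos (ζ + v.2.1)) (Real.sin (ζ + v.2.1)) (Real.cos (ζ + v.2.2))
      (Real.sin (ζ + v.2.2)))
    (skB C (Real.cos (ζ + v.2.1)) (Real.sin (ζ + v.2.1)) (Real.cos (ζ + v.2.2))
      (Real.sin (ζ + v.2.2)))ᴴ
    (-skA C (Real.sin v.1) (Real.cos v.1))

lemma sk_recover {C : Matrix ι ι ℤ} (hC : Core (-1) C) (hn : 3 ≤ Fintype.card ι) {ζ : ℝ}
    {v w : ℝ × ℝ × ℝ} (hv : |v.1| ≤ 1 / 2 ∧ |v.2.1| ≤ 1 / 2 ∧ |v.2.2| ≤ 1 / 2)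
    (hw : |w.1| ≤ 1 / 2 ∧ |w.2.1| ≤ 1 / 2 ∧ |w.2.2| ≤ 1 / 2)
    (h : ∀ i j l, trip (skS C ζ v) i j l = trip (skS C ζ w) i j l) : v = w := by
  have hpi := Real.pi_gt_three
  obtain ⟨i0, -, i1, -, i2, -, h01, h02, h12⟩ := Finset.two_lt_card.1
    (show 2 < (Finset.univ : Finset ι).card by rw [Finset.card_univ]; omega)
  have hv1 := abs_le.1 hv.1
  have hv2 := abs_le.1 hv.2.1
  have hv3 := abs_le.1 hv.2.2
  have hw1 := abs_le.1 hw.1
  have hw2 := abs_le.1 hw.2.1
  have hw3 := abs_le.1 hw.2.2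
  have hCne : ∀ i j, i ≠ j → (C i j : ℂ) ≠ 0 := by
    intro i j hij
    rcases hC.off i j hij with h | h <;> rw [h] <;> simp
  have hI := Complex.I_ne_zero
  -- the first phase
  have hx : v.1 = w.1 := by
    have h1 := h (Sum.inl i0) (Sum.inl i1) (Sum.inl i2)
    simp only [trip, skS, fromBlocks_apply₁₁] at h1
    rw [skA_apply hC _ h01, skA_apply hC _ h12, skA_apply hC _ h02.symm,
      skA_apply hC _ h01, skA_apply hC _ h12, skA_apply hC _ h02.symm] at h1
    set κ : ℝ := (C i0 i1 : ℝ) + C i1 i2 + C i2 i0 with hκ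
    have e : ∀ x : ℝ, (C i0 i1 : ℂ) * Complex.I * Complex.exp (((-(x * C i0 i1) : ℝ) : ℂ) * Complex.I) *
        ((C i1 i2 : ℂ) * Complex.I * Complex.exp (((-(x * C i1 i2) : ℝ) : ℂ) * Complex.I)) *
        ((C i2 i0 : ℂ) * Complex.I * Complex.exp (((-(x * C i2 i0) : ℝ) : ℂ) * Complex.I)) =
        ((C i0 i1 : ℂ) * Complex.I * ((C i1 i2 : ℂ) * Complex.I) * ((C i2 i0 : ℂ) * Complex.I)) *
          Complex.exp (((-(x * κ) : ℝ) : ℂ) * Complex.I) := by
      intro x
      have : (((-(x * κ) : ℝ) : ℂ) * Complex.I) = ((-(x * C i0 i1) : ℝ) : ℂ) * Complex.I +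
          ((-(x * C i1 i2) : ℝ) : ℂ) * Complex.I + ((-(x * C i2 i0) : ℝ) : ℂ) * Complex.I := by
        rw [hκ]
        push_cast
        ring
      rw [this, Complex.exp_add, Complex.exp_add]
      ring
    rw [e, e] at h1
    have hκ0 : κ ≠ 0 ∧ |κ| ≤ 3 := by
      rcases hC.off i0 i1 h01 with a1 | a1 <;> rcases hC.off i1 i2 h12 with a2 | a2 <;>
        rcases hC.off i2 i0 h02.symm with a3 | a3 <;> rw [hκ, a1, a2, a3] <;> norm_num
    have h2 := exp_cancel (mul_ne_zero (mul_ne_zero (mul_ne_zero (hCne _ _ h01) hI)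
      (mul_ne_zero (hCne _ _ h12) hI)) (mul_ne_zero (hCne _ _ h02.symm) hI)) h1 (by
        have e2 : -(v.1 * κ) - -(w.1 * κ) = (w.1 - v.1) * κ := by ring
        rw [e2, abs_mul]
        have e3 : |w.1 - v.1| ≤ 1 := by
          rw [abs_le]
          constructor <;> linarith [hv1.1, hv1.2, hw1.1, hw1.2]
        have e4 := abs_nonneg κ
        have e5 := abs_nonneg (w.1 - v.1)
        nlinarith [hκ0.2])
    have h3 : (v.1 - w.1) * κ = 0 := by linarith
    rcases mul_eq_zero.1 h3 with h4 | h4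
    · linarith
    · exact absurd h4 hκ0.1
  -- the other phases
  have hB : ∀ i j, i ≠ j → ζ + v.2.2 + (ζ + v.2.1) * C i j = ζ + w.2.2 + (ζ + w.2.1) * C i j := by
    intro i j hij
    have h1 := h (Sum.inl i) (Sum.inr i) (Sum.inr j)
    simp only [trip, skS, fromBlocks_apply₁₂, fromBlocks_apply₂₂, fromBlocks_apply₂₁,
      conjTranspose_apply, Matrix.neg_apply] at h1
    rw [skB_diag hC, skB_diag hC, skB_apply hC _ _ hij, skB_apply hC _ _ hij, hx] at h1
    have hA : skA C (Real.sin w.1) (Real.cos w.1) i j ≠ 0 := by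
      rw [skA_apply hC _ hij]
      exact mul_ne_zero (mul_ne_zero (hCne _ _ hij) hI) (Complex.exp_ne_zero _)
    have e : ∀ θ : ℝ, star (Complex.exp ((θ : ℂ) * Complex.I)) =
        Complex.exp (((-θ : ℝ) : ℂ) * Complex.I) := by
      intro θ
      rw [Complex.star_def, ← Complex.exp_conj, map_mul, Complex.conj_I, Complex.conj_ofReal]
      congr 1
      push_cast
      ring
    rw [e, e] at h1
    have h2 := exp_cancel (mul_ne_zero one_ne_zero (neg_ne_zero.2 hA)) h1 (by
      rcases hC.off i j hij with a1 | a1 <;> rw [a1] <;> push_cast <;> rw [abs_lt] <;>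
        constructor <;> linarith [hv2.1, hv2.2, hv3.1, hv3.2, hw2.1, hw2.2, hw3.1, hw3.2])
    linarith
  have e1 := hB i0 i1 h01
  have e2 := hB i1 i0 h01.symm
  have hsym : (C i1 i0 : ℝ) = -(C i0 i1 : ℝ) := by
    have := hC.symm i0 i1
    rw [this]
    push_cast
    ring
  rw [hsym] at e2
  have e3 : v.2.2 = w.2.2 := by linarith
  have e4 : v.2.1 = w.2.1 := by
    rcases hC.off i0 i1 h01 with a1 | a1 <;> rw [a1] at e1 <;> push_cast at e1 <;> linarith
  exact Prod.ext hx (Prod.ext e4 e3)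

lemma famEx_core {C : Matrix ι ι ℤ} (hC : Core (-1) C) (hn : 3 ≤ Fintype.card ι) :
    FamEx (2 * Fintype.card ι) 1 := by
  have hn' : (3 : ℝ) ≤ Fintype.card ι := by exact_mod_cast hn
  set n : ℝ := (Fintype.card ι : ℝ) with hnd
  set c : ℝ := √(2 / (n + 1)) with hc
  have hc2 : c ^ 2 = 2 / (n + 1) := Real.sq_sqrt (by positivity)
  have hc0 : 0 < c := Real.sqrt_pos.2 (by positivity)
  have hc3 : c ^ 2 * (n + 1) = 2 := by
    rw [hc2]
    field_simp
  have hc4 : c ^ 2 ≤ 1 / 2 := by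
    rw [hc2, div_le_div_iff₀ (by linarith) (by norm_num)]
    linarith
  have hc5 : c < 1 := by nlinarith
  set ζ : ℝ := Real.arccos c with hζ
  have hcos : Real.cos ζ = c := Real.cos_arccos (by linarith) hc5.le
  have hsin : Real.sin ζ ≠ 0 := by
    intro h0
    have := Real.sin_sq_add_cos_sq ζ
    rw [h0, hcos] at this
    nlinarith
  obtain ⟨Φ, hΦ, hΦi, hΦf⟩ := exists_local (contDiff_skf n ζ)
    (skf_surj (by linarith) hsin (by rw [hcos]; exact hc0.ne')) (d := 1) (by simp) (δ := 1 / 2)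
    (by norm_num)
  have hsmall : ∀ t, |(Φ t).1| ≤ 1 / 2 ∧ |(Φ t).2.1| ≤ 1 / 2 ∧ |(Φ t).2.2| ≤ 1 / 2 := by
    intro t
    have h1 := (hΦf t).2.le
    have h2 := norm_fst_le (Φ t)
    have h3 := norm_snd_le (Φ t)
    have h4 := norm_fst_le (Φ t).2
    have h5 := norm_snd_le (Φ t).2
    rw [Real.norm_eq_abs] at h2 h4 h5
    exact ⟨h2.trans h1, h4.trans (h3.trans h1), h5.trans (h3.trans h1)⟩
  have hc1' : Continuous (fun t => (Φ t).1) := continuous_fst.comp hΦ
  have hc2' : Continuous (fun t => (Φ t).2.1) := continuous_fst.comp (continuous_snd.comp hΦ)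
  have hc3' : Continuous (fun t => (Φ t).2.2) := continuous_snd.comp (continuous_snd.comp hΦ)
  refine ⟨ι ⊕ ι, inferInstance, inferInstance, fun t => skS C ζ (Φ t), ?_, ?_, ?_, ?_⟩
  · rw [Fintype.card_sum]
    ring
  · have hA : Continuous (fun t => skA C (Real.sin (Φ t).1) (Real.cos (Φ t).1)) := by
      refine continuous_matrix fun i j => ?_
      simp only [skA, Matrix.add_apply, Matrix.smul_apply, smul_eq_mul]
      fun_prop
    have hB : Continuous (fun t => skB C (Real.cos (ζ + (Φ t).2.1)) (Real.sin (ζ + (Φ t).2.1))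
        (Real.cos (ζ + (Φ t).2.2)) (Real.sin (ζ + (Φ t).2.2))) := by
      refine continuous_matrix fun i j => ?_
      simp only [skB, Matrix.add_apply, Matrix.smul_apply, smul_eq_mul]
      fun_prop
    exact hA.matrix_fromBlocks hB hB.matrix_conjTranspose hA.neg
  · intro t
    have h1 := (hΦf t).1
    have h2 : skf n ζ 0 = (2, 0) := by
      refine Prod.ext ?_ ?_
      · simp only [skf, Prod.fst_zero, Prod.snd_zero, Real.sin_zero, add_zero, hcos]
        linear_combination hc3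
      · simp [skf]
    rw [h2] at h1
    have h3 := congrArg Prod.fst h1
    have h4 := congrArg Prod.snd h1
    simp only [skf] at h3 h4
    refine sig_sk hC ?_ ?_ ?_ ?_ ?_
    · have := Real.sin_sq_add_cos_sq (Φ t).1
      linear_combination this
    · have := Real.sin_sq_add_cos_sq (ζ + (Φ t).2.1)
      linear_combination this
    · have := Real.sin_sq_add_cos_sq (ζ + (Φ t).2.2)
      linear_combination this
    · linear_combination h3
    · linear_combination h4
  · intro s t hst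
    exact hΦi (sk_recover hC hn (hsmall s) (hsmall t) hst)

end Pool.Agent.H89.MOD
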