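import Mathlib
import Pool.Agent.H89.MOD.Prod
import Pool.Agent.H89.MOD.Skew
import Pool.Agent.H89.MOD.Ineq

/-!
# Lists of blocks
-/

namespace Pool.Agent.H89.MOD

open Matrix Pool.Agent.H37.Etf Pool.Agent.H54.Etf

/-- a block: an order `p.1` together with a number `p.2` of parameters -/
def Block (p : ℕ × ℕ) : Prop := 1 ≤ p.1 ∧ FamEx (2 * p.1) p.2

lemma block_primePow {q : ℕ} (hq : IsPrimePow q) (hodd : Odd q) : Block (q, (q - 1) / 2) :=
  ⟨hq.pos, famEx_primePow hq hodd⟩

lemma block_skew {n : ℕ} (hn : 3 ≤ n) {W : Matrix (Fin (n + 1)) (Fin (n + 1)) ℤ}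
    (hW : IsConference (-1) W) : Block (n, 1) := by
  refine ⟨by omega, ?_⟩
  have h := famEx_core (core_of_conference (by norm_num) hW) (by rw [Fintype.card_fin]; exact hn)
  rwa [Fintype.card_fin] at h

lemma block_etf {n : ℕ} (hn : 1 ≤ n) (h : ∃ f : Fin (2 * n) → EuclideanSpace ℂ (Fin n), IsETF f) :
    Block (n, 0) := by
  refine ⟨hn, ?_⟩
  obtain ⟨ι, _, _, S, hS, hcard⟩ := HasETF.ex hn h
  refine ⟨ι, inferInstance, inferInstance, fun _ => S, hcard, continuous_const, fun _ => hS,
    fun s t _ => Subsingleton.elim s t⟩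

lemma block_list : ∀ (L : List (ℕ × ℕ)), L ≠ [] → (∀ p ∈ L, Block p) →
    1 ≤ (L.map Prod.fst).prod ∧
      FamEx (2 * (8 ^ (L.length - 1) * (L.map Prod.fst).prod)) (L.map Prod.snd).sum
  | [], h, _ => absurd rfl h
  | [p], _, h => by
    have := h p (by simp)
    unfold Block at this
    simpa using this
  | p :: q :: L, _, h => by
    have h1 := h p (by simp)
    have h2 := block_list (q :: L) (by simp) (fun r hr => h r (by simp [hr]))
    refine ⟨?_, ?_⟩
    · rw [List.map_cons, List.prod_cons]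
      exact Nat.mul_pos h1.1 h2.1
    · have h3 := h1.2.mul (by have := h1.1; omega)
        (Nat.mul_pos (by norm_num) (Nat.mul_pos (by positivity) h2.1)) h2.2
      have e : 4 * (2 * (8 ^ ((q :: L).length - 1) * ((q :: L).map Prod.fst).prod)) * (2 * p.1) =
          2 * (8 ^ ((p :: q :: L).length - 1) * ((p :: q :: L).map Prod.fst).prod) := by
        rw [List.map_cons (l := q :: L), List.prod_cons]
        simp only [List.length_cons, Nat.add_sub_cancel]
        ring
      rw [e] at h3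
      have e2 : ((p :: q :: L).map Prod.snd).sum = p.2 + ((q :: L).map Prod.snd).sum := by
        simp only [List.map_cons, List.sum_cons]
      rw [e2]
      exact h3

lemma block_main (L : List (ℕ × ℕ)) (hne : L ≠ []) (hL : ∀ p ∈ L, Block p) (m k : ℕ) (hm : 1 ≤ m)
    (hk : 3 * (L.length - 1) + 2 * (m.primeFactors.erase 2).card ≤ k) :
    ∃ f : (Fin (L.map Prod.snd).sum → ℝ) → Fin (2 * (2 ^ k * m * (L.map Prod.fst).prod)) →
        EuclideanSpace ℂ (Fin (2 ^ k * m * (L.map Prod.fst).prod)),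
      Continuous f ∧ (∀ s, IsETF (f s)) ∧ ∀ s t, Equivalent (f s) (f t) → s = t := by
  obtain ⟨h1, h2⟩ := block_list L hne hL
  have h3 := h2.all (by
    have : 1 ≤ 8 ^ (L.length - 1) * (L.map Prod.fst).prod := Nat.mul_pos (by positivity) h1
    omega) m (k - 3 * (L.length - 1)) hm (by omega)
  have e : 2 ^ (k - 3 * (L.length - 1)) * m * (2 * (8 ^ (L.length - 1) * (L.map Prod.fst).prod)) =
      2 * (2 ^ k * m * (L.map Prod.fst).prod) := by
    have : 2 ^ (k - 3 * (L.length - 1)) * 8 ^ (L.length - 1) = 2 ^ k := by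
      rw [show (8 : ℕ) = 2 ^ 3 by norm_num, ← pow_mul, ← pow_add]
      congr 1
      omega
    rw [← this]
    ring
  rw [e] at h3
  exact h3.frames (Nat.mul_pos (Nat.mul_pos (by positivity) hm) h1)

end Pool.Agent.H89.MOD
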